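import Mathlib

/-!
# The exponential of an affine function and its Taylor polynomials
-/

set_option autoImplicit false

namespace Pool.Agent.Lib.MP_c11b14_lc.Sm

open Polynomial

/-- The Taylor polynomial of the exponential function, degree `D`. -/
noncomputable def tp (D : ℕ) : ℝ[X] :=
  ∑ n ∈ Finset.range (D + 1), C (1 / (n.factorial : ℝ)) * X ^ n

theorem eval_tp (D : ℕ) (x : ℝ) :
    (tp D).eval x = ∑ n ∈ Finset.range (D + 1), x ^ n / n.factorial := by
  unfold tp
  rw [eval_finsetSum]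
  refine Finset.sum_congr rfl fun n _ => ?_
  rw [eval_mul, eval_C, eval_pow, eval_X]
  ring

theorem natDegree_tp (D : ℕ) : (tp D).natDegree ≤ D := by
  unfold tp
  refine natDegree_sum_le_of_forall_le _ _ fun n hn => ?_
  refine (natDegree_C_mul_X_pow_le _ _).trans ?_
  exact Nat.lt_succ_iff.1 (Finset.mem_range.1 hn)

theorem derivative_tp (D : ℕ) : derivative (tp (D + 1)) = tp D := by
  unfold tp
  rw [derivative_sum, Finset.sum_range_succ']
  simp only [pow_zero, mul_one, derivative_C, add_zero]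
  refine Finset.sum_congr rfl fun n _ => ?_
  rw [derivative_C_mul_X_pow, Nat.factorial_succ]
  congr 2
  push_cast
  have h1 : (n.factorial : ℝ) ≠ 0 := by positivity
  have h2 : (n : ℝ) + 1 ≠ 0 := by positivity
  field_simp

theorem tail_le {B : ℝ} (hB : 0 ≤ B) (D : ℕ) :
    Real.exp B - ∑ n ∈ Finset.range D, B ^ n / n.factorial ≤
      Real.exp (Real.exp 1 * B - D) := by
  have h1 : HasSum (fun n : ℕ => B ^ n / n.factorial) (Real.exp B) := by
    have := NormedSpace.expSeries_div_hasSum_exp (𝔸 := ℝ) B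
    rwa [← Real.exp_eq_exp_ℝ] at this
  have h2 : HasSum (fun n : ℕ => (Real.exp 1 * B) ^ n / n.factorial)
      (Real.exp (Real.exp 1 * B)) := by
    have := NormedSpace.expSeries_div_hasSum_exp (𝔸 := ℝ) (Real.exp 1 * B)
    rwa [← Real.exp_eq_exp_ℝ] at this
  have h3 : HasSum (fun n : ℕ => B ^ (n + D) / (n + D).factorial)
      (Real.exp B - ∑ n ∈ Finset.range D, B ^ n / n.factorial) :=
    (hasSum_nat_add_iff' D).2 h1
  have h4 : HasSum (fun n : ℕ => (Real.exp 1 * B) ^ (n + D) / (n + D).factorial)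
      (Real.exp (Real.exp 1 * B) -
        ∑ n ∈ Finset.range D, (Real.exp 1 * B) ^ n / n.factorial) :=
    (hasSum_nat_add_iff' D).2 h2
  have h5 := h4.mul_left (Real.exp (-D))
  have h6 : Real.exp B - ∑ n ∈ Finset.range D, B ^ n / n.factorial ≤
      Real.exp (-D) * (Real.exp (Real.exp 1 * B) -
        ∑ n ∈ Finset.range D, (Real.exp 1 * B) ^ n / n.factorial) := by
    refine hasSum_le (fun n => ?_) h3 h5
    rw [mul_pow, ← Real.exp_nat_mul, mul_one, mul_div_assoc, ← mul_assoc, ← Real.exp_add]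
    have h7 : (1 : ℝ) ≤ Real.exp (-D + ((n + D : ℕ) : ℝ)) := by
      refine Real.one_le_exp ?_
      push_cast
      linarith [Nat.cast_nonneg (α := ℝ) n]
    have h8 : 0 ≤ B ^ (n + D) / ((n + D).factorial : ℝ) := by positivity
    nlinarith
  refine h6.trans ?_
  rw [sub_eq_add_neg (Real.exp 1 * B), Real.exp_add, mul_comm (Real.exp (Real.exp 1 * B))]
  refine mul_le_mul_of_nonneg_left ?_ (Real.exp_pos _).le
  have : 0 ≤ ∑ n ∈ Finset.range D, (Real.exp 1 * B) ^ n / (n.factorial : ℝ) :=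
    Finset.sum_nonneg fun n _ => by positivity
  linarith

theorem abs_exp_sub_tp_le {B x : ℝ} (hx : |x| ≤ B) (D : ℕ) :
    |Real.exp x - (tp D).eval x| ≤ Real.exp (Real.exp 1 * B - (D + 1)) := by
  have hB : 0 ≤ B := (abs_nonneg x).trans hx
  have h1 := Complex.norm_exp_sub_sum_le_exp_norm_sub_sum (x : ℂ) (D + 1)
  have h2 : ‖Complex.exp (x : ℂ) - ∑ m ∈ Finset.range (D + 1), (x : ℂ) ^ m / m.factorial‖ =
      |Real.exp x - (tp D).eval x| := by
    rw [eval_tp, ← Real.norm_eq_abs, ← Complex.norm_real]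
    congr 1
    push_cast
    rfl
  rw [h2, Complex.norm_real, Real.norm_eq_abs] at h1
  refine h1.trans ((tail_le (abs_nonneg x) (D + 1)).trans ?_)
  rw [Real.exp_le_exp]
  push_cast
  have := Real.exp_pos 1
  nlinarith

/-- The Taylor polynomial of `exp (p u + q)` as a polynomial in `u`. -/
noncomputable def ap (D : ℕ) (p q : ℝ) : ℝ[X] := (tp D).comp (C p * X + C q)

theorem eval_ap (D : ℕ) (p q u : ℝ) : (ap D p q).eval u = (tp D).eval (p * u + q) := by
  unfold ap
  rw [eval_comp]
  simp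

theorem natDegree_ap (D : ℕ) (p q : ℝ) : (ap D p q).natDegree ≤ D := by
  unfold ap
  refine natDegree_comp_le.trans ?_
  have h1 : (C p * X + C q : ℝ[X]).natDegree ≤ 1 := natDegree_linear_le
  calc (tp D).natDegree * (C p * X + C q : ℝ[X]).natDegree ≤ D * 1 :=
        Nat.mul_le_mul (natDegree_tp D) h1
    _ = D := mul_one D

theorem derivative_ap (D : ℕ) (p q : ℝ) : derivative (ap (D + 1) p q) = C p * ap D p q := by
  unfold ap
  rw [derivative_comp, derivative_tp]
  simp

end Pool.Agent.Lib.MP_c11b14_lc.Sm
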