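import Pool.Agent.Lib.MP_c11b14_lc.Sm.Cell
import Pool.Agent.Lib.MP_c11b14_lc.Sm.Tay

/-!
# Exponential sums on a cell are close to polynomials
-/

set_option autoImplicit false

namespace Pool.Agent.Lib.MP_c11b14_lc.Sm

open MeasureTheory Set Polynomial
open scoped ENNReal

/-- The exponential sum. -/
noncomputable def es {I : Type} [Fintype I] (p q c : I → ℝ) (u : ℝ) : ℝ :=
  ∑ k, c k * Real.exp (p k * u + q k)

/-- Its derivative. -/
noncomputable def es' {I : Type} [Fintype I] (p q c : I → ℝ) (u : ℝ) : ℝ :=
  ∑ k, c k * (p k * Real.exp (p k * u + q k))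

theorem exp_one_lt : Real.exp 1 < 3 := by
  have := Real.exp_one_lt_d9
  linarith

theorem approx {I : Type} [Fintype I] [DecidableEq I] (p q c : I → ℝ) (hc : ∀ k, |c k| ≤ 1)
    {T : Set ℝ} (hT : MeasurableSet T) (K : Finset I) {L : ℝ} (hL : 0 ≤ L)
    (h1 : ∀ k ∈ K, ∀ u ∈ T, |p k * u + q k| ≤ L) (h2 : ∀ k, k ∉ K → ∀ u ∈ T, p k * u + q k ≤ -L)
    (D : ℕ) (hD : 6 * L ≤ D) :
    ∃ P : ℝ[X], P.natDegree ≤ D + 1 ∧
      (∀ u ∈ T, |es p q c u - P.eval u| ≤ Fintype.card I * Real.exp (-L)) ∧
      ∫⁻ u in T, ENNReal.ofReal |es' p q c u - (derivative P).eval u| ≤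
        ENNReal.ofReal (Fintype.card I * Real.exp (-L)) := by
  have he := exp_one_lt
  have heL : Real.exp 1 * L ≤ 3 * L := by nlinarith
  refine ⟨∑ k ∈ K, C (c k) * ap (D + 1) (p k) (q k), ?_, ?_, ?_⟩
  · refine natDegree_sum_le_of_forall_le _ _ fun k _ => ?_
    exact (natDegree_C_mul_le _ _).trans (natDegree_ap _ _ _)
  · intro u hu
    rw [eval_finsetSum]
    have e1 : es p q c u - ∑ k ∈ K, (C (c k) * ap (D + 1) (p k) (q k)).eval u =
        ∑ k, c k * (Real.exp (p k * u + q k) -
          if k ∈ K then (tp (D + 1)).eval (p k * u + q k) else 0) := by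
      unfold es
      rw [← Finset.sum_filter_add_sum_filter_not Finset.univ (· ∈ K)
        (fun k => c k * (Real.exp (p k * u + q k) -
          if k ∈ K then (tp (D + 1)).eval (p k * u + q k) else 0)),
        ← Finset.sum_filter_add_sum_filter_not Finset.univ (· ∈ K)
        (fun k => c k * Real.exp (p k * u + q k))]
      have e2 : Finset.univ.filter (· ∈ K) = K := by
        ext k
        simp
      rw [e2]
      have e3 : ∑ k ∈ K, c k * (Real.exp (p k * u + q k) -
          if k ∈ K then (tp (D + 1)).eval (p k * u + q k) else 0) =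
          ∑ k ∈ K, c k * Real.exp (p k * u + q k) -
            ∑ k ∈ K, (C (c k) * ap (D + 1) (p k) (q k)).eval u := by
        rw [← Finset.sum_sub_distrib]
        refine Finset.sum_congr rfl fun k hk => ?_
        rw [if_pos hk, eval_mul, eval_C, eval_ap]
        ring
      have e4 : ∑ k ∈ Finset.univ.filter (¬ · ∈ K), c k * (Real.exp (p k * u + q k) -
          if k ∈ K then (tp (D + 1)).eval (p k * u + q k) else 0) =
          ∑ k ∈ Finset.univ.filter (¬ · ∈ K), c k * Real.exp (p k * u + q k) := by
        refine Finset.sum_congr rfl fun k hk => ?_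
        rw [if_neg (Finset.mem_filter.1 hk).2, sub_zero]
      rw [e3, e4]
      ring
    rw [e1]
    refine (Finset.abs_sum_le_sum_abs _ _).trans ?_
    calc ∑ k, |c k * (Real.exp (p k * u + q k) -
          if k ∈ K then (tp (D + 1)).eval (p k * u + q k) else 0)|
        ≤ ∑ _k : I, Real.exp (-L) := by
          refine Finset.sum_le_sum fun k _ => ?_
          rw [abs_mul]
          refine (mul_le_mul_of_nonneg_right (hc k) (abs_nonneg _)).trans ?_
          rw [one_mul]
          split_ifs with hk
          · refine (abs_exp_sub_tp_le (h1 k hk u hu) _).trans ?_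
            rw [Real.exp_le_exp]
            push_cast
            linarith
          · rw [sub_zero, Real.abs_exp, Real.exp_le_exp]
            exact h2 k hk u hu
      _ = Fintype.card I * Real.exp (-L) := by simp
  · have e1 : ∀ u, es' p q c u - (derivative (∑ k ∈ K, C (c k) * ap (D + 1) (p k) (q k))).eval u =
        ∑ k, c k * (p k * (Real.exp (p k * u + q k) -
          if k ∈ K then (tp D).eval (p k * u + q k) else 0)) := by
      intro u
      rw [derivative_sum, eval_finsetSum]
      unfold es'
      rw [← Finset.sum_filter_add_sum_filter_not Finset.univ (· ∈ K)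
        (fun k => c k * (p k * (Real.exp (p k * u + q k) -
          if k ∈ K then (tp D).eval (p k * u + q k) else 0))),
        ← Finset.sum_filter_add_sum_filter_not Finset.univ (· ∈ K)
        (fun k => c k * (p k * Real.exp (p k * u + q k)))]
      have e2 : Finset.univ.filter (· ∈ K) = K := by
        ext k
        simp
      rw [e2]
      have e3 : ∑ k ∈ K, c k * (p k * (Real.exp (p k * u + q k) -
          if k ∈ K then (tp D).eval (p k * u + q k) else 0)) =
          ∑ k ∈ K, c k * (p k * Real.exp (p k * u + q k)) -
            ∑ k ∈ K, (derivative (C (c k) * ap (D + 1) (p k) (q k))).eval u := by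
        rw [← Finset.sum_sub_distrib]
        refine Finset.sum_congr rfl fun k hk => ?_
        rw [if_pos hk, derivative_C_mul, derivative_ap, eval_mul, eval_C, eval_mul, eval_C,
          eval_ap]
        ring
      have e4 : ∑ k ∈ Finset.univ.filter (¬ · ∈ K), c k * (p k * (Real.exp (p k * u + q k) -
          if k ∈ K then (tp D).eval (p k * u + q k) else 0)) =
          ∑ k ∈ Finset.univ.filter (¬ · ∈ K), c k * (p k * Real.exp (p k * u + q k)) := by
        refine Finset.sum_congr rfl fun k hk => ?_
        rw [if_neg (Finset.mem_filter.1 hk).2, sub_zero]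
      rw [e3, e4]
      ring
    have e5 : ∀ u ∈ T, ENNReal.ofReal |es' p q c u -
        (derivative (∑ k ∈ K, C (c k) * ap (D + 1) (p k) (q k))).eval u| ≤
        ∑ k, (ENNReal.ofReal |p k| * if k ∈ K then ENNReal.ofReal
          (Real.exp (Real.exp 1 * L - (D + 1))) else
          ENNReal.ofReal (Real.exp (p k * u + q k))) := by
      intro u hu
      rw [e1 u]
      refine (ENNReal.ofReal_le_ofReal (Finset.abs_sum_le_sum_abs _ _)).trans ?_
      rw [ENNReal.ofReal_sum_of_nonneg fun k _ => abs_nonneg _]
      refine Finset.sum_le_sum fun k _ => ?_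
      rw [abs_mul, abs_mul]
      have e6 : |c k| * (|p k| * |Real.exp (p k * u + q k) -
          if k ∈ K then (tp D).eval (p k * u + q k) else 0|) ≤
          |p k| * |Real.exp (p k * u + q k) -
          if k ∈ K then (tp D).eval (p k * u + q k) else 0| := by
        refine (mul_le_mul_of_nonneg_right (hc k) (by positivity)).trans ?_
        rw [one_mul]
      refine (ENNReal.ofReal_le_ofReal e6).trans ?_
      rw [ENNReal.ofReal_mul (abs_nonneg _)]
      gcongr
      split_ifs with hk
      · exact ENNReal.ofReal_le_ofReal (abs_exp_sub_tp_le (h1 k hk u hu) _)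
      · rw [sub_zero, Real.abs_exp]
    refine (setLIntegral_mono' hT e5).trans ?_
    rw [lintegral_finsetSum _ fun k _ => by split_ifs <;> fun_prop]
    calc ∑ k, ∫⁻ u in T, (ENNReal.ofReal |p k| * if k ∈ K then ENNReal.ofReal
          (Real.exp (Real.exp 1 * L - (D + 1))) else ENNReal.ofReal (Real.exp (p k * u + q k)))
        ≤ ∑ _k : I, ENNReal.ofReal (Real.exp (-L)) := by
          refine Finset.sum_le_sum fun k _ => ?_
          by_cases hk : k ∈ K
          · simp only [hk, if_true]
            rw [lintegral_mul_const _ measurable_const]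
            have h3 := lintegral_slope_le hT (h1 k hk)
            refine (mul_le_mul_left h3 _).trans ?_
            rw [← ENNReal.ofReal_mul (by positivity)]
            refine ENNReal.ofReal_le_ofReal ?_
            have h4 : 2 * L ≤ Real.exp (2 * L) := by
              have := Real.add_one_le_exp (2 * L)
              linarith
            refine (mul_le_mul_of_nonneg_right h4 (Real.exp_pos _).le).trans ?_
            rw [← Real.exp_add, Real.exp_le_exp]
            linarith
          · simp only [hk, if_false]
            exact lintegral_exp_le hT (h2 k hk)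
      _ = ENNReal.ofReal (Fintype.card I * Real.exp (-L)) := by
          rw [Finset.sum_const, Finset.card_univ, nsmul_eq_mul,
            ENNReal.ofReal_mul (Nat.cast_nonneg _), ENNReal.ofReal_natCast]

end Pool.Agent.Lib.MP_c11b14_lc.Sm
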