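import Pool.Agent.Lib.MP_c11b14_lc.Sm.TyD

/-!
# The cells
-/

set_option autoImplicit false

namespace Pool.Agent.Lib.MP_c11b14_lc.Sm

open MeasureTheory Set Filter
open scoped ENNReal

variable {ι κ : Type}

/-- A steeper line is higher by more than `c`. -/
def bitR (a α : ι → ℝ) (c : ℝ) (k : ι) : Set ℝ :=
  {u | ∃ m, a k ≤ a m ∧ c < (a m * u + α m) - (a k * u + α k)}

/-- No flatter line is higher by more than `c`. -/
def bitL (a α : ι → ℝ) (c : ℝ) (k : ι) : Set ℝ :=
  {u | ∀ m, a m < a k → (a m * u + α m) - (a k * u + α k) ≤ c}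

/-- The products of two monomials reach the height `c`. -/
def bitH (a α : ι → ℝ) (b β : κ → ℝ) (c : ℝ) : Set ℝ :=
  {u | ∃ i j, c < (a i + b j) * u + (α i + β j)}

theorem bitR_up (a α : ι → ℝ) (c : ℝ) (k : ι) : ∀ u ∈ bitR a α c k, ∀ v, u ≤ v →
    v ∈ bitR a α c k := by
  rintro u ⟨m, h1, h2⟩ v huv
  exact ⟨m, h1, by nlinarith⟩

theorem bitL_up (a α : ι → ℝ) (c : ℝ) (k : ι) : ∀ u ∈ bitL a α c k, ∀ v, u ≤ v →
    v ∈ bitL a α c k := by
  intro u hu v huv m hm
  have := hu m hm
  nlinarith

theorem bitH_up {a : ι → ℝ} (α : ι → ℝ) {b : κ → ℝ} (β : κ → ℝ) (ha : ∀ k, 0 ≤ a k)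
    (hb : ∀ k, 0 ≤ b k) (c : ℝ) : ∀ u ∈ bitH a α b β c, ∀ v, u ≤ v → v ∈ bitH a α b β c := by
  rintro u ⟨i, j, h⟩ v huv
  refine ⟨i, j, ?_⟩
  have := add_nonneg (ha i) (hb j)
  nlinarith

theorem near_iff (a α : ι → ℝ) (c : ℝ) (k : ι) (u : ℝ) :
    (∀ m, (a m * u + α m) - (a k * u + α k) ≤ c) ↔ u ∉ bitR a α c k ∧ u ∈ bitL a α c k := by
  constructor
  · intro h
    refine ⟨?_, fun m _ => h m⟩
    rintro ⟨m, -, h2⟩
    exact absurd (h m) (not_le.2 h2)
  · rintro ⟨h1, h2⟩ m
    rcases lt_or_ge (a m) (a k) with h | h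
    · exact h2 m h
    · by_contra hcon
      exact h1 ⟨m, h, not_le.1 hcon⟩

/-- The index set of the bits. -/
abbrev BI (ι κ : Type) := (ι × Bool × Bool) ⊕ ((κ × Bool × Bool) ⊕ Bool)

/-- The bits. -/
def bits (a α : ι → ℝ) (b β : κ → ℝ) (L B : ℝ) : BI ι κ → Set ℝ
  | Sum.inl (k, x, y) => bif y then bitR a α (bif x then L else 0) k
      else bitL a α (bif x then L else 0) k
  | Sum.inr (Sum.inl (k, x, y)) => bif y then bitR b β (bif x then L else 0) k
      else bitL b β (bif x then L else 0) k
  | Sum.inr (Sum.inr x) => bitH a α b β (bif x then L else -Real.log B)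

theorem bits_up {a α : ι → ℝ} {b β : κ → ℝ} (ha : ∀ k, 0 ≤ a k) (hb : ∀ k, 0 ≤ b k) (L B : ℝ) :
    ∀ i, ∀ u ∈ bits a α b β L B i, ∀ v, u ≤ v → v ∈ bits a α b β L B i := by
  rintro (⟨k, x, y⟩ | ⟨k, x, y⟩ | x)
  · cases y
    · exact bitL_up a α _ k
    · exact bitR_up a α _ k
  · cases y
    · exact bitL_up b β _ k
    · exact bitR_up b β _ k
  · exact bitH_up α β ha hb _

variable [Fintype ι] [Fintype κ]

theorem card_BI : Fintype.card (BI ι κ) = 4 * (Fintype.card ι + Fintype.card κ) + 2 := by
  simp only [BI, Fintype.card_sum, Fintype.card_prod, Fintype.card_bool]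
  ring

section Cell

variable {a α : ι → ℝ} {b β : κ → ℝ} {L B : ℝ} (ha : ∀ k, 0 ≤ a k) (hb : ∀ k, 0 ≤ b k)
include ha hb

theorem near_congr {u v : ℝ} (h : rk (bits a α b β L B) u = rk (bits a α b β L B) v) (x : Bool)
    (k : ι) : (∀ m, (a m * u + α m) - (a k * u + α k) ≤ bif x then L else 0) ↔
      ∀ m, (a m * v + α m) - (a k * v + α k) ≤ bif x then L else 0 := by
  rw [near_iff, near_iff]
  have h1 := iff_of_rk (bits_up (α := α) (β := β) ha hb L B) h (Sum.inl (k, x, true))
  have h2 := iff_of_rk (bits_up (α := α) (β := β) ha hb L B) h (Sum.inl (k, x, false))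
  have h1' : u ∈ bitR a α (bif x then L else 0) k ↔ v ∈ bitR a α (bif x then L else 0) k := h1
  have h2' : u ∈ bitL a α (bif x then L else 0) k ↔ v ∈ bitL a α (bif x then L else 0) k := h2
  rw [h1', h2']

theorem near_congr' {u v : ℝ} (h : rk (bits a α b β L B) u = rk (bits a α b β L B) v) (x : Bool)
    (k : κ) : (∀ m, (b m * u + β m) - (b k * u + β k) ≤ bif x then L else 0) ↔
      ∀ m, (b m * v + β m) - (b k * v + β k) ≤ bif x then L else 0 := by
  rw [near_iff, near_iff]
  have h1 := iff_of_rk (bits_up (α := α) (β := β) ha hb L B) h (Sum.inr (Sum.inl (k, x, true)))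
  have h2 := iff_of_rk (bits_up (α := α) (β := β) ha hb L B) h (Sum.inr (Sum.inl (k, x, false)))
  have h1' : u ∈ bitR b β (bif x then L else 0) k ↔ v ∈ bitR b β (bif x then L else 0) k := h1
  have h2' : u ∈ bitL b β (bif x then L else 0) k ↔ v ∈ bitL b β (bif x then L else 0) k := h2
  rw [h1', h2']

theorem high_congr {u v : ℝ} (h : rk (bits a α b β L B) u = rk (bits a α b β L B) v) (x : Bool) :
    u ∈ bitH a α b β (bif x then L else -Real.log B) ↔
      v ∈ bitH a α b β (bif x then L else -Real.log B) :=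
  iff_of_rk (bits_up (α := α) (β := β) ha hb L B) h (Sum.inr (Sum.inr x))

/-- On every cell there are the dominating indices, and the cell is active or low. -/
theorem exists_cellData [Nonempty ι] [Nonempty κ] [DecidableEq ι] [DecidableEq κ] (hL : 0 ≤ L)
    (hB : 0 < B) (r : ℕ) :
    ∃ (i : ι) (j : κ) (K : Finset ι) (K' : Finset κ),
      (∀ u ∈ cell (bits a α b β L B) r, (∀ k, a k * u + α k ≤ a i * u + α i) ∧
        ∀ k, b k * u + β k ≤ b j * u + β j) ∧
      (CellData a α b β L B (cell (bits a α b β L B) r) i j K K' ∨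
        ∀ u ∈ cell (bits a α b β L B) r,
          (a i + b j) * u + (α i + β j) ≤ -Real.log B) := by
  classical
  rcases (cell (bits a α b β L B) r).eq_empty_or_nonempty with he | ⟨u0, hu0⟩
  · obtain ⟨i⟩ := (inferInstance : Nonempty ι)
    obtain ⟨j⟩ := (inferInstance : Nonempty κ)
    refine ⟨i, j, ∅, ∅, ?_, Or.inr ?_⟩
    · intro u hu
      rw [he] at hu
      exact absurd hu (notMem_empty _)
    · intro u hu
      rw [he] at hu
      exact absurd hu (notMem_empty _)
  obtain ⟨i, -, hi⟩ := Finset.exists_max_image (Finset.univ : Finset ι)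
    (fun i => a i * u0 + α i) Finset.univ_nonempty
  obtain ⟨j, -, hj⟩ := Finset.exists_max_image (Finset.univ : Finset κ)
    (fun i => b i * u0 + β i) Finset.univ_nonempty
  have hrk : ∀ u ∈ cell (bits a α b β L B) r,
      rk (bits a α b β L B) u0 = rk (bits a α b β L B) u := by
    intro u hu
    have h1 : rk (bits a α b β L B) u0 = r := hu0
    have h2 : rk (bits a α b β L B) u = r := hu
    rw [h1, h2]
  have hI : ∀ u ∈ cell (bits a α b β L B) r, ∀ k, a k * u + α k ≤ a i * u + α i := by
    intro u hu k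
    have h1 := (near_congr (α := α) (β := β) ha hb (hrk u hu) false i).1 (fun m => by
      have := hi m (Finset.mem_univ m)
      simp only [cond_false]
      linarith) k
    simp only [cond_false] at h1
    linarith
  have hJ : ∀ u ∈ cell (bits a α b β L B) r, ∀ k, b k * u + β k ≤ b j * u + β j := by
    intro u hu k
    have h1 := (near_congr' (α := α) (β := β) ha hb (hrk u hu) false j).1 (fun m => by
      have := hj m (Finset.mem_univ m)
      simp only [cond_false]
      linarith) k
    simp only [cond_false] at h1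
    linarith
  refine ⟨i, j, Finset.univ.filter fun k => ∀ m, (a m * u0 + α m) - (a k * u0 + α k) ≤ L,
    Finset.univ.filter fun k => ∀ m, (b m * u0 + β m) - (b k * u0 + β k) ≤ L,
    fun u hu => ⟨hI u hu, hJ u hu⟩, ?_⟩
  by_cases hact : u0 ∈ bitH a α b β (-Real.log B)
  · left
    refine ⟨(cell_ord (bits_up (α := α) (β := β) ha hb L B) r).measurableSet, ?_, ?_, ?_, ?_,
      ?_, ?_, ?_, ?_⟩
    · intro k u hu
      have := hI u hu k
      linarith
    · intro k u hu
      have := hJ u hu k
      linarith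
    · intro k hk u hu
      have h1 := (near_congr (α := α) (β := β) ha hb (hrk u hu) true k).1
        (fun m => (Finset.mem_filter.1 hk).2 m) i
      simp only [cond_true] at h1
      have h2 := hI u hu k
      rw [abs_le]
      constructor <;> linarith
    · intro k hk u hu
      have h1 : ¬ ∀ m, (a m * u + α m) - (a k * u + α k) ≤ L := by
        intro h
        have h3 := (near_congr (α := α) (β := β) ha hb (hrk u hu) true k).2 h
        exact hk (Finset.mem_filter.2 ⟨Finset.mem_univ _, h3⟩)
      push Not at h1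
      obtain ⟨m, hm⟩ := h1
      have h2 := hI u hu m
      linarith
    · intro k hk u hu
      have h1 := (near_congr' (α := α) (β := β) ha hb (hrk u hu) true k).1
        (fun m => (Finset.mem_filter.1 hk).2 m) j
      simp only [cond_true] at h1
      have h2 := hJ u hu k
      rw [abs_le]
      constructor <;> linarith
    · intro k hk u hu
      have h1 : ¬ ∀ m, (b m * u + β m) - (b k * u + β k) ≤ L := by
        intro h
        have h3 := (near_congr' (α := α) (β := β) ha hb (hrk u hu) true k).2 h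
        exact hk (Finset.mem_filter.2 ⟨Finset.mem_univ _, h3⟩)
      push Not at h1
      obtain ⟨m, hm⟩ := h1
      have h2 := hJ u hu m
      linarith
    · intro u hu
      obtain ⟨i', j', h1⟩ := (high_congr (α := α) (β := β) ha hb (hrk u hu) false).1 hact
      simp only [cond_false] at h1
      have h2 := hI u hu i'
      have h3 := hJ u hu j'
      rw [← Real.log_le_log_iff (Real.exp_pos _) hB, Real.log_exp]
      linarith
    · by_cases hhi : u0 ∈ bitH a α b β L
      · right
        intro u hu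
        obtain ⟨i', j', h1⟩ := (high_congr (α := α) (β := β) ha hb (hrk u hu) true).1 hhi
        simp only [cond_true] at h1
        have h2 := hI u hu i'
        have h3 := hJ u hu j'
        linarith
      · left
        intro u hu
        by_contra hcon
        rw [not_le] at hcon
        exact hhi ((high_congr (α := α) (β := β) ha hb (hrk u hu) true).2 ⟨i, j, hcon⟩)
  · right
    intro u hu
    by_contra hcon
    rw [not_le] at hcon
    exact hact ((high_congr (α := α) (β := β) ha hb (hrk u hu) false).2 ⟨i, j, hcon⟩)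

end Cell

end Pool.Agent.Lib.MP_c11b14_lc.Sm
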