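import Mathlib

/-!
# Cells of the line, integrals over cells, and an area inequality
-/

set_option autoImplicit false

namespace Pool.Agent.Lib.MP_c11b14_lc.Sm

open MeasureTheory Set
open scoped ENNReal

/-- The number of the sets `B i` that contain `u`. -/
noncomputable def rk {I : Type} [Fintype I] (B : I → Set ℝ) (u : ℝ) : ℕ :=
  {i | u ∈ B i}.ncard

theorem rk_le {I : Type} [Fintype I] (B : I → Set ℝ) (u : ℝ) : rk B u ≤ Fintype.card I := by
  unfold rk
  rw [← Nat.card_eq_fintype_card, ← Set.ncard_univ]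
  exact Set.ncard_le_ncard (subset_univ _) (toFinite _)

theorem rk_mono {I : Type} [Fintype I] {B : I → Set ℝ} (hB : ∀ i, ∀ u ∈ B i, ∀ v, u ≤ v → v ∈ B i)
    {u v : ℝ} (huv : u ≤ v) : rk B u ≤ rk B v :=
  Set.ncard_le_ncard (fun i hi => hB i u hi v huv) (toFinite _)

theorem iff_of_rk {I : Type} [Fintype I] {B : I → Set ℝ}
    (hB : ∀ i, ∀ u ∈ B i, ∀ v, u ≤ v → v ∈ B i) {u v : ℝ} (h : rk B u = rk B v) (i : I) :
    u ∈ B i ↔ v ∈ B i := by
  have key : ∀ u v : ℝ, u ≤ v → rk B u = rk B v → {i | u ∈ B i} = {i | v ∈ B i} := by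
    intro u v huv h
    exact Set.eq_of_subset_of_ncard_le (fun i hi => hB i u hi v huv) h.ge (toFinite _)
  rcases le_total u v with huv | huv
  · have := key u v huv h
    exact Set.ext_iff.1 this i
  · have := key v u huv h.symm
    exact (Set.ext_iff.1 this i).symm

/-- The cells. -/
def cell {I : Type} [Fintype I] (B : I → Set ℝ) (r : ℕ) : Set ℝ := {u | rk B u = r}

theorem cell_ord {I : Type} [Fintype I] {B : I → Set ℝ}
    (hB : ∀ i, ∀ u ∈ B i, ∀ v, u ≤ v → v ∈ B i) (r : ℕ) : (cell B r).OrdConnected := by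
  refine ⟨fun u hu v hv w hw => ?_⟩
  have h1 := rk_mono hB hw.1
  have h2 := rk_mono hB hw.2
  have h3 : rk B u = r := hu
  have h4 : rk B v = r := hv
  show rk B w = r
  omega

/-- Integrals split over the cells. -/
theorem lintegral_cells {I : Type} [Fintype I] {B : I → Set ℝ}
    (hB : ∀ i, ∀ u ∈ B i, ∀ v, u ≤ v → v ∈ B i) (f : ℝ → ℝ≥0∞) :
    ∫⁻ u, f u = ∑ r ∈ Finset.range (Fintype.card I + 1), ∫⁻ u in cell B r, f u := by
  have huniv : (⋃ r ∈ Finset.range (Fintype.card I + 1), cell B r) = univ := by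
    ext u
    simp only [mem_iUnion, Finset.mem_range, exists_prop, mem_univ, iff_true]
    exact ⟨rk B u, Nat.lt_succ_of_le (rk_le B u), rfl⟩
  have hd : ((Finset.range (Fintype.card I + 1) : Finset ℕ) : Set ℕ).PairwiseDisjoint
      fun r => cell B r := by
    intro i _ j _ hij
    rw [Function.onFun, Set.disjoint_left]
    intro u hu hv
    exact hij ((show rk B u = i from hu).symm.trans hv)
  rw [← setLIntegral_univ, ← huniv,
    lintegral_biUnion_finset hd fun i _ => (cell_ord hB i).measurableSet]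

/-- Change of variables for an affine function. -/
theorem lintegral_affine_le {p q : ℝ} {T : Set ℝ} (hT : MeasurableSet T) {C : Set ℝ}
    (h : ∀ u ∈ T, p * u + q ∈ C) (φ : ℝ → ℝ≥0∞) :
    ∫⁻ u in T, ENNReal.ofReal |p| * φ (p * u + q) ≤ ∫⁻ v in C, φ v := by
  rcases eq_or_ne p 0 with rfl | hp
  · simp
  have hinj : InjOn (fun u => p * u + q) T := by
    intro u _ v _ huv
    simp only [add_left_inj] at huv
    exact mul_left_cancel₀ hp huv
  have h1 := lintegral_image_eq_lintegral_abs_deriv_mul hT (f' := fun _ => p)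
      (f := fun u => p * u + q) (fun x _ => by
        have h1 : HasDerivAt (fun u => p * u + q) (p) x := by
          have := ((hasDerivAt_id x).const_mul p).add_const q
          simpa using this
        exact h1.hasDerivWithinAt) hinj φ
  rw [← h1]
  refine lintegral_mono_set ?_
  rintro _ ⟨u, hu, rfl⟩
  exact h u hu

theorem lintegral_slope_le {p q B : ℝ} {T : Set ℝ} (hT : MeasurableSet T)
    (h : ∀ u ∈ T, |p * u + q| ≤ B) : ∫⁻ _u in T, ENNReal.ofReal |p| ≤ ENNReal.ofReal (2 * B) := by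
  have h1 := lintegral_affine_le (p := p) (q := q) hT (C := Icc (-B) B)
    (fun u hu => abs_le.1 (h u hu)) (fun _ => 1)
  simp only [mul_one, setLIntegral_one] at h1
  refine h1.trans (le_of_eq ?_)
  rw [Real.volume_Icc]
  congr 1
  ring

theorem lintegral_exp_le {p q L : ℝ} {T : Set ℝ} (hT : MeasurableSet T)
    (h : ∀ u ∈ T, p * u + q ≤ L) :
    ∫⁻ u in T, ENNReal.ofReal |p| * ENNReal.ofReal (Real.exp (p * u + q)) ≤
      ENNReal.ofReal (Real.exp L) := by
  refine (lintegral_affine_le hT (C := Iic L) h fun v => ENNReal.ofReal (Real.exp v)).trans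
    (le_of_eq ?_)
  rw [← ofReal_integral_eq_lintegral_ofReal (integrableOn_exp_Iic L)
    (ae_of_all _ fun v => (Real.exp_pos v).le), integral_exp_Iic]

/-- The area inequality. -/
theorem area_le {φ φ' : ℝ → ℝ} {S : Set ℝ} (hS : S.Finite)
    (hd : ∀ u, u ∉ S → HasDerivAt φ (φ' u) u) (hne : ∀ u, u ∉ S → φ' u ≠ 0) (m : ℕ)
    (hm : ∀ y, {u | u ∉ S ∧ φ u = y}.encard ≤ m) {C : Set ℝ} (hC : MeasurableSet C) :
    ∫⁻ u in Sᶜ ∩ φ ⁻¹' C, ENNReal.ofReal |φ' u| ≤ m * volume C := by
  classical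
  set Sf := hS.toFinset with hSf
  let nb : ℝ → ℕ := fun u => (Sf.filter (· < u)).card
  have hnb_mono : ∀ u v : ℝ, u ≤ v → nb u ≤ nb v := by
    intro u v huv
    refine Finset.card_le_card fun z hz => ?_
    rw [Finset.mem_filter] at hz ⊢
    exact ⟨hz.1, hz.2.trans_le huv⟩
  let P : ℕ → Set ℝ := fun r => {u | u ∉ S ∧ nb u = r}
  have hPclosed : ∀ r, ∀ u ∈ P r, ∀ v ∈ P r, u < v → ∀ w ∈ Icc u v, w ∉ S := by
    intro r u hu v hv huv w hw hwS
    have hwv : w < v := lt_of_le_of_ne hw.2 fun h => hv.1 (h ▸ hwS)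
    have h1 : nb u < nb v := by
      refine Finset.card_lt_card ?_
      rw [Finset.ssubset_iff_of_subset]
      · refine ⟨w, ?_, ?_⟩
        · rw [Finset.mem_filter]
          exact ⟨hS.mem_toFinset.2 hwS, hwv⟩
        · rw [Finset.mem_filter, not_and, not_lt]
          exact fun _ => hw.1
      · intro z hz
        rw [Finset.mem_filter] at hz ⊢
        exact ⟨hz.1, hz.2.trans huv⟩
    have h2 : nb u = r := hu.2
    have h3 : nb v = r := hv.2
    omega
  have hinj : ∀ r, InjOn φ (P r) := by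
    intro r
    have key : ∀ u ∈ P r, ∀ v ∈ P r, u < v → φ u ≠ φ v := by
      intro u hu v hv huv heq
      have hw := hPclosed r u hu v hv huv
      obtain ⟨c, hc, hc'⟩ := exists_hasDerivAt_eq_zero huv
        (fun x hx => (hd x (hw x hx)).continuousAt.continuousWithinAt) heq
        (fun x hx => hd x (hw x ⟨hx.1.le, hx.2.le⟩))
      exact hne c (hw c ⟨hc.1.le, hc.2.le⟩) hc'
    intro u hu v hv huv
    rcases lt_trichotomy u v with h | h | h
    · exact absurd huv (key u hu v hv h)
    · exact h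
    · exact absurd huv.symm (key v hv u hu h)
  have hScm : MeasurableSet Sᶜ := hS.measurableSet.compl
  have hPm : ∀ r, MeasurableSet (P r) := by
    intro r
    have h1 : MeasurableSet {u | nb u = r} := by
      have : {u | nb u = r}.OrdConnected := by
        refine ⟨fun u hu v hv w hw => ?_⟩
        have h1 := hnb_mono _ _ hw.1
        have h2 := hnb_mono _ _ hw.2
        have h3 : nb u = r := hu
        have h4 : nb v = r := hv
        show nb w = r
        omega
      exact this.measurableSet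
    exact hScm.inter h1
  have hcont : ContinuousOn φ Sᶜ := fun u hu => (hd u hu).continuousAt.continuousWithinAt
  have hPC : ∀ r, MeasurableSet (P r ∩ φ ⁻¹' C) := by
    intro r
    have hc : ContinuousOn φ (P r) := hcont.mono fun u hu => hu.1
    have h1 : Measurable ((P r).domRestrict φ) := (continuousOn_iff_continuous_domRestrict.1 hc).measurable
    have h2 : P r ∩ φ ⁻¹' C = Subtype.val '' ((P r).domRestrict φ ⁻¹' C) := by
      ext u
      constructor
      · intro h
        exact ⟨⟨u, h.1⟩, h.2, rfl⟩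
      · rintro ⟨⟨v, hv⟩, hv2, rfl⟩
        exact ⟨hv, hv2⟩
    rw [h2]
    exact (MeasurableEmbedding.subtype_coe (hPm r)).measurableSet_image.2 (h1 hC)
  have hUn : Sᶜ ∩ φ ⁻¹' C = ⋃ r ∈ Finset.range (Sf.card + 1), (P r ∩ φ ⁻¹' C) := by
    ext u
    simp only [mem_inter_iff, mem_iUnion, Finset.mem_range, exists_prop]
    constructor
    · intro h
      exact ⟨nb u, Nat.lt_succ_of_le (Finset.card_filter_le _ _), ⟨h.1, rfl⟩, h.2⟩
    · rintro ⟨r, -, h1, h2⟩
      exact ⟨h1.1, h2⟩
  have hdj : ((Finset.range (Sf.card + 1) : Finset ℕ) : Set ℕ).PairwiseDisjoint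
      fun r => P r ∩ φ ⁻¹' C := by
    intro i _ j _ hij
    rw [Function.onFun, Set.disjoint_left]
    intro u hu hv
    exact hij (hu.1.2.symm.trans hv.1.2)
  rw [hUn, lintegral_biUnion_finset hdj fun r _ => hPC r]
  have hpiece : ∀ r, ∫⁻ u in P r ∩ φ ⁻¹' C, ENNReal.ofReal |φ' u| =
      volume (φ '' (P r ∩ φ ⁻¹' C)) := by
    intro r
    have h := lintegral_image_eq_lintegral_abs_deriv_mul (hPC r) (fun u hu =>
      (hd u hu.1.1).hasDerivWithinAt) ((hinj r).mono inter_subset_left) (fun _ => 1)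
    simp only [mul_one, setLIntegral_one] at h
    exact h.symm
  have hIm : ∀ r, MeasurableSet (φ '' (P r ∩ φ ⁻¹' C)) := fun r =>
    (hPC r).image_of_continuousOn_injOn (hcont.mono fun u hu => hu.1.1)
      ((hinj r).mono inter_subset_left)
  have hImC : ∀ r, φ '' (P r ∩ φ ⁻¹' C) ⊆ C := by
    rintro r _ ⟨u, hu, rfl⟩
    exact hu.2
  have hvol : ∀ r, volume (φ '' (P r ∩ φ ⁻¹' C)) =
      ∫⁻ y in C, (φ '' (P r ∩ φ ⁻¹' C)).indicator 1 y := by
    intro r
    rw [setLIntegral_indicator (hIm r), inter_eq_left.2 (hImC r)]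
    simp
  calc ∑ r ∈ Finset.range (Sf.card + 1), ∫⁻ u in P r ∩ φ ⁻¹' C, ENNReal.ofReal |φ' u|
      = ∑ r ∈ Finset.range (Sf.card + 1), ∫⁻ y in C, (φ '' (P r ∩ φ ⁻¹' C)).indicator 1 y :=
        Finset.sum_congr rfl fun r _ => (hpiece r).trans (hvol r)
    _ = ∫⁻ y in C, ∑ r ∈ Finset.range (Sf.card + 1),
          (φ '' (P r ∩ φ ⁻¹' C)).indicator (1 : ℝ → ℝ≥0∞) y :=
        (lintegral_finsetSum _ fun r _ => measurable_one.indicator (hIm r)).symm
    _ ≤ ∫⁻ _y in C, (m : ℝ≥0∞) := by
        refine lintegral_mono fun y => ?_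
        have h1 : ∑ r ∈ Finset.range (Sf.card + 1),
            (φ '' (P r ∩ φ ⁻¹' C)).indicator (1 : ℝ → ℝ≥0∞) y =
            (((Finset.range (Sf.card + 1)).filter fun r => y ∈ φ '' (P r ∩ φ ⁻¹' C)).card :
              ℝ≥0∞) := by
          simp only [indicator_apply, Pi.one_apply]
          rw [Finset.sum_ite]
          simp
        rw [h1]
        have h2 : ((((Finset.range (Sf.card + 1)).filter
            fun r => y ∈ φ '' (P r ∩ φ ⁻¹' C)).card : ℕ) : ℕ∞) ≤ m := by
          refine le_trans ?_ (hm y)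
          have hch : ∀ r ∈ (Finset.range (Sf.card + 1)).filter
              fun r => y ∈ φ '' (P r ∩ φ ⁻¹' C), ∃ u, u ∈ P r ∧ φ u = y := by
            intro r hr
            obtain ⟨u, hu, huy⟩ := (Finset.mem_filter.1 hr).2
            exact ⟨u, hu.1, huy⟩
          choose! w hw1 hw2 using hch
          rw [← Set.encard_coe_eq_coe_finsetCard]
          refine Set.encard_le_encard_of_injOn (f := w) ?_ ?_
          · intro r hr
            exact ⟨(hw1 r hr).1, hw2 r hr⟩
          · intro r hr r' hr' h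
            rw [← (hw1 r hr).2, ← (hw1 r' hr').2, h]
        have h3 := Nat.cast_le.1 h2
        exact Nat.cast_le.2 h3
    _ = m * volume C := by simp

end Pool.Agent.Lib.MP_c11b14_lc.Sm
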