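import Pool.Agent.Lib.MP_c11b14_lc.Sm.Det

/-!
# The roots which are not visible
-/

set_option autoImplicit false

namespace Pool.Agent.Lib.MP_c11b14_lc.Sm

open Set Polynomial

/-- A simple root between two points, the only root there, gives a sign change. -/
theorem sign_change {p : ℝ[X]} {r x y : ℝ} (hx : x < r) (hy : r < y) (hr : p.eval r = 0)
    (hr' : (derivative p).eval r ≠ 0) (hunique : ∀ z ∈ Icc x y, p.eval z = 0 → z = r) :
    p.eval x * p.eval y < 0 := by
  obtain ⟨q, hq⟩ := dvd_iff_isRoot.2 hr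
  have hqr : q.eval r ≠ 0 := by
    intro h
    apply hr'
    rw [hq]
    simp [h]
  have hq0 : ∀ z ∈ Icc x y, q.eval z ≠ 0 := by
    intro z hz h
    have h1 := hunique z hz (by rw [hq, eval_mul, h, mul_zero])
    rw [h1] at h
    exact hqr h
  have hsame : 0 < q.eval x * q.eval y := by
    by_contra hcon
    rw [not_lt] at hcon
    have hx0 := hq0 x ⟨le_rfl, (hx.trans hy).le⟩
    have hy0 := hq0 y ⟨(hx.trans hy).le, le_rfl⟩
    have hlt : q.eval x * q.eval y < 0 := lt_of_le_of_ne hcon (mul_ne_zero hx0 hy0)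
    have hc : ContinuousOn (fun z => q.eval z) (Icc x y) := q.continuous.continuousOn
    rcases mul_neg_iff.1 hlt with ⟨ha, hb⟩ | ⟨ha, hb⟩
    · obtain ⟨z, hz, hz0⟩ := intermediate_value_Icc' (hx.trans hy).le hc ⟨hb.le, ha.le⟩
      exact hq0 z hz hz0
    · obtain ⟨z, hz, hz0⟩ := intermediate_value_Icc (hx.trans hy).le hc ⟨ha.le, hb.le⟩
      exact hq0 z hz hz0
  rw [hq]
  simp only [eval_mul, eval_sub, eval_X, eval_C]
  have h1 : (x - r) * q.eval x * ((y - r) * q.eval y) =
      -((r - x) * (y - r) * (q.eval x * q.eval y)) := by ring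
  rw [h1, neg_lt_zero]
  exact mul_pos (mul_pos (by linarith) (by linarith)) hsame

/-- The number of sign changes is at most the number of roots. -/
theorem changes_le_numRoots {p : ℝ[X]} {M : ℕ} {x : ℕ → ℝ} (hx : ∀ k < M, x k < x (k + 1))
    {A : Finset ℕ} (hA : ∀ k ∈ A, k < M ∧ p.eval (x k) * p.eval (x (k + 1)) < 0) :
    A.card ≤ numRoots p := by
  classical
  rcases A.eq_empty_or_nonempty with h0 | ⟨k₀, hk₀⟩
  · rw [h0]
    simp
  have hp0 : p ≠ 0 := by
    rintro rfl
    have := (hA k₀ hk₀).2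
    simp at this
  have hroot : ∀ k ∈ A, ∃ r ∈ Ioo (x k) (x (k + 1)), p.eval r = 0 := by
    intro k hk
    have h1 := (hA k hk).2
    have h2 := hx k (hA k hk).1
    have hc : ContinuousOn (fun y => p.eval y) (Icc (x k) (x (k + 1))) :=
      p.continuous.continuousOn
    rcases mul_neg_iff.1 h1 with ⟨ha, hb⟩ | ⟨ha, hb⟩
    · exact intermediate_value_Ioo' h2.le hc ⟨hb, ha⟩
    · exact intermediate_value_Ioo h2.le hc ⟨ha, hb⟩
  choose! r hr hr0 using hroot
  have hmono : ∀ k l, k ≤ l → l < M → x k ≤ x l := by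
    intro k l hkl
    induction l, hkl using Nat.le_induction with
    | base => exact fun _ => le_rfl
    | succ l _ ih => exact fun h => (ih (by omega)).trans (hx l (by omega)).le
  have hlt : ∀ k ∈ A, ∀ l ∈ A, k < l → r k < r l := by
    intro k hk l hl hkl
    exact ((hr k hk).2.trans_le (hmono (k + 1) l hkl (hA l hl).1)).trans (hr l hl).1
  refine Finset.card_le_card_of_injOn r ?_ ?_
  · intro k hk
    rw [Finset.mem_coe, Multiset.mem_toFinset, mem_roots hp0]
    exact hr0 k hk
  · intro k hk l hl hkl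
    rcases lt_trichotomy k l with h | h | h
    · exact absurd hkl (hlt k hk l hl h).ne
    · exact h
    · exact absurd hkl (hlt l hl k hk h).ne'

theorem same_sign {A B ε : ℝ} (h : |A - B| ≤ ε) (h2 : ε < |B|) : 0 < A * B := by
  have h1 := h.trans_lt h2
  rcases lt_trichotomy B 0 with h | h | h
  · rw [abs_of_neg h, abs_lt] at h1
    exact mul_pos_of_neg_of_neg (by linarith [h1.2]) h
  · rw [h, abs_zero] at h1
    exact absurd h1 (not_lt.2 (abs_nonneg _))
  · rw [abs_of_pos h, abs_lt] at h1
    exact mul_pos (by linarith [h1.1]) h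

/-- The number of sign changes between visible points. -/
theorem visible_changes (f g : ℝ[X]) {ρ : ℝ} (hρ : 0 < ρ) (hρ1 : ρ ≤ 1) {M : ℕ} {x : ℕ → ℝ}
    (hx : ∀ k < M, x k < x (k + 1)) {A : Finset ℕ}
    (hA : ∀ k ∈ A, k < M ∧ (f * g + 1).eval (x k) * (f * g + 1).eval (x (k + 1)) < 0 ∧
      3 * ρ * absVal f (x k) * absVal g (x k) < |(f * g + 1).eval (x k)| ∧
      3 * ρ * absVal f (x (k + 1)) * absVal g (x (k + 1)) < |(f * g + 1).eval (x (k + 1))|) :
    (A.card : ℝ) ≤ bnd (f.support.card + g.support.card) ρ := by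
  obtain ⟨F, G, hF, hG, hN⟩ := exists_pert f g hρ hρ1
  refine le_trans ?_ hN
  exact_mod_cast changes_le_numRoots (p := F * G + 1) hx (A := A) (by
    intro k hk
    obtain ⟨h1, h2, h3, h4⟩ := hA k hk
    refine ⟨h1, ?_⟩
    have h5 := same_sign (prod_sub_le hρ hρ1 hF hG (x k)) h3
    have h6 := same_sign (prod_sub_le hρ hρ1 hF hG (x (k + 1))) h4
    set a := (F * G + 1).eval (x k)
    set b := (f * g + 1).eval (x k)
    set a' := (F * G + 1).eval (x (k + 1))
    set b' := (f * g + 1).eval (x (k + 1))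
    by_contra hcon
    rw [not_lt] at hcon
    have h7 : 0 < (a * b) * (a' * b') := mul_pos h5 h6
    have h8 : (a * b) * (a' * b') = (a * a') * (b * b') := by ring
    rw [h8] at h7
    nlinarith)

open Classical in
/-- The real zeros `x` of `(f g)'` with `|f(x) g(x) + 1| ≤ 3 ρ |f|(x) |g|(x)`. -/
noncomputable def degCrit (f g : ℝ[X]) (ρ : ℝ) : Finset ℝ :=
  (derivative (f * g)).roots.toFinset.filter fun x =>
    |(f * g + 1).eval x| ≤ 3 * ρ * absVal f x * absVal g x

theorem numRoots_le_crit (f g : ℝ[X]) {ρ : ℝ} (hρ : 0 < ρ) (hρ1 : ρ ≤ 1) :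
    (numRoots (f * g + 1) : ℝ) ≤ bnd (f.support.card + g.support.card) ρ + 2 +
      2 * (degCrit f g ρ).card := by
  classical
  have hb := bnd_nonneg (f.support.card + g.support.card) hρ hρ1
  have hI : (0 : ℝ) ≤ (degCrit f g ρ).card := Nat.cast_nonneg _
  set p := f * g + 1 with hp
  have hder : derivative p = derivative (f * g) := by
    rw [hp, derivative_add, derivative_one, add_zero]
  by_cases hd0 : derivative p = 0
  · have h1 : p.natDegree = 0 := derivative_eq_zero.1 hd0
    have h2 : numRoots p = 0 := by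
      unfold numRoots
      rw [eq_C_of_natDegree_eq_zero h1, roots_C]
      simp
    rw [h2]
    push_cast
    linarith
  have hp0 : p ≠ 0 := by
    rintro h
    apply hd0
    rw [h, derivative_zero]
  obtain ⟨Z, hZ⟩ : ∃ Z, Z = numRoots p := ⟨_, rfl⟩
  rw [← hZ]
  rcases Nat.lt_or_ge Z 2 with hZ2 | hZ2
  · have : (Z : ℝ) ≤ 2 := by exact_mod_cast hZ2.le
    linarith
  set s : Finset ℝ := p.roots.toFinset with hs
  have hmem : ∀ x, x ∈ s ↔ p.eval x = 0 := by
    intro x
    rw [hs, Multiset.mem_toFinset, mem_roots hp0]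
    rfl
  have hcard : s.card = Z := hZ.symm
  set e := s.orderEmbOfFin hcard with he
  have he0 : ∀ i, p.eval (e i) = 0 := fun i => (hmem _).1 (s.orderEmbOfFin_mem hcard i)
  have hex : ∀ x, p.eval x = 0 → ∃ i, e i = x := by
    intro x hx
    have h1 : x ∈ Set.range e := by
      rw [he, Finset.range_orderEmbOfFin]
      exact (hmem x).2 hx
    exact h1
  obtain ⟨r, hr⟩ : ∃ r : ℕ → ℝ, ∀ k (hk : k < Z), r k = e ⟨k, hk⟩ :=
    ⟨fun k => if hk : k < Z then e ⟨k, hk⟩ else 0, fun k hk => by simp [hk]⟩
  have hrlt : ∀ k l, k < l → l < Z → r k < r l := by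
    intro k l hkl hl
    rw [hr k (hkl.trans hl), hr l hl]
    exact e.strictMono hkl
  have hr0 : ∀ k < Z, p.eval (r k) = 0 := by
    intro k hk
    rw [hr k hk]
    exact he0 _
  have hrex : ∀ x, p.eval x = 0 → ∃ k < Z, r k = x := by
    intro x hx
    obtain ⟨i, hi⟩ := hex x hx
    exact ⟨i, i.2, by rw [hr i i.2]; exact hi⟩
  have hroll : ∀ k, k + 1 < Z → ∃ x ∈ Ioo (r k) (r (k + 1)), (derivative p).eval x = 0 := by
    intro k hk
    obtain ⟨x, hx, hx0⟩ := exists_deriv_eq_zero (f := fun y => p.eval y)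
      (hrlt k (k + 1) (by omega) hk) p.continuous.continuousOn
      (by rw [hr0 k (by omega), hr0 (k + 1) hk])
    refine ⟨x, hx, ?_⟩
    rwa [Polynomial.deriv] at hx0
  choose! x hx hx0 using hroll
  have hxlt : ∀ k < Z - 2, x k < x (k + 1) := by
    intro k hk
    exact ((hx k (by omega)).2).trans (hx (k + 1) (by omega)).1
  have hbetween : ∀ k, k + 1 < Z → p.eval (x k) ≠ 0 := by
    intro k hk h0
    obtain ⟨l, hl, hlk⟩ := hrex _ h0
    have h1 := hx k hk
    rw [← hlk] at h1
    rcases Nat.lt_or_ge k l with h2 | h2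
    · rcases Nat.lt_or_ge (k + 1) l with h3 | h3
      · exact absurd h1.2 (not_lt.2 (hrlt _ _ h3 hl).le)
      · have h4 : l = k + 1 := by omega
        rw [h4] at h1
        exact lt_irrefl _ h1.2
    · rcases Nat.lt_or_ge l k with h3 | h3
      · exact absurd h1.1 (not_lt.2 (hrlt _ _ h3 (by omega)).le)
      · have h4 : l = k := by omega
        rw [h4] at h1
        exact lt_irrefl _ h1.1
  -- the invisible points
  set inv : ℝ → Prop := fun y => |p.eval y| ≤ 3 * ρ * absVal f y * absVal g y with hinv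
  set I1 : Finset ℕ := (Finset.range (Z - 1)).filter fun k => inv (x k) with hI1
  set I2 : Finset ℕ := (Finset.range Z).filter fun k => (derivative p).eval (r k) = 0 with hI2
  have hx_inj : Set.InjOn x I1 := by
    have hmono : ∀ k l, k < l → l + 1 < Z → x k < x l := by
      intro k l hkl hl
      have h1 := (hx k (by omega)).2
      have h2 := (hx l hl).1
      have h3 : r (k + 1) ≤ r l := by
        rcases Nat.lt_or_ge (k + 1) l with h4 | h4
        · exact (hrlt _ _ h4 (by omega)).le
        · have h5 : k + 1 = l := by omega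
          rw [h5]
      linarith
    intro k hk l hl hkl
    have hk' : k < Z - 1 := Finset.mem_range.1 (Finset.mem_filter.1 hk).1
    have hl' : l < Z - 1 := Finset.mem_range.1 (Finset.mem_filter.1 hl).1
    rcases lt_trichotomy k l with h | h | h
    · exact absurd hkl (hmono k l h (by omega)).ne
    · exact h
    · exact absurd hkl (hmono l k h (by omega)).ne'
  have hr_inj : Set.InjOn r I2 := by
    intro k hk l hl hkl
    have hk' : k < Z := Finset.mem_range.1 (Finset.mem_filter.1 hk).1
    have hl' : l < Z := Finset.mem_range.1 (Finset.mem_filter.1 hl).1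
    rcases lt_trichotomy k l with h | h | h
    · exact absurd hkl (hrlt k l h hl').ne
    · exact h
    · exact absurd hkl (hrlt l k h hk').ne'
  have hcrit : I1.card + I2.card ≤ (degCrit f g ρ).card := by
    rw [← Finset.card_image_of_injOn hx_inj, ← Finset.card_image_of_injOn hr_inj,
      ← Finset.card_union_of_disjoint]
    · refine Finset.card_le_card fun y hy => ?_
      unfold degCrit
      rw [Finset.mem_filter, Multiset.mem_toFinset, ← hder, mem_roots hd0]
      rcases Finset.mem_union.1 hy with h | h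
      · obtain ⟨k, hk, rfl⟩ := Finset.mem_image.1 h
        rw [hI1, Finset.mem_filter, Finset.mem_range] at hk
        exact ⟨hx0 k (by omega), hk.2⟩
      · obtain ⟨k, hk, rfl⟩ := Finset.mem_image.1 h
        rw [hI2, Finset.mem_filter, Finset.mem_range] at hk
        refine ⟨hk.2, ?_⟩
        rw [hr0 k hk.1, abs_zero]
        have h2 := absVal_nonneg f (r k)
        have h3 := absVal_nonneg g (r k)
        positivity
    · rw [Finset.disjoint_left]
      intro y hy1 hy2
      obtain ⟨k, hk, rfl⟩ := Finset.mem_image.1 hy1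
      obtain ⟨l, hl, hlk⟩ := Finset.mem_image.1 hy2
      rw [hI1, Finset.mem_filter, Finset.mem_range] at hk
      rw [hI2, Finset.mem_filter, Finset.mem_range] at hl
      apply hbetween k (by omega)
      rw [← hlk]
      exact hr0 l hl.1
  -- the good indices
  set A : Finset ℕ := (Finset.range (Z - 2)).filter fun k =>
    ¬ inv (x k) ∧ ¬ inv (x (k + 1)) ∧ (derivative p).eval (r (k + 1)) ≠ 0 with hA
  have hAcard : (A.card : ℝ) ≤ bnd (f.support.card + g.support.card) ρ := by
    refine visible_changes f g hρ hρ1 hxlt (A := A) fun k hk => ?_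
    rw [hA, Finset.mem_filter, Finset.mem_range] at hk
    obtain ⟨hk1, hk2, hk3, hk4⟩ := hk
    refine ⟨hk1, ?_, not_le.1 hk2, not_le.1 hk3⟩
    have h1 := (hx k (by omega)).2
    have h2 := (hx (k + 1) (by omega)).1
    refine sign_change h1 h2 (hr0 _ (by omega)) hk4 ?_
    intro z hz hz0
    obtain ⟨l, hl, rfl⟩ := hrex z hz0
    rcases lt_trichotomy l (k + 1) with h4 | h4 | h4
    · exfalso
      have h5 : r l ≤ r k := by
        rcases Nat.lt_succ_iff_lt_or_eq.1 h4 with h6 | h6
        · exact (hrlt l k h6 (by omega)).le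
        · rw [h6]
      have h7 := (hx k (by omega)).1
      linarith [hz.1]
    · rw [h4]
    · exfalso
      have h5 : r (k + 1 + 1) ≤ r l := by
        rcases Nat.lt_or_ge (k + 1 + 1) l with h6 | h6
        · exact (hrlt _ _ h6 hl).le
        · have h7 : l = k + 1 + 1 := by omega
          rw [h7]
      have h7 := (hx (k + 1) (by omega)).2
      linarith [hz.2]
  have hcover : Finset.range (Z - 2) ⊆ A ∪ (I1 ∪ (I1.preimage Nat.succ
      (Nat.succ_injective.injOn) ∪ I2.preimage Nat.succ (Nat.succ_injective.injOn))) := by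
    intro k hk
    rw [Finset.mem_range] at hk
    simp only [Finset.mem_union, Finset.mem_preimage, Nat.succ_eq_add_one, hA, hI1, hI2,
      Finset.mem_filter, Finset.mem_range]
    by_cases h1 : inv (x k)
    · exact Or.inr (Or.inl ⟨by omega, h1⟩)
    by_cases h2 : inv (x (k + 1))
    · exact Or.inr (Or.inr (Or.inl ⟨by omega, h2⟩))
    by_cases h3 : (derivative p).eval (r (k + 1)) = 0
    · exact Or.inr (Or.inr (Or.inr ⟨by omega, h3⟩))
    exact Or.inl ⟨hk, h1, h2, h3⟩
  have hpre : ∀ J : Finset ℕ, (J.preimage Nat.succ (Nat.succ_injective.injOn)).card ≤ J.card := by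
    intro J
    refine Finset.card_le_card_of_injOn Nat.succ ?_ Nat.succ_injective.injOn
    intro k hk
    exact Finset.mem_preimage.1 hk
  have hcount : Z - 2 ≤ A.card + (I1.card + (I1.card + I2.card)) := by
    have h1 := Finset.card_le_card hcover
    rw [Finset.card_range] at h1
    refine h1.trans ((Finset.card_union_le _ _).trans ?_)
    refine Nat.add_le_add_left ((Finset.card_union_le _ _).trans ?_) _
    refine Nat.add_le_add_left ((Finset.card_union_le _ _).trans ?_) _
    exact Nat.add_le_add (hpre I1) (hpre I2)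
  have h1 : Z ≤ A.card + 2 + 2 * (degCrit f g ρ).card := by omega
  have h2 : (Z : ℝ) ≤ A.card + 2 + 2 * (degCrit f g ρ).card := by exact_mod_cast h1
  linarith

theorem numRoots_le_ncard (f g : ℝ[X]) {ρ : ℝ} (hρ : 0 < ρ) (hρ1 : ρ ≤ 1) :
    (numRoots (f * g + 1) : ℝ) ≤ bnd (f.support.card + g.support.card) ρ + 2 +
      2 * ({x : ℝ | (derivative (f * g)).eval x = 0 ∧
        |(f * g + 1).eval x| ≤ 3 * ρ * absVal f x * absVal g x}.ncard : ℝ) := by
  by_cases hd0 : derivative (f * g) = 0
  · have hb := bnd_nonneg (f.support.card + g.support.card) hρ hρ1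
    have h1 : (f * g + 1).natDegree = 0 := derivative_eq_zero.1 (by
      rw [derivative_add, derivative_one, add_zero, hd0])
    have h2 : numRoots (f * g + 1) = 0 := by
      unfold numRoots
      rw [eq_C_of_natDegree_eq_zero h1, roots_C]
      simp
    rw [h2]
    push_cast
    positivity
  · have h1 : {x : ℝ | (derivative (f * g)).eval x = 0 ∧
        |(f * g + 1).eval x| ≤ 3 * ρ * absVal f x * absVal g x} = degCrit f g ρ := by
      ext x
      unfold degCrit
      rw [Finset.mem_coe, Finset.mem_filter, Multiset.mem_toFinset, mem_roots hd0]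
      rfl
    rw [h1, Set.ncard_coe_finset]
    exact numRoots_le_crit f g hρ hρ1

end Pool.Agent.Lib.MP_c11b14_lc.Sm
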