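import Mathlib

/-!
# The pointwise inequality
-/

set_option autoImplicit false

namespace Pool.Agent.Lib.MP_c11b14_lc.Sm

open MeasureTheory Set
open scoped ENNReal

variable {ι κ : Type} [Fintype ι] [Fintype κ]

/-- The value of the sparse polynomial at `exp u`. -/
noncomputable def ev (a α ξ : ι → ℝ) (u : ℝ) : ℝ := ∑ k, ξ k * Real.exp (a k * u + α k)

/-- Its derivative. -/
noncomputable def dv (a α ξ : ι → ℝ) (u : ℝ) : ℝ :=
  ∑ k, ξ k * (a k * Real.exp (a k * u + α k))

theorem hasDerivAt_ev (a α ξ : ι → ℝ) (u : ℝ) : HasDerivAt (ev a α ξ) (dv a α ξ u) u := by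
  unfold ev dv
  refine HasDerivAt.fun_sum fun k _ => HasDerivAt.const_mul _ ?_
  have h1 : HasDerivAt (fun u => a k * u + α k) (a k) u := by
    simpa using ((hasDerivAt_id u).const_mul (a k)).add_const (α k)
  have h2 := h1.exp
  rwa [mul_comm] at h2

/-- The variation. -/
noncomputable def vr (a α : ι → ℝ) (i : ι) (u : ℝ) : ℝ :=
  ∑ k, |a k - a i| * Real.exp (-((a i - a k) * u + (α i - α k)))

theorem vr_nonneg (a α : ι → ℝ) (i : ι) (u : ℝ) : 0 ≤ vr a α i u :=
  Finset.sum_nonneg fun _ _ => mul_nonneg (abs_nonneg _) (Real.exp_pos _).le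

theorem abs_ev_le {a α ξ : ι → ℝ} {u : ℝ} {i : ι} (hi : ∀ k, a k * u + α k ≤ a i * u + α i)
    (hξ : ∀ k, |ξ k| ≤ 1) :
    |ev a α ξ u| ≤ Fintype.card ι * Real.exp (a i * u + α i) := by
  unfold ev
  refine (Finset.abs_sum_le_sum_abs _ _).trans ?_
  calc ∑ k, |ξ k * Real.exp (a k * u + α k)| ≤ ∑ _k : ι, Real.exp (a i * u + α i) := by
        refine Finset.sum_le_sum fun k _ => ?_
        rw [abs_mul, Real.abs_exp]
        calc |ξ k| * Real.exp (a k * u + α k) ≤ 1 * Real.exp (a i * u + α i) :=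
              mul_le_mul (hξ k) (Real.exp_le_exp.2 (hi k)) (Real.exp_pos _).le zero_le_one
          _ = _ := one_mul _
    _ = Fintype.card ι * Real.exp (a i * u + α i) := by simp

theorem abs_dv_sub_le {a α ξ : ι → ℝ} {u : ℝ} {i : ι} (hξ : ∀ k, |ξ k| ≤ 1) :
    |dv a α ξ u - a i * ev a α ξ u| ≤ vr a α i u * Real.exp (a i * u + α i) := by
  have h1 : dv a α ξ u - a i * ev a α ξ u =
      ∑ k, ξ k * ((a k - a i) * Real.exp (a k * u + α k)) := by
    unfold dv ev
    rw [Finset.mul_sum, ← Finset.sum_sub_distrib]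
    exact Finset.sum_congr rfl fun k _ => by ring
  rw [h1]
  refine (Finset.abs_sum_le_sum_abs _ _).trans ?_
  unfold vr
  rw [Finset.sum_mul]
  refine Finset.sum_le_sum fun k _ => ?_
  rw [abs_mul, abs_mul, Real.abs_exp, mul_assoc, ← Real.exp_add]
  have h2 : -((a i - a k) * u + (α i - α k)) + (a i * u + α i) = a k * u + α k := by ring
  rw [h2]
  calc |ξ k| * (|a k - a i| * Real.exp (a k * u + α k))
      ≤ 1 * (|a k - a i| * Real.exp (a k * u + α k)) :=
        mul_le_mul_of_nonneg_right (hξ k) (by positivity)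
    _ = _ := one_mul _

theorem pointwise {a α ξ : ι → ℝ} {b β η : κ → ℝ} (ha : ∀ k, 0 ≤ a k) (hb : ∀ k, 0 ≤ b k)
    {u : ℝ} {i : ι} {j : κ} (hi : ∀ k, a k * u + α k ≤ a i * u + α i)
    (hj : ∀ k, b k * u + β k ≤ b j * u + β j) (hξ : ∀ k, |ξ k| ≤ 1) (hη : ∀ k, |η k| ≤ 1)
    {ε : ℝ} (hε : ε ≤ 1 / 2) (hF : |ev a α ξ u * ev b β η u + 1| < ε) :
    |dv a α ξ u * ev b β η u + ev a α ξ u * dv b β η u| ≤
      (vr a α i u + 3 / (2 * √2) * (a i + b j) *
        Real.exp (-((a i + b j) * u + (α i + β j)) / 2)) *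
        |Real.exp (a i * u + α i) * ev b β η u| +
      (vr b β j u + 3 / (2 * √2) * (a i + b j) *
        Real.exp (-((a i + b j) * u + (α i + β j)) / 2)) *
        |Real.exp (b j * u + β j) * ev a α ξ u| ∧
    -Real.log (2 * Fintype.card ι * Fintype.card κ) ≤ (a i + b j) * u + (α i + β j) := by
  set E := ev a α ξ u with hE
  set G := ev b β η u with hG
  set h := (a i + b j) * u + (α i + β j) with hh
  have hsum : a i * u + α i + (b j * u + β j) = h := by rw [hh]; ring
  have hlow : 1 / 2 ≤ |E * G| := by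
    have h1 : |E * G + 1| < 1 / 2 := lt_of_lt_of_le hF hε
    rw [abs_lt] at h1
    rw [abs_of_neg (by linarith [h1.2])]
    linarith [h1.2]
  have hup : |E * G| ≤ 3 / 2 := by
    have h1 : |E * G + 1| < 1 / 2 := lt_of_lt_of_le hF hε
    rw [abs_lt] at h1
    rw [abs_le]
    constructor <;> linarith [h1.1, h1.2]
  have habsA : |Real.exp (a i * u + α i) * G| = Real.exp (a i * u + α i) * |G| := by
    rw [abs_mul, Real.abs_exp]
  have habsB : |Real.exp (b j * u + β j) * E| = Real.exp (b j * u + β j) * |E| := by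
    rw [abs_mul, Real.abs_exp]
  rw [habsA, habsB]
  set A := Real.exp (a i * u + α i) * |G| with hA
  set B := Real.exp (b j * u + β j) * |E| with hB
  have hA0 : 0 ≤ A := by positivity
  have hB0 : 0 ≤ B := by positivity
  have hAB : Real.exp h / 2 ≤ A * B := by
    have h1 : A * B = Real.exp h * |E * G| := by
      rw [hA, hB, ← hsum, Real.exp_add (a i * u + α i) (b j * u + β j), abs_mul]
      ring
    rw [h1]
    nlinarith [Real.exp_pos h]
  -- `1 ≤ (A + B) exp (-h/2) / √2`
  have hkey : 1 ≤ Real.exp (-h / 2) / √2 * (A + B) := by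
    have h2 : (0 : ℝ) < √2 := by positivity
    have h3 : √2 ^ 2 = 2 := Real.sq_sqrt (by norm_num)
    have h4 : 2 * Real.exp h ≤ (A + B) ^ 2 := by nlinarith [sq_nonneg (A - B)]
    have h5 : √2 * Real.exp (h / 2) ≤ A + B := by
      refine le_of_sq_le_sq ?_ (by positivity)
      rw [mul_pow, h3, ← Real.exp_nat_mul]
      have h6 : ((2 : ℕ) : ℝ) * (h / 2) = h := by push_cast; ring
      rw [h6]
      exact h4
    have h7 : Real.exp (-h / 2) / √2 * (√2 * Real.exp (h / 2)) = 1 := by
      have h8 : Real.exp (-h / 2) * Real.exp (h / 2) = 1 := by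
        rw [← Real.exp_add]
        ring_nf
        exact Real.exp_zero
      have h9 : Real.exp (-h / 2) / √2 * (√2 * Real.exp (h / 2)) =
          Real.exp (-h / 2) * Real.exp (h / 2) * (√2 / √2) := by ring
      rw [h9, h8, div_self h2.ne', one_mul]
    rw [← h7]
    exact mul_le_mul_of_nonneg_left h5 (by positivity)
  have hab : 0 ≤ a i + b j := add_nonneg (ha i) (hb j)
  refine ⟨?_, ?_⟩
  · have h1 : dv a α ξ u * G + E * dv b β η u =
        (dv a α ξ u - a i * E) * G + E * (dv b β η u - b j * G) + (a i + b j) * (E * G) := by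
      ring
    rw [h1]
    refine (abs_add_le _ _).trans ?_
    refine (add_le_add_left (abs_add_le _ _) _).trans ?_
    rw [abs_mul, abs_mul, abs_mul, abs_of_nonneg hab]
    have h2 : |dv a α ξ u - a i * E| * |G| ≤ vr a α i u * A := by
      rw [hA, ← mul_assoc]
      exact mul_le_mul_of_nonneg_right (abs_dv_sub_le hξ) (abs_nonneg _)
    have h3 : |E| * |dv b β η u - b j * G| ≤ vr b β j u * B := by
      rw [hB, mul_comm, ← mul_assoc]
      exact mul_le_mul_of_nonneg_right (abs_dv_sub_le hη) (abs_nonneg _)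
    have h4 : (a i + b j) * |E * G| ≤
        3 / (2 * √2) * (a i + b j) * Real.exp (-h / 2) * (A + B) := by
      calc (a i + b j) * |E * G| ≤ (a i + b j) * (3 / 2) := mul_le_mul_of_nonneg_left hup hab
        _ = (a i + b j) * (3 / 2) * 1 := (mul_one _).symm
        _ ≤ (a i + b j) * (3 / 2) * (Real.exp (-h / 2) / √2 * (A + B)) :=
            mul_le_mul_of_nonneg_left hkey (by positivity)
        _ = _ := by
            have : (0 : ℝ) < √2 := by positivity
            field_simp
    nlinarith [h2, h3, h4]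
  · have hs : 0 < (Fintype.card ι : ℝ) := by exact_mod_cast Fintype.card_pos_iff.2 ⟨i⟩
    have ht : 0 < (Fintype.card κ : ℝ) := by exact_mod_cast Fintype.card_pos_iff.2 ⟨j⟩
    have h1 : |E * G| ≤ Fintype.card ι * Fintype.card κ * Real.exp h := by
      rw [abs_mul, ← hsum, Real.exp_add (a i * u + α i) (b j * u + β j)]
      calc |E| * |G| ≤ (Fintype.card ι * Real.exp (a i * u + α i)) *
            (Fintype.card κ * Real.exp (b j * u + β j)) :=
            mul_le_mul (abs_ev_le hi hξ) (abs_ev_le hj hη) (abs_nonneg _) (by positivity)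
        _ = _ := by ring
    have h2 : 1 ≤ 2 * Fintype.card ι * Fintype.card κ * Real.exp h := by linarith
    rw [← Real.log_inv, Real.log_le_iff_le_exp (by positivity), inv_le_iff_one_le_mul₀ (by positivity)]
    linarith

end Pool.Agent.Lib.MP_c11b14_lc.Sm
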