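import Mathlib

/-!
# Integrals along the upper envelope of finitely many affine functions
-/

set_option autoImplicit false

namespace Pool.Agent.Lib.MP_c11b14_lc.Sm

open MeasureTheory Set
open scoped ENNReal

variable {I : Type} [Fintype I]

theorem piece_sum (p q : I → ℝ) (U : I → Set ℝ) (hU : ∀ i, MeasurableSet (U i)) (s : Finset I)
    (hp : ∀ i ∈ s, p i ≠ 0)
    (hd : (s : Set I).PairwiseDisjoint fun i => (fun u => p i * u + q i) '' U i)
    (φ : ℝ → ℝ≥0∞) :
    ∑ i ∈ s, ∫⁻ u in U i, ENNReal.ofReal |p i| * φ (p i * u + q i) ≤ ∫⁻ v, φ v := by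
  have hinj : ∀ i ∈ s, InjOn (fun u => p i * u + q i) (U i) := by
    intro i hi u _ v _ huv
    simp only [add_left_inj] at huv
    exact mul_left_cancel₀ (hp i hi) huv
  have hmeas : ∀ i ∈ s, MeasurableSet ((fun u => p i * u + q i) '' U i) := fun i hi =>
    (hU i).image_of_continuousOn_injOn (by fun_prop) (hinj i hi)
  have hpiece : ∀ i ∈ s, ∫⁻ u in U i, ENNReal.ofReal |p i| * φ (p i * u + q i) =
      ∫⁻ v in (fun u => p i * u + q i) '' U i, φ v := by
    intro i hi
    rw [lintegral_image_eq_lintegral_abs_deriv_mul (hU i) (f' := fun _ => p i)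
      (fun x _ => by
        have h1 : HasDerivAt (fun u => p i * u + q i) (p i) x := by
          have := ((hasDerivAt_id x).const_mul (p i)).add_const (q i)
          simpa using this
        exact h1.hasDerivWithinAt) (hinj i hi) φ]
  rw [Finset.sum_congr rfl hpiece, ← lintegral_biUnion_finset hd hmeas]
  exact setLIntegral_le_lintegral _ _

variable (p q : I → ℝ) (sel : ℝ → I) (hsel : ∀ i, MeasurableSet (sel ⁻¹' {i}))
  (hmax : ∀ u i, p i * u + q i ≤ p (sel u) * u + q (sel u))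
include hmax

theorem disj_pos (s : Set I) (hs : ∀ i ∈ s, 0 < p i) :
    s.PairwiseDisjoint fun i => (fun u => p i * u + q i) '' (sel ⁻¹' {i}) := by
  intro i hi j hj hij
  rw [Function.onFun, Set.disjoint_left]
  rintro _ ⟨u, hu, rfl⟩ ⟨v, hv, huv⟩
  simp only [mem_preimage, mem_singleton_iff] at hu hv
  simp only at huv
  have h1 := hmax u j
  have h2 := hmax v i
  rw [hu] at h1
  rw [hv] at h2
  have h3 := hs i hi
  have h4 := hs j hj
  rcases lt_trichotomy u v with h | h | h
  · nlinarith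
  · subst h
    exact hij (hu.symm.trans hv)
  · nlinarith

theorem disj_neg (s : Set I) (hs : ∀ i ∈ s, p i < 0) :
    s.PairwiseDisjoint fun i => (fun u => p i * u + q i) '' (sel ⁻¹' {i}) := by
  intro i hi j hj hij
  rw [Function.onFun, Set.disjoint_left]
  rintro _ ⟨u, hu, rfl⟩ ⟨v, hv, huv⟩
  simp only [mem_preimage, mem_singleton_iff] at hu hv
  simp only at huv
  have h1 := hmax u j
  have h2 := hmax v i
  rw [hu] at h1
  rw [hv] at h2
  have h3 := hs i hi
  have h4 := hs j hj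
  rcases lt_trichotomy u v with h | h | h
  · nlinarith
  · subst h
    exact hij (hu.symm.trans hv)
  · nlinarith

include hsel

omit hmax in
theorem lintegral_sel (ψ : I → ℝ → ℝ≥0∞) :
    ∫⁻ u, ψ (sel u) u = ∑ i, ∫⁻ u in sel ⁻¹' {i}, ψ i u := by
  have huniv : (⋃ i ∈ (Finset.univ : Finset I), sel ⁻¹' {i}) = univ := by
    ext u
    simp
  have hd : ((Finset.univ : Finset I) : Set I).PairwiseDisjoint fun i => sel ⁻¹' {i} := by
    intro i _ j _ hij
    rw [Function.onFun, Set.disjoint_left]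
    intro u hu hv
    exact hij ((mem_singleton_iff.1 hu).symm.trans (mem_singleton_iff.1 hv))
  rw [← setLIntegral_univ, ← huniv, lintegral_biUnion_finset hd fun i _ => hsel i]
  refine Finset.sum_congr rfl fun i _ => ?_
  refine setLIntegral_congr_fun (hsel i) fun u hu => ?_
  rw [mem_singleton_iff.1 hu]

/-- Along the upper envelope. -/
theorem sel_integral (φ : ℝ → ℝ≥0∞) :
    ∫⁻ u, ENNReal.ofReal |p (sel u)| * φ (p (sel u) * u + q (sel u)) ≤ 2 * ∫⁻ v, φ v := by
  classical
  rw [lintegral_sel sel hsel fun i u => ENNReal.ofReal |p i| * φ (p i * u + q i)]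
  rw [← Finset.sum_filter_add_sum_filter_not Finset.univ (fun i => 0 < p i), two_mul]
  refine add_le_add ?_ ?_
  · exact piece_sum p q _ hsel _ (fun i hi => (Finset.mem_filter.1 hi).2.ne')
      (disj_pos p q sel hmax _ fun i hi => (Finset.mem_filter.1 hi).2) φ
  · rw [← Finset.sum_filter_add_sum_filter_not (Finset.univ.filter fun i => ¬ 0 < p i)
      (fun i => p i < 0)]
    have h0 : ∑ i ∈ (Finset.univ.filter fun i => ¬ 0 < p i).filter (fun i => ¬ p i < 0),
        ∫⁻ u in sel ⁻¹' {i}, ENNReal.ofReal |p i| * φ (p i * u + q i) = 0 := by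
      refine Finset.sum_eq_zero fun i hi => ?_
      have h1 := (Finset.mem_filter.1 hi).2
      have h2 := (Finset.mem_filter.1 (Finset.mem_filter.1 hi).1).2
      have h3 : p i = 0 := le_antisymm (not_lt.1 h2) (not_lt.1 h1)
      simp [h3]
    rw [h0, add_zero]
    exact piece_sum p q _ hsel _ (fun i hi => (Finset.mem_filter.1 hi).2.ne)
      (disj_neg p q sel hmax _ fun i hi => (Finset.mem_filter.1 hi).2) φ

theorem sel_integral_nonneg (hp : ∀ i, 0 ≤ p i) (φ : ℝ → ℝ≥0∞) :
    ∫⁻ u, ENNReal.ofReal (p (sel u)) * φ (p (sel u) * u + q (sel u)) ≤ ∫⁻ v, φ v := by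
  classical
  rw [lintegral_sel sel hsel fun i u => ENNReal.ofReal (p i) * φ (p i * u + q i)]
  rw [← Finset.sum_filter_add_sum_filter_not Finset.univ (fun i => 0 < p i)]
  have h0 : ∑ i ∈ Finset.univ.filter (fun i => ¬ 0 < p i),
      ∫⁻ u in sel ⁻¹' {i}, ENNReal.ofReal (p i) * φ (p i * u + q i) = 0 := by
    refine Finset.sum_eq_zero fun i hi => ?_
    have h1 := (Finset.mem_filter.1 hi).2
    simp [ENNReal.ofReal_of_nonpos (not_lt.1 h1)]
  rw [h0, add_zero]
  refine le_trans (le_of_eq (Finset.sum_congr rfl fun i _ => ?_))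
    (piece_sum p q _ hsel _ (fun i hi => (Finset.mem_filter.1 hi).2.ne')
      (disj_pos p q sel hmax _ fun i hi => (Finset.mem_filter.1 hi).2) φ)
  rw [abs_of_nonneg (hp i)]

omit hmax hsel in
/-- The selection exists. -/
theorem exists_sel [Nonempty I] (p q : I → ℝ) : ∃ sel : ℝ → I,
    (∀ i, MeasurableSet (sel ⁻¹' {i})) ∧
    ∀ u i, p i * u + q i ≤ p (sel u) * u + q (sel u) := by
  classical
  let e : I ≃ Fin (Fintype.card I) := Fintype.equivFin I
  have hex : ∀ u : ℝ, ∃ n : ℕ, ∃ h : n < Fintype.card I,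
      ∀ i, p i * u + q i ≤ p (e.symm ⟨n, h⟩) * u + q (e.symm ⟨n, h⟩) := by
    intro u
    obtain ⟨i, -, hi⟩ := Finset.exists_max_image (Finset.univ : Finset I)
      (fun i => p i * u + q i) Finset.univ_nonempty
    refine ⟨(e i).1, (e i).2, fun j => ?_⟩
    have : e.symm ⟨(e i).1, (e i).2⟩ = i := e.symm_apply_apply i
    rw [this]
    exact hi j (Finset.mem_univ j)
  refine ⟨fun u => e.symm ⟨Nat.find (hex u), (Nat.find_spec (hex u)).1⟩, fun i => ?_,
    fun u i => (Nat.find_spec (hex u)).2 i⟩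
  have hP : ∀ n : ℕ, MeasurableSet {u : ℝ | ∃ h : n < Fintype.card I,
      ∀ i, p i * u + q i ≤ p (e.symm ⟨n, h⟩) * u + q (e.symm ⟨n, h⟩)} := by
    intro n
    by_cases hn : n < Fintype.card I
    · have : {u : ℝ | ∃ h : n < Fintype.card I,
          ∀ i, p i * u + q i ≤ p (e.symm ⟨n, h⟩) * u + q (e.symm ⟨n, h⟩)} =
          ⋂ i, {u : ℝ | p i * u + q i ≤ p (e.symm ⟨n, hn⟩) * u + q (e.symm ⟨n, hn⟩)} := by
        ext u
        simp only [Set.mem_ofPred_eq, mem_iInter]
        exact ⟨fun h => h.2, fun h => ⟨hn, h⟩⟩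
      rw [this]
      exact MeasurableSet.iInter fun i => measurableSet_le (by fun_prop) (by fun_prop)
    · have : {u : ℝ | ∃ h : n < Fintype.card I,
          ∀ i, p i * u + q i ≤ p (e.symm ⟨n, h⟩) * u + q (e.symm ⟨n, h⟩)} = ∅ := by
        ext u
        simp only [Set.mem_ofPred_eq, mem_empty_iff_false, iff_false]
        exact fun h => hn h.1
      rw [this]
      exact MeasurableSet.empty
  have heq : (fun u => e.symm ⟨Nat.find (hex u), (Nat.find_spec (hex u)).1⟩) ⁻¹' {i} =
      {u : ℝ | ∃ h : (e i).1 < Fintype.card I,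
        ∀ j, p j * u + q j ≤ p (e.symm ⟨(e i).1, h⟩) * u + q (e.symm ⟨(e i).1, h⟩)} \
      ⋃ m ∈ Finset.range (e i).1, {u : ℝ | ∃ h : m < Fintype.card I,
        ∀ j, p j * u + q j ≤ p (e.symm ⟨m, h⟩) * u + q (e.symm ⟨m, h⟩)} := by
    ext u
    simp only [mem_preimage, mem_singleton_iff, mem_diff, Set.mem_ofPred_eq, mem_iUnion,
      Finset.mem_range, exists_prop, not_exists, not_and]
    rw [Equiv.symm_apply_eq, Fin.ext_iff]
    show Nat.find (hex u) = (e i).1 ↔ _
    rw [Nat.find_eq_iff]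
    constructor
    · rintro ⟨h1, h2⟩
      refine ⟨h1, fun m hm hlt hcon => h2 m hm ⟨hlt, hcon⟩⟩
    · rintro ⟨h1, h2⟩
      exact ⟨h1, fun m hm ⟨hlt, hcon⟩ => h2 m hm hlt hcon⟩
  rw [heq]
  exact (hP _).diff (Finset.measurableSet_biUnion _ fun m _ => hP m)

end Pool.Agent.Lib.MP_c11b14_lc.Sm
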