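import Mathlib

/-!
# Counting zeros by an integral
-/

set_option autoImplicit false

namespace Pool.Agent.Lib.MP_c11b14_lc.Sm

open MeasureTheory Set
open scoped ENNReal

/-- The integrand. -/
noncomputable def kac (F F' : ℝ → ℝ) (ε : ℝ) (u : ℝ) : ℝ≥0∞ :=
  {u | |F u| < ε}.indicator (fun u => ENNReal.ofReal |F' u|) u

variable {F F' : ℝ → ℝ}

theorem seg (hF : ∀ u, HasDerivAt F (F' u) u) (hF' : Continuous F') {a b ε : ℝ} (hab : a ≤ b)
    (hlt : ∀ x ∈ Ioo a b, |F x| < ε) (hval : ε ≤ |F b - F a|) :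
    ENNReal.ofReal ε ≤ ∫⁻ u in Ioo a b, kac F F' ε u := by
  have h1 : ∫ u in a..b, F' u = F b - F a :=
    intervalIntegral.integral_eq_sub_of_hasDerivAt (fun x _ => hF x)
      (hF'.intervalIntegrable a b)
  have h2 : ENNReal.ofReal |F b - F a| ≤ ∫⁻ u in Ioo a b, ENNReal.ofReal |F' u| := by
    rw [← h1, intervalIntegral.integral_of_le hab, integral_Ioc_eq_integral_Ioo]
    have h3 := enorm_integral_le_lintegral_enorm (μ := volume.restrict (Ioo a b)) F'
    simpa only [Real.enorm_eq_ofReal_abs] using h3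
  refine (ENNReal.ofReal_le_ofReal hval).trans (h2.trans (le_of_eq ?_))
  refine setLIntegral_congr_fun measurableSet_Ioo fun u hu => ?_
  simp only [kac]
  rw [indicator_of_mem (show u ∈ {u | |F u| < ε} from hlt u hu)]

theorem side_right (hF : ∀ u, HasDerivAt F (F' u) u) (hF' : Continuous F') {z w ε : ℝ}
    (hzw : z < w) (hz : F z = 0) (hε : 0 < ε) (hw : ε ≤ |F w|) :
    ENNReal.ofReal ε ≤ ∫⁻ u in Ioo z w, kac F F' ε u := by
  have hFc : Continuous F := continuous_iff_continuousAt.2 fun x => (hF x).continuousAt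
  set S : Set ℝ := Icc z w ∩ {x | ε ≤ |F x|} with hS
  have hcl : IsClosed S := isClosed_Icc.inter (isClosed_le continuous_const hFc.abs)
  have hne : S.Nonempty := ⟨w, right_mem_Icc.2 hzw.le, hw⟩
  have hbdd : BddBelow S := ⟨z, fun x hx => hx.1.1⟩
  have ht := hcl.csInf_mem hne hbdd
  set t := sInf S with ht_def
  have hlt : ∀ x ∈ Ioo z t, |F x| < ε := by
    intro x hx
    by_contra hcon
    rw [not_lt] at hcon
    have : x ∈ S := ⟨⟨hx.1.le, hx.2.le.trans ht.1.2⟩, hcon⟩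
    exact absurd (csInf_le hbdd this) (not_le.2 hx.2)
  have hval : ε ≤ |F t - F z| := by
    rw [hz, sub_zero]
    exact ht.2
  refine (seg hF hF' ht.1.1 hlt hval).trans ?_
  exact lintegral_mono_set (Ioo_subset_Ioo_right ht.1.2)

theorem side_left (hF : ∀ u, HasDerivAt F (F' u) u) (hF' : Continuous F') {z w ε : ℝ}
    (hzw : w < z) (hz : F z = 0) (hε : 0 < ε) (hw : ε ≤ |F w|) :
    ENNReal.ofReal ε ≤ ∫⁻ u in Ioo w z, kac F F' ε u := by
  have hFc : Continuous F := continuous_iff_continuousAt.2 fun x => (hF x).continuousAt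
  set S : Set ℝ := Icc w z ∩ {x | ε ≤ |F x|} with hS
  have hcl : IsClosed S := isClosed_Icc.inter (isClosed_le continuous_const hFc.abs)
  have hne : S.Nonempty := ⟨w, left_mem_Icc.2 hzw.le, hw⟩
  have hbdd : BddAbove S := ⟨z, fun x hx => hx.1.2⟩
  have ht := hcl.csSup_mem hne hbdd
  set t := sSup S with ht_def
  have hlt : ∀ x ∈ Ioo t z, |F x| < ε := by
    intro x hx
    by_contra hcon
    rw [not_lt] at hcon
    have : x ∈ S := ⟨⟨ht.1.1.trans hx.1.le, hx.2.le⟩, hcon⟩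
    exact absurd (le_csSup hbdd this) (not_le.2 hx.1)
  have hval : ε ≤ |F z - F t| := by
    rw [hz, zero_sub, abs_neg]
    exact ht.2
  refine (seg hF hF' ht.1.2 hlt hval).trans ?_
  exact lintegral_mono_set (Ioo_subset_Ioo_left ht.1.1)

theorem exists_pos_le {α : Type*} (s : Finset α) (e : α → ℝ) (he : ∀ x ∈ s, 0 < e x) :
    ∃ δ : ℝ, 0 < δ ∧ ∀ x ∈ s, δ ≤ e x := by
  classical
  induction s using Finset.induction_on with
  | empty => exact ⟨1, one_pos, by simp⟩
  | insert a s ha ih =>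
    obtain ⟨δ, hδ, h⟩ := ih fun x hx => he x (Finset.mem_insert_of_mem hx)
    refine ⟨min δ (e a), lt_min hδ (he a (Finset.mem_insert_self _ _)), fun x hx => ?_⟩
    rcases Finset.mem_insert.1 hx with rfl | hx
    · exact min_le_right _ _
    · exact (min_le_left _ _).trans (h x hx)

theorem exists_ne_zero (hfin : {u | F u = 0}.Finite) {a b : ℝ} (hab : a < b) :
    ∃ w ∈ Ioo a b, F w ≠ 0 := by
  by_contra hcon
  push Not at hcon
  exact (Ioo_infinite hab) (hfin.subset hcon)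

theorem count_le (hF : ∀ u, HasDerivAt F (F' u) u) (hF' : Continuous F')
    (hfin : {u | F u = 0}.Finite) :
    ∃ ε₀ : ℝ, 0 < ε₀ ∧ ∀ ε : ℝ, 0 < ε → ε ≤ ε₀ →
      ({u | F u = 0}.ncard : ℝ≥0∞) * ENNReal.ofReal (2 * ε) ≤ ∫⁻ u, kac F F' ε u := by
  classical
  set Z := hfin.toFinset with hZ
  have hmem : ∀ z, z ∈ Z ↔ F z = 0 := fun z => by rw [hZ, Finite.mem_toFinset]; rfl
  obtain ⟨δ, hδ, hsep⟩ := exists_pos_le Z.offDiag (fun p => |p.1 - p.2| / 2) (by
    intro p hp
    rw [Finset.mem_offDiag] at hp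
    have := abs_pos.2 (sub_ne_zero.2 hp.2.2)
    positivity)
  choose! wl hwl hwl' using fun z (_ : z ∈ Z) => exists_ne_zero hfin (show z - δ < z by linarith)
  choose! wr hwr hwr' using fun z (_ : z ∈ Z) => exists_ne_zero hfin (show z < z + δ by linarith)
  obtain ⟨ε₀, hε₀, hle⟩ := exists_pos_le Z (fun z => min |F (wl z)| |F (wr z)|) (fun z hz =>
    lt_min (abs_pos.2 (hwl' z hz)) (abs_pos.2 (hwr' z hz)))
  refine ⟨ε₀, hε₀, fun ε hε hεle => ?_⟩
  have hone : ∀ z ∈ Z, ENNReal.ofReal (2 * ε) ≤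
      ∫⁻ u in Ioo (z - δ) (z + δ), kac F F' ε u := by
    intro z hz
    have h0 := (hmem z).1 hz
    have h1 := side_left hF hF' (hwl z hz).2 h0 hε
      (hεle.trans ((hle z hz).trans (min_le_left _ _)))
    have h2 := side_right hF hF' (hwr z hz).1 h0 hε
      (hεle.trans ((hle z hz).trans (min_le_right _ _)))
    have hdisj : Disjoint (Ioo (wl z) z) (Ioo z (wr z)) := by
      rw [Set.disjoint_left]
      intro x hx hx'
      exact absurd hx.2 (not_lt.2 hx'.1.le)
    calc ENNReal.ofReal (2 * ε) = ENNReal.ofReal ε + ENNReal.ofReal ε := by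
          rw [← ENNReal.ofReal_add hε.le hε.le]
          congr 1
          ring
      _ ≤ (∫⁻ u in Ioo (wl z) z, kac F F' ε u) + ∫⁻ u in Ioo z (wr z), kac F F' ε u :=
          add_le_add h1 h2
      _ = ∫⁻ u in Ioo (wl z) z ∪ Ioo z (wr z), kac F F' ε u :=
          (lintegral_union measurableSet_Ioo hdisj).symm
      _ ≤ ∫⁻ u in Ioo (z - δ) (z + δ), kac F F' ε u := by
          refine lintegral_mono_set (union_subset (Ioo_subset_Ioo (hwl z hz).1.le ?_)
            (Ioo_subset_Ioo ?_ (hwr z hz).2.le))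
          · linarith
          · linarith
  have hpd : (Z : Set ℝ).PairwiseDisjoint fun z => Ioo (z - δ) (z + δ) := by
    intro z hz z' hz' hne
    rw [Function.onFun, Set.disjoint_left]
    intro x hx hx'
    have h1 := hsep (z, z') (Finset.mem_offDiag.2 ⟨hz, hz', hne⟩)
    have h2 : |z - z'| < 2 * δ := by
      rw [abs_lt]
      constructor <;> linarith [hx.1, hx.2, hx'.1, hx'.2]
    simp only at h1
    linarith
  calc ({u | F u = 0}.ncard : ℝ≥0∞) * ENNReal.ofReal (2 * ε)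
      = ∑ _z ∈ Z, ENNReal.ofReal (2 * ε) := by
        rw [Finset.sum_const, nsmul_eq_mul, Set.ncard_eq_toFinset_card _ hfin]
    _ ≤ ∑ z ∈ Z, ∫⁻ u in Ioo (z - δ) (z + δ), kac F F' ε u := Finset.sum_le_sum hone
    _ = ∫⁻ u in ⋃ z ∈ Z, Ioo (z - δ) (z + δ), kac F F' ε u :=
        (lintegral_biUnion_finset hpd (fun _ _ => measurableSet_Ioo) _).symm
    _ ≤ ∫⁻ u, kac F F' ε u := setLIntegral_le_lintegral _ _

/-- The majorant of the number of zeros. -/
noncomputable def kacLim (F F' : ℝ → ℝ) : ℝ≥0∞ :=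
  Filter.liminf (fun n : ℕ => (∫⁻ u, kac F F' (1 / (n + 2 : ℝ)) u) /
    ENNReal.ofReal (2 * (1 / (n + 2 : ℝ)))) Filter.atTop

theorem ncard_le_kacLim (hF : ∀ u, HasDerivAt F (F' u) u) (hF' : Continuous F')
    (hfin : {u | F u = 0}.Finite) : ({u | F u = 0}.ncard : ℝ≥0∞) ≤ kacLim F F' := by
  obtain ⟨ε₀, hε₀, h⟩ := count_le hF hF' hfin
  refine Filter.le_liminf_of_le (by isBoundedDefault) ?_
  obtain ⟨n₀, hn₀⟩ := exists_nat_gt (1 / ε₀)
  filter_upwards [Filter.eventually_ge_atTop n₀] with n hn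
  have hpos : (0 : ℝ) < 1 / (n + 2 : ℝ) := by positivity
  rw [ENNReal.le_div_iff_mul_le (Or.inl (by
    rw [Ne, ENNReal.ofReal_eq_zero, not_le]; positivity)) (Or.inl ENNReal.ofReal_ne_top)]
  refine h _ hpos ?_
  rw [div_le_iff₀ (by positivity)]
  have h1 : 1 / ε₀ < n := hn₀.trans_le (by exact_mod_cast hn)
  rw [div_lt_iff₀ hε₀] at h1
  nlinarith

end Pool.Agent.Lib.MP_c11b14_lc.Sm
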