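import Pool.Agent.Lib.MP_c11b14_lc.Sm.One
import Pool.Agent.Lib.MP_c11b14_lc.Sm.Zero
import Pool.Agent.Lib.MP_c11b14_lc.Sm.Sel
import Pool.Agent.Lib.MP_c11b14_lc.Sm.Pt

/-!
# The expected number of positive zeros
-/

set_option autoImplicit false

namespace Pool.Agent.Lib.MP_c11b14_lc.Sm

open MeasureTheory Set Filter
open scoped ENNReal

variable {ι κ : Type} [Fintype ι] [Fintype κ]

/-- The function and its derivative. -/
noncomputable def FF (a α : ι → ℝ) (b β : κ → ℝ) (ω : (ι → ℝ) × (κ → ℝ)) (u : ℝ) : ℝ :=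
  ev a α ω.1 u * ev b β ω.2 u + 1

noncomputable def FD (a α : ι → ℝ) (b β : κ → ℝ) (ω : (ι → ℝ) × (κ → ℝ)) (u : ℝ) : ℝ :=
  dv a α ω.1 u * ev b β ω.2 u + ev a α ω.1 u * dv b β ω.2 u

theorem hasDerivAt_FF (a α : ι → ℝ) (b β : κ → ℝ) (ω : (ι → ℝ) × (κ → ℝ)) (u : ℝ) :
    HasDerivAt (FF a α b β ω) (FD a α b β ω u) u :=
  ((hasDerivAt_ev a α ω.1 u).mul (hasDerivAt_ev b β ω.2 u)).add_const 1

theorem continuous_FD (a α : ι → ℝ) (b β : κ → ℝ) (ω : (ι → ℝ) × (κ → ℝ)) :
    Continuous (FD a α b β ω) := by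
  unfold FD dv ev
  fun_prop

theorem measurable_kac (a α : ι → ℝ) (b β : κ → ℝ) (ε : ℝ) :
    Measurable fun z : ((ι → ℝ) × (κ → ℝ)) × ℝ =>
      kac (FF a α b β z.1) (FD a α b β z.1) ε z.2 := by
  have h1 : Measurable fun z : ((ι → ℝ) × (κ → ℝ)) × ℝ => FF a α b β z.1 z.2 := by
    unfold FF ev
    fun_prop
  have h2 : Measurable fun z : ((ι → ℝ) × (κ → ℝ)) × ℝ => FD a α b β z.1 z.2 := by
    unfold FD dv ev
    fun_prop
  have h3 : (fun z : ((ι → ℝ) × (κ → ℝ)) × ℝ =>
      kac (FF a α b β z.1) (FD a α b β z.1) ε z.2) =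
      {z : ((ι → ℝ) × (κ → ℝ)) × ℝ | |FF a α b β z.1 z.2| < ε}.indicator
        (fun z => ENNReal.ofReal |FD a α b β z.1 z.2|) := by
    funext z
    simp only [kac, indicator_apply, Set.mem_ofPred_eq]
  rw [h3]
  refine Measurable.indicator ?_ ?_
  · exact (h2.abs).ennreal_ofReal
  · exact measurableSet_lt h1.abs measurable_const

section Exp

variable (μ : ι → Measure ℝ) (ν : κ → Measure ℝ) [∀ i, IsProbabilityMeasure (μ i)]
  [∀ j, IsProbabilityMeasure (ν j)] {K : ℝ≥0∞} (hμ : ∀ i, μ i ≤ K • (volume : Measure ℝ))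
  (hν : ∀ j, ν j ≤ K • (volume : Measure ℝ))
  (a α : ι → ℝ) (b β : κ → ℝ)

theorem measurableSet_lt_FF (u ε : ℝ) :
    MeasurableSet {ω : (ι → ℝ) × (κ → ℝ) | |FF a α b β ω u| < ε} := by
  have h1 : Measurable fun ω : (ι → ℝ) × (κ → ℝ) => FF a α b β ω u := by
    unfold FF ev
    fun_prop
  exact measurableSet_lt h1.abs measurable_const

include hμ in
theorem lintegral_A [DecidableEq ι] (u : ℝ) {ε : ℝ} (hε : 0 ≤ ε) (i : ι) :
    ∫⁻ ω, {ω | |FF a α b β ω u| < ε}.indicator (fun ω : (ι → ℝ) × (κ → ℝ) =>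
      ENNReal.ofReal |Real.exp (a i * u + α i) * ev b β ω.2 u|) ω
      ∂((Measure.pi μ).prod (Measure.pi ν)) ≤ K * ENNReal.ofReal (2 * ε) := by
  have hmeas : Measurable ({ω | |FF a α b β ω u| < ε}.indicator (fun ω : (ι → ℝ) × (κ → ℝ) =>
      ENNReal.ofReal |Real.exp (a i * u + α i) * ev b β ω.2 u|)) := by
    refine Measurable.indicator ?_ (measurableSet_lt_FF a α b β u ε)
    unfold ev
    fun_prop
  rw [lintegral_prod_symm _ hmeas.aemeasurable]
  calc ∫⁻ η, ∫⁻ ξ, {ω | |FF a α b β ω u| < ε}.indicator (fun ω : (ι → ℝ) × (κ → ℝ) =>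
        ENNReal.ofReal |Real.exp (a i * u + α i) * ev b β ω.2 u|) (ξ, η)
        ∂(Measure.pi μ) ∂(Measure.pi ν)
      ≤ ∫⁻ _η, K * ENNReal.ofReal (2 * ε) ∂(Measure.pi ν) := by
        refine lintegral_mono fun η => ?_
        have h1 := lin_form μ hμ (fun k => Real.exp (a k * u + α k) * ev b β η u) 1 hε i
        refine le_trans (le_of_eq ?_) h1
        have hset : {ξ : ι → ℝ | |∑ k, Real.exp (a k * u + α k) * ev b β η u * ξ k + 1| < ε} =
            {ξ : ι → ℝ | |FF a α b β (ξ, η) u| < ε} := by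
          ext ξ
          simp only [Set.mem_ofPred_eq]
          have h2 : ∑ k, Real.exp (a k * u + α k) * ev b β η u * ξ k =
              ev a α ξ u * ev b β η u := by
            conv_rhs => rw [ev, Finset.sum_mul]
            exact Finset.sum_congr rfl fun k _ => by ring
          rw [h2]
          rfl
        have hms : MeasurableSet {ξ : ι → ℝ | |FF a α b β (ξ, η) u| < ε} := by
          rw [← hset]
          exact measurableSet_lt (by fun_prop) measurable_const
        simp only [hset]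
        rw [← lintegral_indicator_const hms]
        refine lintegral_congr fun ξ => ?_
        simp only [indicator_apply, Set.mem_ofPred_eq]
    _ = K * ENNReal.ofReal (2 * ε) := by simp

include hν in
theorem lintegral_B [DecidableEq κ] (u : ℝ) {ε : ℝ} (hε : 0 ≤ ε) (j : κ) :
    ∫⁻ ω, {ω | |FF a α b β ω u| < ε}.indicator (fun ω : (ι → ℝ) × (κ → ℝ) =>
      ENNReal.ofReal |Real.exp (b j * u + β j) * ev a α ω.1 u|) ω
      ∂((Measure.pi μ).prod (Measure.pi ν)) ≤ K * ENNReal.ofReal (2 * ε) := by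
  have hmeas : Measurable ({ω | |FF a α b β ω u| < ε}.indicator (fun ω : (ι → ℝ) × (κ → ℝ) =>
      ENNReal.ofReal |Real.exp (b j * u + β j) * ev a α ω.1 u|)) := by
    refine Measurable.indicator ?_ (measurableSet_lt_FF a α b β u ε)
    unfold ev
    fun_prop
  rw [lintegral_prod _ hmeas.aemeasurable]
  calc ∫⁻ ξ, ∫⁻ η, {ω | |FF a α b β ω u| < ε}.indicator (fun ω : (ι → ℝ) × (κ → ℝ) =>
        ENNReal.ofReal |Real.exp (b j * u + β j) * ev a α ω.1 u|) (ξ, η)
        ∂(Measure.pi ν) ∂(Measure.pi μ)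
      ≤ ∫⁻ _ξ, K * ENNReal.ofReal (2 * ε) ∂(Measure.pi μ) := by
        refine lintegral_mono fun ξ => ?_
        have h1 := lin_form ν hν (fun k => Real.exp (b k * u + β k) * ev a α ξ u) 1 hε j
        refine le_trans (le_of_eq ?_) h1
        have hset : {η : κ → ℝ | |∑ k, Real.exp (b k * u + β k) * ev a α ξ u * η k + 1| < ε} =
            {η : κ → ℝ | |FF a α b β (ξ, η) u| < ε} := by
          ext η
          simp only [Set.mem_ofPred_eq]
          have h2 : ∑ k, Real.exp (b k * u + β k) * ev a α ξ u * η k =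
              ev a α ξ u * ev b β η u := by
            conv_rhs => rw [mul_comm, ev, Finset.sum_mul]
            exact Finset.sum_congr rfl fun k _ => by ring
          rw [h2]
          rfl
        have hms : MeasurableSet {η : κ → ℝ | |FF a α b β (ξ, η) u| < ε} := by
          rw [← hset]
          exact measurableSet_lt (by fun_prop) measurable_const
        simp only [hset]
        rw [← lintegral_indicator_const hms]
        refine lintegral_congr fun η => ?_
        simp only [indicator_apply, Set.mem_ofPred_eq]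
    _ = K * ENNReal.ofReal (2 * ε) := by simp

end Exp

end Pool.Agent.Lib.MP_c11b14_lc.Sm
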