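import Pool.Agent.Lib.MP_c11b14_lc.Sm.Model

/-!
# Deterministic consequences
-/

set_option autoImplicit false

namespace Pool.Agent.Lib.MP_c11b14_lc.Sm

open MeasureTheory Set Filter Polynomial
open scoped ENNReal

/-- The bound for `c = 1`, with `N = s + t`. -/
noncomputable def bnd (N : ℕ) (ρ : ℝ) : ℝ :=
  min (11 * N / ρ) (3000 * N * Real.log (4 * N / ρ))

theorem bnd_nonneg (N : ℕ) {ρ : ℝ} (hρ : 0 < ρ) (hρ1 : ρ ≤ 1) : 0 ≤ bnd N ρ := by
  unfold bnd
  refine le_min (by positivity) ?_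
  rcases Nat.eq_zero_or_pos N with h | h
  · rw [h]
    simp
  · have h1 : (1 : ℝ) ≤ N := by exact_mod_cast h
    have h2 : 1 ≤ 4 * (N : ℝ) / ρ := by
      rw [le_div_iff₀ hρ]
      linarith
    have := Real.log_nonneg h2
    positivity

/-- The uniform probability measure on `[A - r, A + r]`. -/
noncomputable def unifOn (A r : ℝ) : Measure ℝ :=
  ENNReal.ofReal (1 / (2 * r)) • (volume : Measure ℝ).restrict (Icc (A - r) (A + r))

theorem unifOn_prob (A : ℝ) {r : ℝ} (hr : 0 < r) : IsProbabilityMeasure (unifOn A r) := by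
  refine ⟨?_⟩
  unfold unifOn
  rw [Measure.smul_apply, Measure.restrict_apply MeasurableSet.univ, univ_inter, Real.volume_Icc,
    smul_eq_mul, ← ENNReal.ofReal_mul (by positivity)]
  have h1 : 1 / (2 * r) * (A + r - (A - r)) = 1 := by
    field_simp
    ring
  rw [h1, ENNReal.ofReal_one]

theorem coeff_sparse (f : ℝ[X]) (u : f.support → ℝ) (n : ℕ) :
    (sparse (fun i : f.support => (i : ℕ)) u).coeff n =
      if h : n ∈ f.support then u ⟨n, h⟩ else 0 := by
  unfold sparse
  rw [finsetSum_coeff]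
  simp only [coeff_C_mul_X_pow]
  split_ifs with h
  · rw [Finset.sum_eq_single ⟨n, h⟩]
    · simp
    · intro i _ hi
      rw [if_neg]
      rintro rfl
      exact hi rfl
    · intro h'
      exact absurd (Finset.mem_univ _) h'
  · refine Finset.sum_eq_zero fun i _ => ?_
    rw [if_neg]
    rintro rfl
    exact h i.2

theorem exists_pert (f g : ℝ[X]) {ρ : ℝ} (hρ : 0 < ρ) (hρ1 : ρ ≤ 1) :
    ∃ F G : ℝ[X], (∀ n, |F.coeff n - f.coeff n| ≤ ρ * |f.coeff n|) ∧
      (∀ n, |G.coeff n - g.coeff n| ≤ ρ * |g.coeff n|) ∧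
      (numRoots (F * G + 1) : ℝ) ≤ bnd (f.support.card + g.support.card) ρ := by
  have hr : ∀ i : f.support, 0 < ρ * |f.coeff i| := fun i =>
    mul_pos hρ (abs_pos.2 (mem_support_iff.1 i.2))
  have hq : ∀ i : g.support, 0 < ρ * |g.coeff i| := fun i =>
    mul_pos hρ (abs_pos.2 (mem_support_iff.1 i.2))
  have p1 := fun i : f.support => unifOn_prob (f.coeff i) (hr i)
  have p2 := fun i : g.support => unifOn_prob (g.coeff i) (hq i)
  obtain ⟨H, mH, hH, hint⟩ := model (fun i : f.support => (i : ℕ)) (fun i : g.support => (i : ℕ))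
    (fun i => f.coeff i) (fun i => ρ * |f.coeff i|) (fun i => g.coeff i)
    (fun i => ρ * |g.coeff i|) (fun i => unifOn (f.coeff i) (ρ * |f.coeff i|))
    (fun i => unifOn (g.coeff i) (ρ * |g.coeff i|)) ρ 1 hρ hρ1 le_rfl
    (fun i => ⟨hr i, le_rfl⟩) (fun i => ⟨hq i, le_rfl⟩) (fun i => le_rfl) (fun i => le_rfl)
  set μ : f.support → Measure ℝ := fun i => unifOn (f.coeff i) (ρ * |f.coeff i|) with hμ
  set ν : g.support → Measure ℝ := fun i => unifOn (g.coeff i) (ρ * |g.coeff i|) with hν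
  have hae : ∀ᵐ ω ∂((Measure.pi μ).prod (Measure.pi ν)),
      (∀ i : f.support, ω.1 i ∈ Icc (f.coeff i - ρ * |f.coeff i|)
        (f.coeff i + ρ * |f.coeff i|)) ∧
      ∀ j : g.support, ω.2 j ∈ Icc (g.coeff j - ρ * |g.coeff j|)
        (g.coeff j + ρ * |g.coeff j|) := by
    have h0 : ∀ᵐ ξ ∂(Measure.pi μ), ∀ i : f.support, ξ i ∈ Icc (f.coeff i - ρ * |f.coeff i|)
        (f.coeff i + ρ * |f.coeff i|) := by
      rw [ae_all_iff]
      intro k
      exact (Measure.tendsto_eval_ae_ae (μ := μ) (i := k)).eventually (ae_mem_of_le le_rfl)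
    have h0' : ∀ᵐ ξ ∂(Measure.pi ν), ∀ i : g.support, ξ i ∈ Icc (g.coeff i - ρ * |g.coeff i|)
        (g.coeff i + ρ * |g.coeff i|) := by
      rw [ae_all_iff]
      intro k
      exact (Measure.tendsto_eval_ae_ae (μ := ν) (i := k)).eventually (ae_mem_of_le le_rfl)
    have h1 := Measure.quasiMeasurePreserving_fst (μ := Measure.pi μ) (ν := Measure.pi ν) |>.ae h0
    have h2 := Measure.quasiMeasurePreserving_snd (μ := Measure.pi μ) (ν := Measure.pi ν) |>.ae h0'
    filter_upwards [h1, h2] with ω h3 h4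
    exact ⟨h3, h4⟩
  obtain ⟨ω, hω1, hω2⟩ := exists_notMem_null_le_lintegral (μ := (Measure.pi μ).prod (Measure.pi ν))
    mH.aemeasurable (ae_iff.1 hae)
  simp only [Set.mem_ofPred_eq, not_not] at hω1
  have hcoeff : ∀ (p : ℝ[X]) (u : p.support → ℝ),
      (∀ i : p.support, u i ∈ Icc (p.coeff i - ρ * |p.coeff i|) (p.coeff i + ρ * |p.coeff i|)) →
      ∀ n, |(sparse (fun i : p.support => (i : ℕ)) u).coeff n - p.coeff n| ≤
        ρ * |p.coeff n| := by
    intro p u hu n
    rw [coeff_sparse]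
    split_ifs with h
    · have h1 := hu ⟨n, h⟩
      rw [abs_le]
      constructor <;> linarith [h1.1, h1.2]
    · rw [notMem_support_iff.1 h]
      simp
  refine ⟨sparse (fun i : f.support => (i : ℕ)) ω.1, sparse (fun i : g.support => (i : ℕ)) ω.2,
    hcoeff f ω.1 hω1.1, hcoeff g ω.2 hω1.2, ?_⟩
  have h5 := ((hH ω).trans hω2).trans hint
  have h6 : min (11 * 1 * (((Fintype.card f.support : ℕ) : ℝ) + (Fintype.card g.support : ℕ)) / ρ)
      (3000 * 1 ^ 2 * (((Fintype.card f.support : ℕ) : ℝ) + (Fintype.card g.support : ℕ)) *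
        Real.log (4 * (((Fintype.card f.support : ℕ) : ℝ) + (Fintype.card g.support : ℕ)) / ρ)) =
      bnd (f.support.card + g.support.card) ρ := by
    unfold bnd
    rw [Fintype.card_coe, Fintype.card_coe]
    push_cast
    rw [mul_one, one_pow, mul_one]
  rw [h6, ← ENNReal.ofReal_natCast] at h5
  exact (ENNReal.ofReal_le_ofReal_iff (bnd_nonneg _ hρ hρ1)).1 h5

/-- Sign alternations give roots. -/
theorem le_numRoots {p : ℝ[X]} {N : ℕ} {x : ℕ → ℝ} (hx : ∀ k < N, x k < x (k + 1))
    (halt : ∀ k < N, p.eval (x k) * p.eval (x (k + 1)) < 0) : N ≤ numRoots p := by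
  classical
  rcases Nat.eq_zero_or_pos N with h0 | h0
  · omega
  have hp0 : p ≠ 0 := by
    rintro rfl
    have := halt 0 h0
    simp at this
  have hroot : ∀ k < N, ∃ r ∈ Ioo (x k) (x (k + 1)), p.eval r = 0 := by
    intro k hk
    have h1 := halt k hk
    have hc : ContinuousOn (fun y => p.eval y) (Icc (x k) (x (k + 1))) :=
      p.continuous.continuousOn
    rcases mul_neg_iff.1 h1 with ⟨ha, hb⟩ | ⟨ha, hb⟩
    · exact intermediate_value_Ioo' (hx k hk).le hc ⟨hb, ha⟩
    · exact intermediate_value_Ioo (hx k hk).le hc ⟨ha, hb⟩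
  choose! r hr hr0 using hroot
  have hmono : ∀ k l, k < l → l < N → r k < r l := by
    intro k l hkl
    induction l with
    | zero => omega
    | succ l ih =>
      intro hl
      have h1 : r l < r (l + 1) := ((hr l (by omega)).2).trans (hr (l + 1) hl).1
      rcases Nat.lt_succ_iff_lt_or_eq.1 hkl with h | h
      · exact (ih h (by omega)).trans h1
      · rwa [h]
  have hcard : N = (Finset.range N).card := (Finset.card_range N).symm
  rw [hcard]
  refine Finset.card_le_card_of_injOn r ?_ ?_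
  · intro k hk
    have hk' : k < N := by simpa using hk
    rw [Finset.mem_coe, Multiset.mem_toFinset, mem_roots hp0]
    exact hr0 k hk'
  · intro k hk l hl hkl
    have hk' : k < N := by simpa using hk
    have hl' : l < N := by simpa using hl
    rcases lt_trichotomy k l with h | h | h
    · exact absurd hkl (hmono k l h hl').ne
    · exact h
    · exact absurd hkl (hmono l k h hk').ne'

/-- The value at `|x|` of the polynomial with the coefficients `|f_i|`. -/
noncomputable def absVal (f : ℝ[X]) (x : ℝ) : ℝ := ∑ n ∈ f.support, |f.coeff n| * |x| ^ n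

theorem absVal_nonneg (f : ℝ[X]) (x : ℝ) : 0 ≤ absVal f x :=
  Finset.sum_nonneg fun _ _ => by positivity

theorem abs_eval_le_absVal (f : ℝ[X]) (x : ℝ) : |f.eval x| ≤ absVal f x := by
  rw [eval_eq_sum, Polynomial.sum_def]
  unfold absVal
  refine (Finset.abs_sum_le_sum_abs _ _).trans (Finset.sum_le_sum fun i _ => ?_)
  rw [abs_mul, abs_pow]

theorem abs_eval_sub_le {f F : ℝ[X]} {ρ : ℝ} (h : ∀ n, |F.coeff n - f.coeff n| ≤ ρ * |f.coeff n|)
    (x : ℝ) : |F.eval x - f.eval x| ≤ ρ * absVal f x := by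
  rw [← eval_sub, eval_eq_sum, Polynomial.sum_def]
  have hsub : (F - f).support ⊆ f.support := by
    intro n hn
    rw [mem_support_iff] at hn ⊢
    intro h0
    have := h n
    rw [← coeff_sub] at this
    rw [h0, abs_zero, mul_zero] at this
    exact hn (abs_nonpos_iff.1 this)
  unfold absVal
  rw [Finset.mul_sum]
  refine (Finset.abs_sum_le_sum_abs _ _).trans ?_
  refine (Finset.sum_le_sum_of_subset_of_nonneg hsub fun _ _ _ => abs_nonneg _).trans ?_
  refine Finset.sum_le_sum fun n _ => ?_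
  rw [abs_mul, abs_pow, coeff_sub, ← mul_assoc]
  exact mul_le_mul_of_nonneg_right (h n) (by positivity)

theorem prod_sub_le {f g F G : ℝ[X]} {ρ : ℝ} (hρ : 0 < ρ) (hρ1 : ρ ≤ 1)
    (hF : ∀ n, |F.coeff n - f.coeff n| ≤ ρ * |f.coeff n|)
    (hG : ∀ n, |G.coeff n - g.coeff n| ≤ ρ * |g.coeff n|) (x : ℝ) :
    |(F * G + 1).eval x - (f * g + 1).eval x| ≤ 3 * ρ * absVal f x * absVal g x := by
  have h1 := abs_eval_sub_le hF x
  have h2 := abs_eval_sub_le hG x
  have h3 := abs_eval_le_absVal f x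
  have h4 := abs_eval_le_absVal g x
  have h5 := absVal_nonneg f x
  have h6 := absVal_nonneg g x
  have e1 : (F * G + 1).eval x - (f * g + 1).eval x =
      (F.eval x - f.eval x) * (G.eval x - g.eval x) +
      (F.eval x - f.eval x) * g.eval x + f.eval x * (G.eval x - g.eval x) := by
    simp only [eval_add, eval_mul, eval_one]
    ring
  rw [e1]
  refine (abs_add_le _ _).trans ((add_le_add_left (abs_add_le _ _) _).trans ?_)
  rw [abs_mul, abs_mul, abs_mul]
  have h7 : |F.eval x - f.eval x| * |G.eval x - g.eval x| ≤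
      ρ * absVal f x * (ρ * absVal g x) := mul_le_mul h1 h2 (abs_nonneg _) (by positivity)
  have h8 : |F.eval x - f.eval x| * |g.eval x| ≤ ρ * absVal f x * absVal g x :=
    mul_le_mul h1 h4 (abs_nonneg _) (by positivity)
  have h9 : |f.eval x| * |G.eval x - g.eval x| ≤ absVal f x * (ρ * absVal g x) :=
    mul_le_mul h3 h2 (abs_nonneg _) h5
  have h10 : ρ * absVal f x * (ρ * absVal g x) ≤ ρ * absVal f x * absVal g x := by
    have : ρ * absVal f x * (ρ * absVal g x) = ρ * (ρ * absVal f x * absVal g x) := by ring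
    rw [this]
    exact mul_le_of_le_one_left (by positivity) hρ1
  nlinarith

theorem visible (f g : ℝ[X]) {ρ : ℝ} (hρ : 0 < ρ) (hρ1 : ρ ≤ 1) {N : ℕ} {x : ℕ → ℝ}
    (hx : ∀ k < N, x k < x (k + 1))
    (halt : ∀ k < N, (f * g + 1).eval (x k) * (f * g + 1).eval (x (k + 1)) < 0)
    (hvis : ∀ k ≤ N, 3 * ρ * absVal f (x k) * absVal g (x k) < |(f * g + 1).eval (x k)|) :
    (N : ℝ) ≤ bnd (f.support.card + g.support.card) ρ := by
  obtain ⟨F, G, hF, hG, hN⟩ := exists_pert f g hρ hρ1
  refine le_trans ?_ hN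
  have hsame : ∀ k ≤ N, 0 < (F * G + 1).eval (x k) * (f * g + 1).eval (x k) := by
    intro k hk
    have h1 := (prod_sub_le hρ hρ1 hF hG (x k)).trans_lt (hvis k hk)
    set A := (F * G + 1).eval (x k) with hA
    set B := (f * g + 1).eval (x k) with hB
    rcases lt_trichotomy B 0 with h | h | h
    · rw [abs_of_neg h, abs_lt] at h1
      exact mul_pos_of_neg_of_neg (by linarith [h1.2]) h
    · rw [h, abs_zero] at h1
      exact absurd h1 (not_lt.2 (abs_nonneg _))
    · rw [abs_of_pos h, abs_lt] at h1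
      exact mul_pos (by linarith [h1.1]) h
  have := le_numRoots (p := F * G + 1) hx (by
    intro k hk
    have h1 := hsame k hk.le
    have h2 := hsame (k + 1) hk
    have h3 := halt k hk
    set A := (F * G + 1).eval (x k)
    set B := (f * g + 1).eval (x k)
    set A' := (F * G + 1).eval (x (k + 1))
    set B' := (f * g + 1).eval (x (k + 1))
    by_contra hcon
    rw [not_lt] at hcon
    have h4 : 0 < (A * B) * (A' * B') := mul_pos h1 h2
    have h5 : (A * B) * (A' * B') = (A * A') * (B * B') := by ring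
    rw [h5] at h4
    nlinarith)
  exact_mod_cast this

end Pool.Agent.Lib.MP_c11b14_lc.Sm
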