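import Pool.Agent.Lib.MP_c11b14_lc.Sm.Core

/-!
# The expected number of positive zeros, at a fixed point
-/

set_option autoImplicit false

namespace Pool.Agent.Lib.MP_c11b14_lc.Sm

open MeasureTheory Set Filter
open scoped ENNReal

variable {ι κ : Type} [Fintype ι] [Fintype κ]

/-- The tail weight. -/
noncomputable def phiT (L : ℝ) (v : ℝ) : ℝ≥0∞ :=
  (Ici (-L)).indicator (fun v => ENNReal.ofReal (Real.exp (-v / 2))) v

/-- The exponential weight. -/
noncomputable def phiV (v : ℝ) : ℝ≥0∞ :=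
  (Ici (0 : ℝ)).indicator (fun v => ENNReal.ofReal (Real.exp (-v))) v

section Exp

variable (μ : ι → Measure ℝ) (ν : κ → Measure ℝ) [∀ i, IsProbabilityMeasure (μ i)]
  [∀ j, IsProbabilityMeasure (ν j)] {K : ℝ≥0∞}

theorem ae_abs_le (hμ1 : ∀ i, ∀ᵐ x ∂(μ i), |x| ≤ 1) :
    ∀ᵐ ξ ∂(Measure.pi μ), ∀ k, |ξ k| ≤ 1 := by
  rw [ae_all_iff]
  intro k
  exact (Measure.tendsto_eval_ae_ae (μ := μ) (i := k)).eventually (hμ1 k)

/-- The fixed point bound. -/
theorem fixed [DecidableEq ι] [DecidableEq κ]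
    (hμ : ∀ i, μ i ≤ K • (volume : Measure ℝ)) (hν : ∀ j, ν j ≤ K • (volume : Measure ℝ))
    (hμ1 : ∀ i, ∀ᵐ x ∂(μ i), |x| ≤ 1) (hν1 : ∀ j, ∀ᵐ x ∂(ν j), |x| ≤ 1)
    {a α : ι → ℝ} {b β : κ → ℝ} (ha : ∀ k, 0 ≤ a k) (hb : ∀ k, 0 ≤ b k)
    {u : ℝ} {i : ι} {j : κ} (hi : ∀ k, a k * u + α k ≤ a i * u + α i)
    (hj : ∀ k, b k * u + β k ≤ b j * u + β j) {ε : ℝ} (hε0 : 0 ≤ ε) (hε : ε ≤ 1 / 2) :
    ∫⁻ ω, kac (FF a α b β ω) (FD a α b β ω) ε u ∂((Measure.pi μ).prod (Measure.pi ν)) ≤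
      (ENNReal.ofReal (vr a α i u) + ENNReal.ofReal (vr b β j u) +
        ENNReal.ofReal (3 / √2) * (ENNReal.ofReal (a i + b j) *
          phiT (Real.log (2 * Fintype.card ι * Fintype.card κ))
            ((a i + b j) * u + (α i + β j)))) * (K * ENNReal.ofReal (2 * ε)) := by
  set P := (Measure.pi μ).prod (Measure.pi ν) with hP
  set L := Real.log (2 * Fintype.card ι * Fintype.card κ) with hL
  set h := (a i + b j) * u + (α i + β j) with hh
  set D : ℝ≥0∞ := ENNReal.ofReal (3 / (2 * √2)) * (ENNReal.ofReal (a i + b j) * phiT L h) with hD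
  have hab : 0 ≤ a i + b j := add_nonneg (ha i) (hb j)
  have hs2 : (0 : ℝ) < √2 := by positivity
  have hD2 : D + D = ENNReal.ofReal (3 / √2) * (ENNReal.ofReal (a i + b j) * phiT L h) := by
    rw [hD, ← add_mul, ← ENNReal.ofReal_add (by positivity) (by positivity)]
    congr 2
    field_simp
    ring
  have hae : ∀ᵐ ω ∂P, (∀ k, |ω.1 k| ≤ 1) ∧ ∀ k, |ω.2 k| ≤ 1 := by
    have h1 := Measure.quasiMeasurePreserving_fst (μ := Measure.pi μ) (ν := Measure.pi ν) |>.ae
      (ae_abs_le μ hμ1)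
    have h2 := Measure.quasiMeasurePreserving_snd (μ := Measure.pi μ) (ν := Measure.pi ν) |>.ae
      (ae_abs_le ν hν1)
    filter_upwards [h1, h2] with ω h3 h4
    exact ⟨h3, h4⟩
  set IA : (ι → ℝ) × (κ → ℝ) → ℝ≥0∞ := {ω | |FF a α b β ω u| < ε}.indicator
    (fun ω : (ι → ℝ) × (κ → ℝ) =>
      ENNReal.ofReal |Real.exp (a i * u + α i) * ev b β ω.2 u|) with hIA
  set IB : (ι → ℝ) × (κ → ℝ) → ℝ≥0∞ := {ω | |FF a α b β ω u| < ε}.indicator
    (fun ω : (ι → ℝ) × (κ → ℝ) =>
      ENNReal.ofReal |Real.exp (b j * u + β j) * ev a α ω.1 u|) with hIB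
  have mA : Measurable IA := by
    refine Measurable.indicator ?_ (measurableSet_lt_FF a α b β u ε)
    unfold ev
    fun_prop
  have mB : Measurable IB := by
    refine Measurable.indicator ?_ (measurableSet_lt_FF a α b β u ε)
    unfold ev
    fun_prop
  have hpt : ∀ᵐ ω ∂P, kac (FF a α b β ω) (FD a α b β ω) ε u ≤
      (ENNReal.ofReal (vr a α i u) + D) * IA ω + (ENNReal.ofReal (vr b β j u) + D) * IB ω := by
    filter_upwards [hae] with ω hω
    by_cases hlt : |FF a α b β ω u| < ε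
    · have hmem : ω ∈ {ω | |FF a α b β ω u| < ε} := hlt
      obtain ⟨hp1, hp2⟩ := pointwise ha hb hi hj hω.1 hω.2 hε hlt
      have hk : kac (FF a α b β ω) (FD a α b β ω) ε u = ENNReal.ofReal |FD a α b β ω u| := by
        simp only [kac]
        rw [indicator_of_mem (show u ∈ {u | |FF a α b β ω u| < ε} from hlt)]
      have hphi : phiT L h = ENNReal.ofReal (Real.exp (-h / 2)) := by
        simp only [phiT]
        rw [indicator_of_mem (show h ∈ Ici (-L) from hp2)]
      have hDr : D = ENNReal.ofReal (3 / (2 * √2) * (a i + b j) * Real.exp (-h / 2)) := by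
        rw [hD, hphi, ← ENNReal.ofReal_mul hab, ← ENNReal.ofReal_mul (by positivity), mul_assoc]
      have hIAr : IA ω = ENNReal.ofReal |Real.exp (a i * u + α i) * ev b β ω.2 u| := by
        rw [hIA, indicator_of_mem hmem]
      have hIBr : IB ω = ENNReal.ofReal |Real.exp (b j * u + β j) * ev a α ω.1 u| := by
        rw [hIB, indicator_of_mem hmem]
      have hc0 : 0 ≤ 3 / (2 * √2) * (a i + b j) * Real.exp (-h / 2) := by positivity
      rw [hk, hIAr, hIBr, hDr, ← ENNReal.ofReal_add (vr_nonneg _ _ _ _) hc0,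
        ← ENNReal.ofReal_add (vr_nonneg _ _ _ _) hc0,
        ← ENNReal.ofReal_mul (add_nonneg (vr_nonneg _ _ _ _) hc0),
        ← ENNReal.ofReal_mul (add_nonneg (vr_nonneg _ _ _ _) hc0),
        ← ENNReal.ofReal_add (mul_nonneg (add_nonneg (vr_nonneg _ _ _ _) hc0) (abs_nonneg _))
          (mul_nonneg (add_nonneg (vr_nonneg _ _ _ _) hc0) (abs_nonneg _))]
      exact ENNReal.ofReal_le_ofReal hp1
    · have hk : kac (FF a α b β ω) (FD a α b β ω) ε u = 0 := by
        simp only [kac]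
        rw [indicator_of_notMem (show u ∉ {u | |FF a α b β ω u| < ε} from hlt)]
      rw [hk]
      exact zero_le
  calc ∫⁻ ω, kac (FF a α b β ω) (FD a α b β ω) ε u ∂P
      ≤ ∫⁻ ω, ((ENNReal.ofReal (vr a α i u) + D) * IA ω +
          (ENNReal.ofReal (vr b β j u) + D) * IB ω) ∂P := lintegral_mono_ae hpt
    _ = (ENNReal.ofReal (vr a α i u) + D) * ∫⁻ ω, IA ω ∂P +
          (ENNReal.ofReal (vr b β j u) + D) * ∫⁻ ω, IB ω ∂P := by
        rw [lintegral_add_left (mA.const_mul _), lintegral_const_mul _ mA,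
          lintegral_const_mul _ mB]
    _ ≤ (ENNReal.ofReal (vr a α i u) + D) * (K * ENNReal.ofReal (2 * ε)) +
          (ENNReal.ofReal (vr b β j u) + D) * (K * ENNReal.ofReal (2 * ε)) := by
        gcongr
        · exact lintegral_A μ ν hμ a α b β u hε0 i
        · exact lintegral_B μ ν hν a α b β u hε0 j
    _ = _ := by
        rw [← hD2]
        ring

end Exp

theorem integral_phiV : ∫⁻ v, phiV v = 1 := by
  unfold phiV
  rw [lintegral_indicator measurableSet_Ici, ← restrict_Ioi_eq_restrict_Ici,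
    ← ofReal_integral_eq_lintegral_ofReal]
  · rw [integral_exp_neg_Ioi_zero, ENNReal.ofReal_one]
  · exact integrableOn_exp_neg_Ioi 0
  · exact ae_of_all _ fun v => (Real.exp_pos _).le

theorem integral_phiT (L : ℝ) : ∫⁻ v, phiT L v = ENNReal.ofReal (2 * Real.exp (L / 2)) := by
  unfold phiT
  have h0 : ∀ v : ℝ, Real.exp (-v / 2) = Real.exp (-(1 / 2) * v) := by
    intro v
    congr 1
    ring
  simp only [h0]
  rw [lintegral_indicator measurableSet_Ici, ← restrict_Ioi_eq_restrict_Ici,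
    ← ofReal_integral_eq_lintegral_ofReal]
  · rw [integral_exp_mul_Ioi (by norm_num : (-(1 / 2) : ℝ) < 0)]
    congr 1
    have : -(1 / 2) * -L = L / 2 := by ring
    rw [this]
    ring
  · exact integrableOn_exp_mul_Ioi (by norm_num : (-(1 / 2) : ℝ) < 0) _
  · exact ae_of_all _ fun v => (Real.exp_pos _).le

end Pool.Agent.Lib.MP_c11b14_lc.Sm
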