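import Pool.Agent.Lib.MP_c11b14_lc.Sm.Win

/-!
# The expectation of the majorant, with a logarithm
-/

set_option autoImplicit false

namespace Pool.Agent.Lib.MP_c11b14_lc.Sm

open MeasureTheory Set Filter
open scoped ENNReal Topology

variable {ι κ : Type} [Fintype ι] [Fintype κ] [DecidableEq ι] [DecidableEq κ]

variable (μ : ι → Measure ℝ) (ν : κ → Measure ℝ) [∀ i, IsProbabilityMeasure (μ i)]
  [∀ j, IsProbabilityMeasure (ν j)] {K : ℝ≥0∞}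

attribute [local irreducible] kb kc kac FF FD

theorem kacLim_gen (hμ : ∀ i, μ i ≤ K • (volume : Measure ℝ))
    (hν : ∀ j, ν j ≤ K • (volume : Measure ℝ)) (hKtop : K ≠ ⊤)
    (hμ1 : ∀ i, ∀ᵐ x ∂(μ i), |x| ≤ 1) (hν1 : ∀ j, ∀ᵐ x ∂(ν j), |x| ≤ 1)
    {c : ι → ℝ} {d : κ → ℝ} {w : ℝ}
    (hc : ∀ i, ∀ᵐ x ∂(μ i), |x - c i| ≤ w) (hd : ∀ j, ∀ᵐ x ∂(ν j), |x - d j| ≤ w)
    [Nonempty ι] [Nonempty κ] {a α : ι → ℝ} {b β : κ → ℝ}
    (ha : ∀ k, 0 ≤ a k) (hb : ∀ k, 0 ≤ b k) {L B th N : ℝ} (hL : 0 ≤ L)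
    (hB : 1 ≤ B) (hB2 : 2 * Fintype.card ι * Fintype.card κ < B) (hBL : B ≤ Real.exp L)
    (D : ℕ) (hD : 6 * L ≤ D) (hw : 0 < w) (hth : 0 < th) (hth1 : th ≤ 1)
    (hN1 : 1 ≤ N) (hNs : Fintype.card ι ≤ N) (hNt : Fintype.card κ ≤ N)
    (hr : N * Real.exp (-L) ≤ th / 2)
    (hs : 23 * B * N * (N * Real.exp (-L)) / th ^ 3 ≤ w / 2) :
    ∫⁻ ω, kacLim (FF a α b β ω) (FD a α b β ω) ∂((Measure.pi μ).prod (Measure.pi ν)) ≤
      ((4 * (Fintype.card ι + Fintype.card κ) + 3 : ℕ) : ℝ≥0∞) *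
        (2 * (K * ENNReal.ofReal ((6 * ((D + 1 : ℕ) : ℝ) + 1 / 2) * w))) +
      5 * (Fintype.card ι + Fintype.card κ) * (K * (K * ENNReal.ofReal (2 * th))) := by
  set M0 : ℝ≥0∞ := ((4 * (Fintype.card ι + Fintype.card κ) + 3 : ℕ) : ℝ≥0∞) with hM0
  set X1 : ℝ≥0∞ := ENNReal.ofReal ((6 * ((D + 1 : ℕ) : ℝ) + 1 / 2) * w) with hX1
  set C1 : ℝ := B / th + B * N / th ^ 2 with hC1
  set Y1 : ℝ≥0∞ := 5 * (Fintype.card ι + Fintype.card κ) * (K * (K * ENNReal.ofReal (2 * th)))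
    with hY1
  have hC10 : 0 ≤ C1 := by positivity
  unfold kacLim
  refine (lintegral_liminf_le fun n => ?_).trans ?_
  · refine Measurable.div_const ?_ _
    exact (measurable_kac a α b β (1 / (n + 2 : ℝ))).lintegral_prod_right'
  -- the limit of the upper bounds
  have hlim : Tendsto (fun n : ℕ => M0 * (2 * (K * (X1 +
      ENNReal.ofReal (1 / (n + 2 : ℝ) * C1)))) + Y1) atTop
      (𝓝 (M0 * (2 * (K * X1)) + Y1)) := by
    have h1 : Tendsto (fun n : ℕ => 1 / (n + 2 : ℝ) * C1) atTop (𝓝 0) := by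
      have h2 : Tendsto (fun n : ℕ => 1 / ((n + 2 : ℕ) : ℝ)) atTop (𝓝 0) :=
        (tendsto_add_atTop_iff_nat (f := fun n : ℕ => 1 / (n : ℝ)) 2).2
          tendsto_one_div_atTop_nhds_zero_nat
      have h3 := h2.mul_const C1
      rw [zero_mul] at h3
      refine h3.congr fun n => ?_
      push_cast
      rfl
    have h4 : Tendsto (fun n : ℕ => ENNReal.ofReal (1 / (n + 2 : ℝ) * C1)) atTop (𝓝 0) := by
      have := ENNReal.tendsto_ofReal h1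
      rwa [ENNReal.ofReal_zero] at this
    have h5 : Tendsto (fun n : ℕ => X1 + ENNReal.ofReal (1 / (n + 2 : ℝ) * C1)) atTop
        (𝓝 X1) := by
      have := (tendsto_const_nhds (x := X1) (f := (atTop : Filter ℕ))).add h4
      rwa [add_zero] at this
    have h6 := ENNReal.Tendsto.const_mul (a := K) h5 (Or.inr hKtop)
    have h7 := ENNReal.Tendsto.const_mul (a := 2) h6 (Or.inr (by norm_num))
    have h8 := ENNReal.Tendsto.const_mul (a := M0) h7 (Or.inr (ENNReal.natCast_ne_top _))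
    exact h8.add tendsto_const_nhds
  refine le_trans (liminf_le_liminf ?_ (by isBoundedDefault) (by isBoundedDefault))
    (le_of_eq hlim.liminf_eq)
  obtain ⟨n₀, hn₀⟩ := exists_nat_gt (4 * B / (w * th))
  filter_upwards [eventually_ge_atTop n₀] with n hn
  have hε : (0 : ℝ) < 1 / (n + 2 : ℝ) := by positivity
  have hε2 : 1 / (n + 2 : ℝ) ≤ 1 / 2 := by
    refine one_div_le_one_div_of_le (by norm_num) ?_
    have : (0 : ℝ) ≤ n := Nat.cast_nonneg n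
    linarith
  have hε1 : 1 / (n + 2 : ℝ) ≤ w * th / (4 * B) := by
    have h1 : 4 * B / (w * th) < n := hn₀.trans_le (by exact_mod_cast hn)
    rw [div_lt_iff₀ (by positivity)] at h1
    rw [div_le_div_iff₀ (by positivity) (by positivity)]
    nlinarith [mul_pos hw hth]
  have hne : ENNReal.ofReal (2 * (1 / (n + 2 : ℝ))) ≠ 0 := by
    rw [Ne, ENNReal.ofReal_eq_zero, not_le]
    positivity
  have hm : Measurable fun ω : (ι → ℝ) × (κ → ℝ) =>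
      ∫⁻ u, kac (FF a α b β ω) (FD a α b β ω) (1 / (n + 2 : ℝ)) u :=
    (measurable_kac a α b β (1 / (n + 2 : ℝ))).lintegral_prod_right'
  calc ∫⁻ ω, (∫⁻ u, kac (FF a α b β ω) (FD a α b β ω) (1 / (n + 2 : ℝ)) u) /
        ENNReal.ofReal (2 * (1 / (n + 2 : ℝ))) ∂((Measure.pi μ).prod (Measure.pi ν))
      = (∫⁻ ω, (∫⁻ u, kac (FF a α b β ω) (FD a α b β ω) (1 / (n + 2 : ℝ)) u)
          ∂((Measure.pi μ).prod (Measure.pi ν))) / ENNReal.ofReal (2 * (1 / (n + 2 : ℝ))) := by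
        simp only [div_eq_mul_inv (_ : ℝ≥0∞)]
        exact lintegral_mul_const _ hm
    _ ≤ M0 * (2 * (K * (X1 + ENNReal.ofReal (1 / (n + 2 : ℝ) * C1)))) + Y1 := by
        rw [ENNReal.div_le_iff hne ENNReal.ofReal_ne_top]
        refine (window_log μ ν hμ hν hμ1 hν1 hc hd ha hb hL hB hB2 hBL D hD hw hth hth1 hN1 hNs hNt
          hr hs hε hε1 hε2).trans (le_of_eq ?_)
        rw [hY1, hX1, hC1, hM0]
        ring

/-- The numerical facts. -/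
theorem num_facts {N w : ℝ} (hN : 2 ≤ N) (hw : 0 < w) (hw1 : w ≤ 1 / 2) :
    0 ≤ 7 * Real.log (2 * N / w) ∧ 4 * N ^ 2 ≤ Real.exp (7 * Real.log (2 * N / w)) ∧
    N * Real.exp (-(7 * Real.log (2 * N / w))) ≤ w ^ 2 / 2 ∧
    23 * (4 * N ^ 2) * N * (N * Real.exp (-(7 * Real.log (2 * N / w)))) / (w ^ 2) ^ 3 ≤ w / 2 ∧
    2 ≤ Real.log (2 * N / w) := by
  have hN0 : 0 < N := by linarith
  have hx : 8 ≤ 2 * N / w := by
    rw [le_div_iff₀ hw]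
    nlinarith
  have hxpos : 0 < 2 * N / w := by linarith
  have hexp : Real.exp (7 * Real.log (2 * N / w)) = (2 * N / w) ^ 7 := by
    rw [show (7 : ℝ) * Real.log (2 * N / w) = ((7 : ℕ) : ℝ) * Real.log (2 * N / w) by norm_num,
      Real.exp_nat_mul, Real.exp_log hxpos]
  have hexpn : Real.exp (-(7 * Real.log (2 * N / w))) = (w / (2 * N)) ^ 7 := by
    rw [Real.exp_neg, hexp, ← inv_pow, inv_div]
  have hlog8 : 2 ≤ Real.log (2 * N / w) := by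
    rw [Real.le_log_iff_exp_le hxpos]
    have h1 : Real.exp 2 = Real.exp 1 * Real.exp 1 := by
      rw [← Real.exp_add]
      norm_num
    have h2 := Real.exp_one_lt_d9
    have h3 := Real.exp_pos 1
    nlinarith
  have hw2 : w ^ 2 ≤ 1 / 4 := by nlinarith
  have hN3 : 8 ≤ N ^ 3 := by
    have := pow_le_pow_left₀ (by norm_num) hN 3
    norm_num at this
    exact this
  refine ⟨by linarith, ?_, ?_, ?_, hlog8⟩
  · rw [hexp]
    have h1 : 2 * N ≤ 2 * N / w := by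
      rw [le_div_iff₀ hw]
      nlinarith
    calc 4 * N ^ 2 = (2 * N) ^ 2 := by ring
      _ ≤ (2 * N / w) ^ 2 := pow_le_pow_left₀ (by positivity) h1 2
      _ ≤ (2 * N / w) ^ 7 := pow_le_pow_right₀ (by linarith) (by norm_num)
  · rw [hexpn, div_pow, ← mul_div_assoc, div_le_div_iff₀ (by positivity) (by norm_num)]
    have h1 : w ^ 7 = w ^ 2 * w ^ 5 := by ring
    have h2 : w ^ 5 ≤ 1 := pow_le_one₀ hw.le (by linarith)
    have h3 : (2 * N) ^ 7 = 128 * N ^ 4 * (N ^ 3) := by ring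
    have h4 : N ≤ N ^ 4 := by
      have := pow_le_pow_right₀ (by linarith : (1 : ℝ) ≤ N) (by norm_num : 1 ≤ 4)
      rwa [pow_one] at this
    have h5 : 0 ≤ N ^ 4 := by positivity
    rw [h1, h3]
    have h6 : N * (w ^ 2 * w ^ 5) * 2 ≤ N ^ 4 * w ^ 2 * 2 := by
      have h7 : w ^ 2 * w ^ 5 ≤ w ^ 2 := mul_le_of_le_one_right (by positivity) h2
      have h8 : N * (w ^ 2 * w ^ 5) ≤ N ^ 4 * w ^ 2 :=
        mul_le_mul h4 h7 (by positivity) h5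
      linarith
    have h9 : N ^ 4 * w ^ 2 * 2 ≤ w ^ 2 * (128 * N ^ 4 * N ^ 3) := by
      have h10 : 0 ≤ N ^ 4 * w ^ 2 := by positivity
      nlinarith
    linarith
  · rw [hexpn, div_pow, div_le_iff₀ (by positivity)]
    have h1 : 23 * (4 * N ^ 2) * N * (N * (w ^ 7 / (2 * N) ^ 7)) = 92 / 128 * w ^ 7 / N ^ 3 := by
      field_simp
      ring
    rw [h1, div_le_iff₀ (by positivity)]
    have h2 : w / 2 * (w ^ 2) ^ 3 = w ^ 7 / 2 := by ring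
    rw [h2]
    have h3 : 0 < w ^ 7 := by positivity
    nlinarith

theorem kacLim_log {w k : ℝ} (hw : 0 < w) (hw1 : w ≤ 1 / 2) (hk : 1 ≤ k)
    (hμ : ∀ i, μ i ≤ ENNReal.ofReal (k / (2 * w)) • (volume : Measure ℝ))
    (hν : ∀ j, ν j ≤ ENNReal.ofReal (k / (2 * w)) • (volume : Measure ℝ))
    (hμ1 : ∀ i, ∀ᵐ x ∂(μ i), |x| ≤ 1) (hν1 : ∀ j, ∀ᵐ x ∂(ν j), |x| ≤ 1)
    {c : ι → ℝ} {d : κ → ℝ}
    (hc : ∀ i, ∀ᵐ x ∂(μ i), |x - c i| ≤ w) (hd : ∀ j, ∀ᵐ x ∂(ν j), |x - d j| ≤ w)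
    [Nonempty ι] [Nonempty κ] {a α : ι → ℝ} {b β : κ → ℝ}
    (ha : ∀ k, 0 ≤ a k) (hb : ∀ k, 0 ≤ b k) :
    ∫⁻ ω, kacLim (FF a α b β ω) (FD a α b β ω) ∂((Measure.pi μ).prod (Measure.pi ν)) ≤
      ENNReal.ofReal (1425 * k ^ 2 * (Fintype.card ι + Fintype.card κ) *
        Real.log (2 * (Fintype.card ι + Fintype.card κ) / w)) := by
  have hs1 : (1 : ℝ) ≤ Fintype.card ι := by exact_mod_cast Fintype.card_pos (α := ι)
  have ht1 : (1 : ℝ) ≤ Fintype.card κ := by exact_mod_cast Fintype.card_pos (α := κ)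
  have hk0 : 0 < k := by linarith
  obtain ⟨N, hNdef⟩ : ∃ N : ℝ, N = Fintype.card ι + Fintype.card κ := ⟨_, rfl⟩
  have hN2 : 2 ≤ N := by linarith
  obtain ⟨f1, f2, f3, f4, f5⟩ := num_facts hN2 hw hw1
  obtain ⟨ℓ, hℓ⟩ : ∃ ℓ : ℝ, ℓ = Real.log (2 * N / w) := ⟨_, rfl⟩
  rw [← hℓ] at f1 f2 f3 f4 f5
  have hth : (0 : ℝ) < w ^ 2 := by positivity
  have hth1 : w ^ 2 ≤ 1 := by nlinarith
  have hgen := kacLim_gen μ ν hμ hν ENNReal.ofReal_ne_top hμ1 hν1 hc hd (α := α) (β := β) ha hb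
    (L := 7 * ℓ) (B := 4 * N ^ 2) (th := w ^ 2) (N := N) f1 (by nlinarith) (by nlinarith) f2
    ⌈6 * (7 * ℓ)⌉₊ (Nat.le_ceil _) hw hth hth1 (by linarith) (by linarith) (by linarith) f3 f4
  refine hgen.trans ?_
  rw [← ENNReal.ofReal_natCast, ← ENNReal.ofReal_mul (by positivity),
    ← ENNReal.ofReal_mul (by positivity), ← ENNReal.ofReal_mul (by positivity)]
  have e5 : (5 : ℝ≥0∞) * ((Fintype.card ι : ℝ≥0∞) + (Fintype.card κ : ℝ≥0∞)) =
      ENNReal.ofReal (5 * N) := by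
    rw [hNdef, ENNReal.ofReal_mul (by norm_num), ENNReal.ofReal_add (by linarith) (by linarith),
      ENNReal.ofReal_natCast, ENNReal.ofReal_natCast]
    norm_num
  have e2 : (2 : ℝ≥0∞) = ENNReal.ofReal 2 := by norm_num
  rw [e5, e2, ← ENNReal.ofReal_mul (by norm_num), ← ENNReal.ofReal_mul (by positivity),
    ← ENNReal.ofReal_mul (by positivity), ← ENNReal.ofReal_add (by positivity) (by positivity)]
  refine ENNReal.ofReal_le_ofReal ?_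
  rw [← hNdef, ← hℓ]
  obtain ⟨D, hDdef⟩ : ∃ D : ℕ, D = ⌈6 * (7 * ℓ)⌉₊ := ⟨_, rfl⟩
  rw [← hDdef]
  have hD1 : (D : ℝ) ≤ 42 * ℓ + 1 := by
    have := (Nat.ceil_lt_add_one (by linarith : 0 ≤ 6 * (7 * ℓ))).le
    rw [← hDdef] at this
    linarith
  push_cast
  have g1 : 2 * (k / (2 * w) * ((6 * ((D : ℝ) + 1) + 1 / 2) * w)) =
      k * (6 * ((D : ℝ) + 1) + 1 / 2) := by
    field_simp
  have g2 : k / (2 * w) * (k / (2 * w) * (2 * w ^ 2)) = k ^ 2 / 2 := by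
    field_simp
  rw [g1, g2, ← hNdef]
  have g3 : 6 * ((D : ℝ) + 1) + 1 / 2 ≤ 252 * ℓ + 25 / 2 := by linarith
  have g4 : 252 * ℓ + 25 / 2 ≤ 1033 / 4 * ℓ := by linarith
  have g5 : 4 * N + 3 ≤ 11 / 2 * N := by linarith
  have g6 : (4 * N + 3) * (6 * ((D : ℝ) + 1) + 1 / 2) ≤ 11 / 2 * N * (1033 / 4 * ℓ) :=
    mul_le_mul g5 (g3.trans g4) (by positivity) (by positivity)
  have g7 : k ≤ k ^ 2 := by nlinarith
  have g8 : 0 ≤ (4 * N + 3) * (6 * ((D : ℝ) + 1) + 1 / 2) := by positivity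
  have g9 : (4 * N + 3) * (k * (6 * ((D : ℝ) + 1) + 1 / 2)) ≤
      k ^ 2 * (11 / 2 * N * (1033 / 4 * ℓ)) := by
    calc (4 * N + 3) * (k * (6 * ((D : ℝ) + 1) + 1 / 2))
        = k * ((4 * N + 3) * (6 * ((D : ℝ) + 1) + 1 / 2)) := by ring
      _ ≤ k ^ 2 * ((4 * N + 3) * (6 * ((D : ℝ) + 1) + 1 / 2)) :=
          mul_le_mul_of_nonneg_right g7 g8
      _ ≤ _ := mul_le_mul_of_nonneg_left g6 (by positivity)
  have g10 : 5 * N * (k ^ 2 / 2) ≤ k ^ 2 * (5 / 4 * (N * ℓ)) := by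
    have h1 : N * 2 ≤ N * ℓ := mul_le_mul_of_nonneg_left f5 (by linarith)
    have h2 : 0 ≤ k ^ 2 := by positivity
    nlinarith
  have g11 : 0 ≤ k ^ 2 * (N * ℓ) := by positivity
  nlinarith

end Pool.Agent.Lib.MP_c11b14_lc.Sm
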