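import Pool.Agent.Lib.MP_c11b14_lc.Sm.Poly

/-!
# The expected number of real roots
-/

set_option autoImplicit false

namespace Pool.Agent.Lib.MP_c11b14_lc.Sm

open MeasureTheory Set Filter Polynomial
open scoped ENNReal

variable {ι κ : Type} [Fintype ι] [Fintype κ]

/-- The multiplication by signs. -/
def mulMap (e : ι → ℝ) (e' : κ → ℝ) (ω : (ι → ℝ) × (κ → ℝ)) : (ι → ℝ) × (κ → ℝ) :=
  (fun i => e i * ω.1 i, fun j => e' j * ω.2 j)

omit [Fintype ι] [Fintype κ] in
theorem measurable_mulMap (e : ι → ℝ) (e' : κ → ℝ) : Measurable (mulMap e e') := by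
  unfold mulMap
  fun_prop

/-- The majorant. -/
noncomputable def maj (a α : ι → ℝ) (b β : κ → ℝ) (e : ι → ℝ) (e' : κ → ℝ)
    (ω : (ι → ℝ) × (κ → ℝ)) : ℝ≥0∞ :=
  kacLim (FF a α b β (mulMap e e' ω)) (FD a α b β (mulMap e e' ω))

theorem measurable_maj (a α : ι → ℝ) (b β : κ → ℝ) (e : ι → ℝ) (e' : κ → ℝ) :
    Measurable (maj a α b β e e') :=
  (measurable_kacLim a α b β).comp (measurable_mulMap e e')

section Exp

variable (μ : ι → Measure ℝ) (ν : κ → Measure ℝ) [∀ i, IsProbabilityMeasure (μ i)]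
  [∀ j, IsProbabilityMeasure (ν j)] {K : ℝ≥0∞}

theorem lintegral_maj
    (hμ : ∀ i, μ i ≤ K • (volume : Measure ℝ)) (hν : ∀ j, ν j ≤ K • (volume : Measure ℝ))
    (hμ1 : ∀ i, ∀ᵐ x ∂(μ i), |x| ≤ 1) (hν1 : ∀ j, ∀ᵐ x ∂(ν j), |x| ≤ 1)
    {a α : ι → ℝ} {b β : κ → ℝ} (ha : ∀ k, 0 ≤ a k) (hb : ∀ k, 0 ≤ b k) [Nonempty ι] [Nonempty κ]
    {e : ι → ℝ} {e' : κ → ℝ} (he : ∀ i, |e i| = 1) (he' : ∀ j, |e' j| = 1) :
    ∫⁻ ω, maj a α b β e e' ω ∂((Measure.pi μ).prod (Measure.pi ν)) ≤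
      5 * (Fintype.card ι + Fintype.card κ) * K := by
  have i1 := fun i => law_prob (μ i) (e i)
  have i2 := fun j => law_prob (ν j) (e' j)
  have he0 : ∀ i, e i ≠ 0 := fun i h => by
    have := he i
    rw [h, abs_zero] at this
    exact zero_ne_one this
  have he0' : ∀ i, e' i ≠ 0 := fun i h => by
    have := he' i
    rw [h, abs_zero] at this
    exact zero_ne_one this
  have hmp := (mp_mul μ e).prod (mp_mul ν e')
  have h1 := hmp.lintegral_comp (measurable_kacLim a α b β)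
  have h2 : ∫⁻ ω, maj a α b β e e' ω ∂((Measure.pi μ).prod (Measure.pi ν)) =
      ∫⁻ ω, kacLim (FF a α b β ω) (FD a α b β ω) ∂((Measure.pi fun i => (μ i).map (e i * ·)).prod
        (Measure.pi fun j => (ν j).map (e' j * ·))) := h1
  rw [h2]
  refine lintegral_kacLim _ _ (fun i => ?_) (fun j => ?_) (fun i => ?_) (fun j => ?_) ha hb
  · refine (law_le (hμ i) (he0 i)).trans (le_of_eq ?_)
    rw [abs_inv, he i]
    simp
  · refine (law_le (hν j) (he0' j)).trans (le_of_eq ?_)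
    rw [abs_inv, he' j]
    simp
  · exact law_ae (hμ1 i) (by rw [he i]; norm_num)
  · exact law_ae (hν1 j) (by rw [he' j]; norm_num)

omit [Fintype ι] in
theorem half_le [Nonempty ι] (hμ : ∀ i, μ i ≤ K • (volume : Measure ℝ))
    (hμ1 : ∀ i, ∀ᵐ x ∂(μ i), |x| ≤ 1) : 1 ≤ 2 * K := by
  obtain ⟨i⟩ := (inferInstance : Nonempty ι)
  have h1 : μ i (Icc (-1) 1) = 1 := by
    rw [prob_compl_eq_zero_iff measurableSet_Icc |>.symm]
    rw [← mem_ae_iff]
    filter_upwards [hμ1 i] with x hx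
    exact abs_le.1 hx
  rw [← h1]
  refine (hμ i _).trans (le_of_eq ?_)
  rw [Measure.smul_apply, Real.volume_Icc, smul_eq_mul]
  norm_num
  ring

/-- **Theorem A.** -/
theorem main_A
    (hμ : ∀ i, μ i ≤ K • (volume : Measure ℝ)) (hν : ∀ j, ν j ≤ K • (volume : Measure ℝ))
    (hμ1 : ∀ i, ∀ᵐ x ∂(μ i), |x| ≤ 1) (hν1 : ∀ j, ∀ᵐ x ∂(ν j), |x| ≤ 1)
    (a : ι → ℕ) (b : κ → ℕ) {σ : ι → ℝ} {τ : κ → ℝ} (hσ : ∀ i, σ i ≠ 0) (hτ : ∀ j, τ j ≠ 0) :
    ∃ H : (ι → ℝ) × (κ → ℝ) → ℝ≥0∞, Measurable H ∧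
      (∀ ω, (numRoots (sparse a (fun i => σ i * ω.1 i) * sparse b (fun j => τ j * ω.2 j) + 1) :
        ℝ≥0∞) ≤ H ω) ∧
      ∫⁻ ω, H ω ∂((Measure.pi μ).prod (Measure.pi ν)) ≤
        11 * (Fintype.card ι + Fintype.card κ) * K := by
  classical
  rcases isEmpty_or_nonempty ι with hι | hι
  · refine ⟨fun _ => 0, measurable_const, fun ω => ?_, by simp⟩
    have : sparse a (fun i => σ i * ω.1 i) = 0 := by
      unfold sparse
      simp
    rw [this, zero_mul, zero_add]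
    simp [numRoots]
  rcases isEmpty_or_nonempty κ with hκ | hκ
  · refine ⟨fun _ => 0, measurable_const, fun ω => ?_, by simp⟩
    have : sparse b (fun i => τ i * ω.2 i) = 0 := by
      unfold sparse
      simp
    rw [this, mul_zero, zero_add]
    simp [numRoots]
  set aR : ι → ℝ := fun i => a i with haR
  set bR : κ → ℝ := fun i => b i with hbR
  set α : ι → ℝ := fun i => Real.log |σ i| with hα
  set β : κ → ℝ := fun i => Real.log |τ i| with hβ
  set e : ℝ → ι → ℝ := fun s i => s ^ a i * (σ i / |σ i|) with he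
  set e' : ℝ → κ → ℝ := fun s i => s ^ b i * (τ i / |τ i|) with he'
  have hea : ∀ s : ℝ, |s| = 1 → ∀ i, |e s i| = 1 := by
    intro s hs i
    have := abs_pos.2 (hσ i)
    rw [he]
    simp only
    rw [abs_mul, abs_pow, hs, one_pow, one_mul, abs_div, abs_abs, div_self this.ne']
  have hea' : ∀ s : ℝ, |s| = 1 → ∀ i, |e' s i| = 1 := by
    intro s hs i
    have := abs_pos.2 (hτ i)
    rw [he']
    simp only
    rw [abs_mul, abs_pow, hs, one_pow, one_mul, abs_div, abs_abs, div_self this.ne']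
  have heval : ∀ ω : (ι → ℝ) × (κ → ℝ), ∀ s u : ℝ,
      (sparse a (fun i => σ i * ω.1 i) * sparse b (fun j => τ j * ω.2 j) + 1).eval
        (s * Real.exp u) = FF aR α bR β (mulMap (e s) (e' s) ω) u := by
    intro ω s u
    rw [eval_add, eval_mul, eval_one, eval_sparse a hσ, eval_sparse b hτ]
    rfl
  refine ⟨fun ω => 1 + maj aR α bR β (e 1) (e' 1) ω + maj aR α bR β (e (-1)) (e' (-1)) ω,
    (measurable_const.add (measurable_maj _ _ _ _ _ _)).add (measurable_maj _ _ _ _ _ _),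
    fun ω => ?_, ?_⟩
  · set p := sparse a (fun i => σ i * ω.1 i) * sparse b (fun j => τ j * ω.2 j) + 1 with hp
    by_cases hp0 : p = 0
    · rw [hp0]
      simp [numRoots]
    obtain ⟨h1, h2, h3⟩ := numRoots_le hp0 (F := FF aR α bR β (mulMap (e 1) (e' 1) ω))
      (G := FF aR α bR β (mulMap (e (-1)) (e' (-1)) ω))
      (fun u => by rw [← heval, one_mul]) (fun u => by rw [← heval, neg_one_mul])
    have h4 := ncard_le_kacLim (fun u => hasDerivAt_FF aR α bR β (mulMap (e 1) (e' 1) ω) u)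
      (continuous_FD aR α bR β _) h1
    have h5 := ncard_le_kacLim (fun u => hasDerivAt_FF aR α bR β (mulMap (e (-1)) (e' (-1)) ω) u)
      (continuous_FD aR α bR β _) h2
    calc (numRoots p : ℝ≥0∞) ≤ ((1 + {u | FF aR α bR β (mulMap (e 1) (e' 1) ω) u = 0}.ncard +
          {u | FF aR α bR β (mulMap (e (-1)) (e' (-1)) ω) u = 0}.ncard : ℕ) : ℝ≥0∞) := by
          exact_mod_cast h3
      _ = 1 + ({u | FF aR α bR β (mulMap (e 1) (e' 1) ω) u = 0}.ncard : ℝ≥0∞) +
          ({u | FF aR α bR β (mulMap (e (-1)) (e' (-1)) ω) u = 0}.ncard : ℝ≥0∞) := by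
          push_cast
          rfl
      _ ≤ _ := add_le_add (add_le_add le_rfl h4) h5
  · have h1 := lintegral_maj μ ν hμ hν hμ1 hν1 (a := aR) (α := α) (b := bR) (β := β)
      (fun k => Nat.cast_nonneg _) (fun k => Nat.cast_nonneg _) (hea 1 (by norm_num))
      (hea' 1 (by norm_num))
    have h2 := lintegral_maj μ ν hμ hν hμ1 hν1 (a := aR) (α := α) (b := bR) (β := β)
      (fun k => Nat.cast_nonneg _) (fun k => Nat.cast_nonneg _) (hea (-1) (by norm_num))
      (hea' (-1) (by norm_num))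
    have h3 := half_le μ hμ hμ1
    have hc : (2 : ℝ≥0∞) ≤ Fintype.card ι + Fintype.card κ := by
      have h4 : 1 ≤ Fintype.card ι := Fintype.card_pos
      have h5 : 1 ≤ Fintype.card κ := Fintype.card_pos
      have h6 : 2 ≤ Fintype.card ι + Fintype.card κ := by omega
      exact_mod_cast h6
    calc ∫⁻ ω, (1 + maj aR α bR β (e 1) (e' 1) ω + maj aR α bR β (e (-1)) (e' (-1)) ω)
          ∂((Measure.pi μ).prod (Measure.pi ν))
        = 1 + ∫⁻ ω, maj aR α bR β (e 1) (e' 1) ω ∂((Measure.pi μ).prod (Measure.pi ν)) +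
          ∫⁻ ω, maj aR α bR β (e (-1)) (e' (-1)) ω ∂((Measure.pi μ).prod (Measure.pi ν)) := by
          rw [lintegral_add_right _ (measurable_maj _ _ _ _ _ _),
            lintegral_add_right _ (measurable_maj _ _ _ _ _ _)]
          simp
      _ ≤ (Fintype.card ι + Fintype.card κ) * K + 5 * (Fintype.card ι + Fintype.card κ) * K +
          5 * (Fintype.card ι + Fintype.card κ) * K := by
          refine add_le_add (add_le_add (h3.trans ?_) h1) h2
          exact mul_le_mul_left hc K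
      _ = _ := by ring

end Exp

end Pool.Agent.Lib.MP_c11b14_lc.Sm
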