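import Pool.Agent.Lib.MP_c11b14_lc.Sm.Main
import Pool.Agent.Lib.MP_c11b14_lc.Sm.Log

/-!
# The expected number of real roots, with a logarithm
-/

set_option autoImplicit false

namespace Pool.Agent.Lib.MP_c11b14_lc.Sm

open MeasureTheory Set Filter Polynomial
open scoped ENNReal

variable {ι κ : Type} [Fintype ι] [Fintype κ]

theorem law_center {μ : Measure ℝ} {c w e : ℝ} (hμ : ∀ᵐ x ∂μ, |x - c| ≤ w) :
    ∀ᵐ x ∂(μ.map (e * ·)), |x - e * c| ≤ |e| * w := by
  rw [ae_map_iff (by fun_prop) (measurableSet_le (by fun_prop) measurable_const)]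
  filter_upwards [hμ] with x hx
  rw [← mul_sub, abs_mul]
  exact mul_le_mul_of_nonneg_left hx (abs_nonneg e)

section Exp

variable (μ : ι → Measure ℝ) (ν : κ → Measure ℝ) [∀ i, IsProbabilityMeasure (μ i)]
  [∀ j, IsProbabilityMeasure (ν j)]

theorem lintegral_maj_log [DecidableEq ι] [DecidableEq κ] {w k : ℝ} (hw : 0 < w) (hw1 : w ≤ 1 / 2)
    (hk : 1 ≤ k)
    (hμ : ∀ i, μ i ≤ ENNReal.ofReal (k / (2 * w)) • (volume : Measure ℝ))
    (hν : ∀ j, ν j ≤ ENNReal.ofReal (k / (2 * w)) • (volume : Measure ℝ))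
    (hμ1 : ∀ i, ∀ᵐ x ∂(μ i), |x| ≤ 1) (hν1 : ∀ j, ∀ᵐ x ∂(ν j), |x| ≤ 1)
    {c : ι → ℝ} {d : κ → ℝ}
    (hc : ∀ i, ∀ᵐ x ∂(μ i), |x - c i| ≤ w) (hd : ∀ j, ∀ᵐ x ∂(ν j), |x - d j| ≤ w)
    {a α : ι → ℝ} {b β : κ → ℝ} (ha : ∀ k, 0 ≤ a k) (hb : ∀ k, 0 ≤ b k) [Nonempty ι] [Nonempty κ]
    {e : ι → ℝ} {e' : κ → ℝ} (he : ∀ i, |e i| = 1) (he' : ∀ j, |e' j| = 1) :
    ∫⁻ ω, maj a α b β e e' ω ∂((Measure.pi μ).prod (Measure.pi ν)) ≤
      ENNReal.ofReal (1425 * k ^ 2 * (Fintype.card ι + Fintype.card κ) *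
        Real.log (2 * (Fintype.card ι + Fintype.card κ) / w)) := by
  have i1 := fun i => law_prob (μ i) (e i)
  have i2 := fun j => law_prob (ν j) (e' j)
  have he0 : ∀ i, e i ≠ 0 := fun i h => by
    have := he i
    rw [h, abs_zero] at this
    exact zero_ne_one this
  have he0' : ∀ i, e' i ≠ 0 := fun i h => by
    have := he' i
    rw [h, abs_zero] at this
    exact zero_ne_one this
  have hmp := (mp_mul μ e).prod (mp_mul ν e')
  have h1 := hmp.lintegral_comp (measurable_kacLim a α b β)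
  have h2 : ∫⁻ ω, maj a α b β e e' ω ∂((Measure.pi μ).prod (Measure.pi ν)) =
      ∫⁻ ω, kacLim (FF a α b β ω) (FD a α b β ω) ∂((Measure.pi fun i => (μ i).map (e i * ·)).prod
        (Measure.pi fun j => (ν j).map (e' j * ·))) := h1
  rw [h2]
  refine kacLim_log _ _ hw hw1 hk (fun i => ?_) (fun j => ?_) (fun i => ?_) (fun j => ?_)
    (c := fun i => e i * c i) (d := fun j => e' j * d j) (fun i => ?_) (fun j => ?_) ha hb
  · refine (law_le (hμ i) (he0 i)).trans (le_of_eq ?_)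
    rw [abs_inv, he i]
    simp
  · refine (law_le (hν j) (he0' j)).trans (le_of_eq ?_)
    rw [abs_inv, he' j]
    simp
  · exact law_ae (hμ1 i) (by rw [he i]; norm_num)
  · exact law_ae (hν1 j) (by rw [he' j]; norm_num)
  · have := law_center (e := e i) (hc i)
    rwa [he i, one_mul] at this
  · have := law_center (e := e' j) (hd j)
    rwa [he' j, one_mul] at this

/-- The number of real roots is at most the sum of the majorants. -/
theorem numRoots_le_maj (a : ι → ℕ) (b : κ → ℕ) {σ : ι → ℝ} {τ : κ → ℝ} (hσ : ∀ i, σ i ≠ 0)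
    (hτ : ∀ j, τ j ≠ 0) (ω : (ι → ℝ) × (κ → ℝ)) :
    (numRoots (sparse a (fun i => σ i * ω.1 i) * sparse b (fun j => τ j * ω.2 j) + 1) : ℝ≥0∞) ≤
      1 + maj (fun i => (a i : ℝ)) (fun i => Real.log |σ i|) (fun i => (b i : ℝ))
        (fun i => Real.log |τ i|) (fun i => 1 ^ a i * (σ i / |σ i|))
        (fun i => 1 ^ b i * (τ i / |τ i|)) ω +
      maj (fun i => (a i : ℝ)) (fun i => Real.log |σ i|) (fun i => (b i : ℝ))
        (fun i => Real.log |τ i|) (fun i => (-1) ^ a i * (σ i / |σ i|))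
        (fun i => (-1) ^ b i * (τ i / |τ i|)) ω := by
  classical
  set aR : ι → ℝ := fun i => a i with haR
  set bR : κ → ℝ := fun i => b i with hbR
  set α : ι → ℝ := fun i => Real.log |σ i| with hα
  set β : κ → ℝ := fun i => Real.log |τ i| with hβ
  set e : ℝ → ι → ℝ := fun s i => s ^ a i * (σ i / |σ i|) with he
  set e' : ℝ → κ → ℝ := fun s i => s ^ b i * (τ i / |τ i|) with he'
  have heval : ∀ ω : (ι → ℝ) × (κ → ℝ), ∀ s u : ℝ,
      (sparse a (fun i => σ i * ω.1 i) * sparse b (fun j => τ j * ω.2 j) + 1).eval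
        (s * Real.exp u) = FF aR α bR β (mulMap (e s) (e' s) ω) u := by
    intro ω s u
    rw [eval_add, eval_mul, eval_one, eval_sparse a hσ, eval_sparse b hτ]
    rfl
  set p := sparse a (fun i => σ i * ω.1 i) * sparse b (fun j => τ j * ω.2 j) + 1 with hp
  by_cases hp0 : p = 0
  · rw [hp0]
    simp [numRoots]
  obtain ⟨h1, h2, h3⟩ := numRoots_le hp0 (F := FF aR α bR β (mulMap (e 1) (e' 1) ω))
    (G := FF aR α bR β (mulMap (e (-1)) (e' (-1)) ω))
    (fun u => by rw [← heval, one_mul]) (fun u => by rw [← heval, neg_one_mul])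
  have h4 := ncard_le_kacLim (fun u => hasDerivAt_FF aR α bR β (mulMap (e 1) (e' 1) ω) u)
    (continuous_FD aR α bR β _) h1
  have h5 := ncard_le_kacLim (fun u => hasDerivAt_FF aR α bR β (mulMap (e (-1)) (e' (-1)) ω) u)
    (continuous_FD aR α bR β _) h2
  calc (numRoots p : ℝ≥0∞) ≤ ((1 + {u | FF aR α bR β (mulMap (e 1) (e' 1) ω) u = 0}.ncard +
        {u | FF aR α bR β (mulMap (e (-1)) (e' (-1)) ω) u = 0}.ncard : ℕ) : ℝ≥0∞) := by
        exact_mod_cast h3
    _ = 1 + ({u | FF aR α bR β (mulMap (e 1) (e' 1) ω) u = 0}.ncard : ℝ≥0∞) +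
        ({u | FF aR α bR β (mulMap (e (-1)) (e' (-1)) ω) u = 0}.ncard : ℝ≥0∞) := by
        push_cast
        rfl
    _ ≤ _ := add_le_add (add_le_add le_rfl h4) h5

theorem abs_sign_eq {s x : ℝ} (hs : |s| = 1) (n : ℕ) (hx : x ≠ 0) : |s ^ n * (x / |x|)| = 1 := by
  have := abs_pos.2 hx
  rw [abs_mul, abs_pow, hs, one_pow, one_mul, abs_div, abs_abs, div_self this.ne']

/-- **Theorem A, with a logarithm.** -/
theorem main_A_log {w k : ℝ} (hw : 0 < w) (hw1 : w ≤ 1 / 2)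
    (hk : 1 ≤ k)
    (hμ : ∀ i, μ i ≤ ENNReal.ofReal (k / (2 * w)) • (volume : Measure ℝ))
    (hν : ∀ j, ν j ≤ ENNReal.ofReal (k / (2 * w)) • (volume : Measure ℝ))
    (hμ1 : ∀ i, ∀ᵐ x ∂(μ i), |x| ≤ 1) (hν1 : ∀ j, ∀ᵐ x ∂(ν j), |x| ≤ 1)
    {c : ι → ℝ} {d : κ → ℝ}
    (hc : ∀ i, ∀ᵐ x ∂(μ i), |x - c i| ≤ w) (hd : ∀ j, ∀ᵐ x ∂(ν j), |x - d j| ≤ w)
    (a : ι → ℕ) (b : κ → ℕ) {σ : ι → ℝ} {τ : κ → ℝ} (hσ : ∀ i, σ i ≠ 0) (hτ : ∀ j, τ j ≠ 0) :
    ∃ H : (ι → ℝ) × (κ → ℝ) → ℝ≥0∞, Measurable H ∧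
      (∀ ω, (numRoots (sparse a (fun i => σ i * ω.1 i) * sparse b (fun j => τ j * ω.2 j) + 1) :
        ℝ≥0∞) ≤ H ω) ∧
      ∫⁻ ω, H ω ∂((Measure.pi μ).prod (Measure.pi ν)) ≤
        ENNReal.ofReal (3000 * k ^ 2 * (Fintype.card ι + Fintype.card κ) *
          Real.log (2 * (Fintype.card ι + Fintype.card κ) / w)) := by
  classical
  rcases isEmpty_or_nonempty ι with hι | hι
  · refine ⟨fun _ => 0, measurable_const, fun ω => ?_, by simp⟩
    have : sparse a (fun i => σ i * ω.1 i) = 0 := by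
      unfold sparse
      simp
    rw [this, zero_mul, zero_add]
    simp [numRoots]
  rcases isEmpty_or_nonempty κ with hκ | hκ
  · refine ⟨fun _ => 0, measurable_const, fun ω => ?_, by simp⟩
    have : sparse b (fun i => τ i * ω.2 i) = 0 := by
      unfold sparse
      simp
    rw [this, mul_zero, zero_add]
    simp [numRoots]
  refine ⟨_, ?_, numRoots_le_maj a b hσ hτ, ?_⟩
  · exact (measurable_const.add (measurable_maj _ _ _ _ _ _)).add (measurable_maj _ _ _ _ _ _)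
  · have h1 := lintegral_maj_log μ ν hw hw1 hk hμ hν hμ1 hν1 hc hd (a := fun i => (a i : ℝ))
      (α := fun i => Real.log |σ i|) (b := fun i => (b i : ℝ)) (β := fun i => Real.log |τ i|)
      (fun k => Nat.cast_nonneg _) (fun k => Nat.cast_nonneg _)
      (e := fun i => 1 ^ a i * (σ i / |σ i|)) (e' := fun i => 1 ^ b i * (τ i / |τ i|))
      (fun i => abs_sign_eq (by norm_num) _ (hσ i)) (fun i => abs_sign_eq (by norm_num) _ (hτ i))
    have h2 := lintegral_maj_log μ ν hw hw1 hk hμ hν hμ1 hν1 hc hd (a := fun i => (a i : ℝ))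
      (α := fun i => Real.log |σ i|) (b := fun i => (b i : ℝ)) (β := fun i => Real.log |τ i|)
      (fun k => Nat.cast_nonneg _) (fun k => Nat.cast_nonneg _)
      (e := fun i => (-1) ^ a i * (σ i / |σ i|)) (e' := fun i => (-1) ^ b i * (τ i / |τ i|))
      (fun i => abs_sign_eq (by norm_num) _ (hσ i)) (fun i => abs_sign_eq (by norm_num) _ (hτ i))
    have hs1 : (1 : ℝ) ≤ Fintype.card ι := by exact_mod_cast Fintype.card_pos (α := ι)
    have ht1 : (1 : ℝ) ≤ Fintype.card κ := by exact_mod_cast Fintype.card_pos (α := κ)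
    obtain ⟨N, hNdef⟩ : ∃ N : ℝ, N = Fintype.card ι + Fintype.card κ := ⟨_, rfl⟩
    rw [← hNdef] at h1 h2 ⊢
    have hN2 : 2 ≤ N := by linarith
    obtain ⟨-, -, -, -, f5⟩ := num_facts hN2 hw hw1
    calc ∫⁻ ω, (1 + maj (fun i => (a i : ℝ)) (fun i => Real.log |σ i|) (fun i => (b i : ℝ))
            (fun i => Real.log |τ i|) (fun i => 1 ^ a i * (σ i / |σ i|))
            (fun i => 1 ^ b i * (τ i / |τ i|)) ω +
          maj (fun i => (a i : ℝ)) (fun i => Real.log |σ i|) (fun i => (b i : ℝ))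
            (fun i => Real.log |τ i|) (fun i => (-1) ^ a i * (σ i / |σ i|))
            (fun i => (-1) ^ b i * (τ i / |τ i|)) ω)
          ∂((Measure.pi μ).prod (Measure.pi ν))
        = 1 + ∫⁻ ω, maj (fun i => (a i : ℝ)) (fun i => Real.log |σ i|) (fun i => (b i : ℝ))
            (fun i => Real.log |τ i|) (fun i => 1 ^ a i * (σ i / |σ i|))
            (fun i => 1 ^ b i * (τ i / |τ i|)) ω ∂((Measure.pi μ).prod (Measure.pi ν)) +
          ∫⁻ ω, maj (fun i => (a i : ℝ)) (fun i => Real.log |σ i|) (fun i => (b i : ℝ))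
            (fun i => Real.log |τ i|) (fun i => (-1) ^ a i * (σ i / |σ i|))
            (fun i => (-1) ^ b i * (τ i / |τ i|)) ω ∂((Measure.pi μ).prod (Measure.pi ν)) := by
          rw [lintegral_add_right _ (measurable_maj _ _ _ _ _ _),
            lintegral_add_right _ (measurable_maj _ _ _ _ _ _)]
          simp
      _ ≤ 1 + ENNReal.ofReal (1425 * k ^ 2 * N * Real.log (2 * N / w)) +
          ENNReal.ofReal (1425 * k ^ 2 * N * Real.log (2 * N / w)) :=
          add_le_add (add_le_add le_rfl h1) h2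
      _ = ENNReal.ofReal (1 + 1425 * k ^ 2 * N * Real.log (2 * N / w) +
          1425 * k ^ 2 * N * Real.log (2 * N / w)) := by
          rw [ENNReal.ofReal_add (by positivity) (by positivity),
            ENNReal.ofReal_add (by norm_num) (by positivity), ENNReal.ofReal_one]
      _ ≤ _ := by
          refine ENNReal.ofReal_le_ofReal ?_
          have g1 := mul_le_mul hN2 f5 (by norm_num) (by linarith)
          have g2 : 1 ≤ k ^ 2 := one_le_pow₀ hk
          have g3 : 1 * 4 ≤ k ^ 2 * (N * Real.log (2 * N / w)) :=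
            mul_le_mul g2 (by linarith) (by norm_num) (by positivity)
          nlinarith

end Exp

end Pool.Agent.Lib.MP_c11b14_lc.Sm
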