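import Pool.Agent.Lib.MP_c11b14_lc.Sm.MainLog

/-!
# Independent noise on the coefficients of arbitrary polynomials
-/

set_option autoImplicit false

namespace Pool.Agent.Lib.MP_c11b14_lc.Sm

open MeasureTheory Set Filter Polynomial
open scoped ENNReal

section Law

variable {μ : Measure ℝ} {ρ c r A : ℝ}

theorem ae_mem_of_le {C : ℝ≥0∞}
    (hμ : μ ≤ C • (volume : Measure ℝ).restrict (Icc (A - r) (A + r))) :
    ∀ᵐ x ∂μ, x ∈ Icc (A - r) (A + r) :=
  hμ.absolutelyContinuous.ae_le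
    (Measure.ae_smul_measure (ae_restrict_mem measurableSet_Icc) C)

theorem scaled_density (hρ : 0 < ρ) (hr : 0 < r)
    (hμ : μ ≤ ENNReal.ofReal (c / (2 * r)) • (volume : Measure ℝ).restrict (Icc (A - r) (A + r))) :
    μ.map (ρ / (1 + ρ) / r * ·) ≤
      ENNReal.ofReal (c / (2 * (ρ / (1 + ρ)))) • (volume : Measure ℝ) := by
  have h1ρ : (0 : ℝ) < 1 + ρ := by linarith
  have h0 : μ ≤ ENNReal.ofReal (c / (2 * r)) • (volume : Measure ℝ) := by
    refine hμ.trans (Measure.le_iff.2 fun S _ => ?_)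
    rw [Measure.smul_apply, Measure.smul_apply, smul_eq_mul, smul_eq_mul]
    gcongr
    exact Measure.restrict_le_self
  refine (law_le h0 (by positivity)).trans (le_of_eq ?_)
  rw [← ENNReal.ofReal_mul (abs_nonneg _), abs_of_pos (by positivity)]
  congr 2
  field_simp

theorem scaled_abs (hρ : 0 < ρ) (hr : 0 < r) (hA : ρ * |A| ≤ r) {C : ℝ≥0∞}
    (hμ : μ ≤ C • (volume : Measure ℝ).restrict (Icc (A - r) (A + r))) :
    ∀ᵐ x ∂(μ.map (ρ / (1 + ρ) / r * ·)), |x| ≤ 1 := by
  have h1ρ : (0 : ℝ) < 1 + ρ := by linarith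
  refine law_ae (R := |A| + r) ?_ ?_
  · filter_upwards [ae_mem_of_le hμ] with x hx
    have h1 := le_abs_self A
    have h2 := neg_abs_le A
    rw [abs_le]
    constructor <;> linarith [hx.1, hx.2]
  · rw [abs_of_pos (by positivity), div_div, div_mul_eq_mul_div, div_le_one (by positivity)]
    nlinarith

theorem scaled_center (hρ : 0 < ρ) (hr : 0 < r) {C : ℝ≥0∞}
    (hμ : μ ≤ C • (volume : Measure ℝ).restrict (Icc (A - r) (A + r))) :
    ∀ᵐ x ∂(μ.map (ρ / (1 + ρ) / r * ·)), |x - ρ / (1 + ρ) / r * A| ≤ ρ / (1 + ρ) := by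
  have h1ρ : (0 : ℝ) < 1 + ρ := by linarith
  have h1 : ∀ᵐ x ∂μ, |x - A| ≤ r := by
    filter_upwards [ae_mem_of_le hμ] with x hx
    rw [abs_le]
    constructor <;> linarith [hx.1, hx.2]
  have h2 := law_center (e := ρ / (1 + ρ) / r) h1
  have h3 : |ρ / (1 + ρ) / r| * r = ρ / (1 + ρ) := by
    rw [abs_of_pos (by positivity)]
    field_simp
  rwa [h3] at h2

end Law

section Model

variable {ι κ : Type} [Fintype ι] [Fintype κ]

/-- **The expected number of real roots.** -/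
theorem model (a : ι → ℕ) (b : κ → ℕ) (A r : ι → ℝ) (B q : κ → ℝ) (μ : ι → Measure ℝ)
    (ν : κ → Measure ℝ) [∀ i, IsProbabilityMeasure (μ i)] [∀ j, IsProbabilityMeasure (ν j)]
    (ρ c : ℝ) (hρ : 0 < ρ) (hρ1 : ρ ≤ 1) (hc : 1 ≤ c) (hr : ∀ i, 0 < r i ∧ ρ * |A i| ≤ r i)
    (hq : ∀ j, 0 < q j ∧ ρ * |B j| ≤ q j)
    (hμ : ∀ i, μ i ≤ ENNReal.ofReal (c / (2 * r i)) •
      (volume : Measure ℝ).restrict (Icc (A i - r i) (A i + r i)))
    (hν : ∀ j, ν j ≤ ENNReal.ofReal (c / (2 * q j)) •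
      (volume : Measure ℝ).restrict (Icc (B j - q j) (B j + q j))) :
    ∃ H : (ι → ℝ) × (κ → ℝ) → ℝ≥0∞, Measurable H ∧
      (∀ ω, (numRoots (sparse a ω.1 * sparse b ω.2 + 1) : ℝ≥0∞) ≤ H ω) ∧
      ∫⁻ ω, H ω ∂((Measure.pi μ).prod (Measure.pi ν)) ≤
        ENNReal.ofReal (min (11 * c * (Fintype.card ι + Fintype.card κ) / ρ)
          (3000 * c ^ 2 * (Fintype.card ι + Fintype.card κ) *
            Real.log (4 * (Fintype.card ι + Fintype.card κ) / ρ))) := by
  have h1ρ : (0 : ℝ) < 1 + ρ := by linarith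
  have hw : 0 < ρ / (1 + ρ) := by positivity
  have hw1 : ρ / (1 + ρ) ≤ 1 / 2 := by
    rw [div_le_div_iff₀ h1ρ (by norm_num)]
    linarith
  have hc0 : 0 < c := by linarith
  set t : ι → ℝ := fun i => ρ / (1 + ρ) / r i with ht
  set t' : κ → ℝ := fun j => ρ / (1 + ρ) / q j with ht'
  have ht0 : ∀ i, 0 < t i := fun i => div_pos hw (hr i).1
  have ht0' : ∀ j, 0 < t' j := fun j => div_pos hw (hq j).1
  have i1 := fun i => law_prob (μ i) (t i)
  have i2 := fun j => law_prob (ν j) (t' j)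
  have d1 := fun i => scaled_density hρ (hr i).1 (hμ i)
  have d2 := fun j => scaled_density hρ (hq j).1 (hν j)
  have e1 := fun i => scaled_abs hρ (hr i).1 (hr i).2 (hμ i)
  have e2 := fun j => scaled_abs hρ (hq j).1 (hq j).2 (hν j)
  have f1 := fun i => scaled_center hρ (hr i).1 (hμ i)
  have f2 := fun j => scaled_center hρ (hq j).1 (hν j)
  obtain ⟨H1, mH1, hH1, hint1⟩ := main_A (fun i => (μ i).map (t i * ·))
    (fun j => (ν j).map (t' j * ·)) d1 d2 e1 e2 a b (σ := fun i => (t i)⁻¹)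
    (τ := fun j => (t' j)⁻¹) (fun i => inv_ne_zero (ht0 i).ne') (fun j => inv_ne_zero (ht0' j).ne')
  obtain ⟨H2, mH2, hH2, hint2⟩ := main_A_log (fun i => (μ i).map (t i * ·))
    (fun j => (ν j).map (t' j * ·)) hw hw1 hc d1 d2 e1 e2 (c := fun i => t i * A i)
    (d := fun j => t' j * B j) f1 f2 a b (σ := fun i => (t i)⁻¹)
    (τ := fun j => (t' j)⁻¹) (fun i => inv_ne_zero (ht0 i).ne') (fun j => inv_ne_zero (ht0' j).ne')
  have hmp := (mp_mul μ t).prod (mp_mul ν t')
  refine ⟨fun ω => min (H1 (mulMap t t' ω)) (H2 (mulMap t t' ω)),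
    (mH1.comp (measurable_mulMap _ _)).min (mH2.comp (measurable_mulMap _ _)), fun ω => ?_, ?_⟩
  · have h1 : ∀ ξ : ι → ℝ, (fun i => (t i)⁻¹ * (t i * ξ i)) = ξ := fun ξ => by
      funext i
      exact inv_mul_cancel_left₀ (ht0 i).ne' _
    have h2 : ∀ ξ : κ → ℝ, (fun j => (t' j)⁻¹ * (t' j * ξ j)) = ξ := fun ξ => by
      funext j
      exact inv_mul_cancel_left₀ (ht0' j).ne' _
    have h3 := hH1 (mulMap t t' ω)
    have h4 := hH2 (mulMap t t' ω)
    unfold mulMap at h3 h4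
    simp only [h1, h2] at h3 h4
    exact le_min h3 h4
  · have m1 := hmp.lintegral_comp mH1
    have m2 := hmp.lintegral_comp mH2
    have b1 : ∫⁻ ω, min (H1 (mulMap t t' ω)) (H2 (mulMap t t' ω))
        ∂((Measure.pi μ).prod (Measure.pi ν)) ≤
        ENNReal.ofReal (11 * c * (Fintype.card ι + Fintype.card κ) / ρ) := by
      refine (lintegral_mono fun ω => min_le_left _ _).trans ?_
      refine (le_of_eq m1).trans (hint1.trans ?_)
      have hN : (0 : ℝ) ≤ Fintype.card ι + Fintype.card κ := by positivity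
      have h5 : (11 : ℝ≥0∞) * ((Fintype.card ι : ℝ≥0∞) + (Fintype.card κ : ℝ≥0∞)) =
          ENNReal.ofReal (11 * (Fintype.card ι + Fintype.card κ)) := by
        rw [ENNReal.ofReal_mul (by norm_num), ENNReal.ofReal_add (Nat.cast_nonneg _)
          (Nat.cast_nonneg _), ENNReal.ofReal_natCast, ENNReal.ofReal_natCast]
        norm_num
      rw [h5, ← ENNReal.ofReal_mul (by positivity)]
      refine ENNReal.ofReal_le_ofReal ?_
      have h6 : c / (2 * (ρ / (1 + ρ))) ≤ c / ρ := by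
        have h7 : ρ ≤ 2 * (ρ / (1 + ρ)) := by
          rw [mul_div_assoc', le_div_iff₀ h1ρ]
          nlinarith
        exact div_le_div_of_nonneg_left hc0.le hρ h7
      calc 11 * ((Fintype.card ι : ℝ) + Fintype.card κ) * (c / (2 * (ρ / (1 + ρ))))
          ≤ 11 * ((Fintype.card ι : ℝ) + Fintype.card κ) * (c / ρ) :=
            mul_le_mul_of_nonneg_left h6 (by positivity)
        _ = _ := by ring
    have b2 : ∫⁻ ω, min (H1 (mulMap t t' ω)) (H2 (mulMap t t' ω))
        ∂((Measure.pi μ).prod (Measure.pi ν)) ≤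
        ENNReal.ofReal (3000 * c ^ 2 * (Fintype.card ι + Fintype.card κ) *
          Real.log (4 * (Fintype.card ι + Fintype.card κ) / ρ)) := by
      refine (lintegral_mono fun ω => min_le_right _ _).trans ?_
      refine (le_of_eq m2).trans (hint2.trans (ENNReal.ofReal_le_ofReal ?_))
      rcases Nat.eq_zero_or_pos (Fintype.card ι + Fintype.card κ) with h | h
      · have : (Fintype.card ι : ℝ) + Fintype.card κ = 0 := by exact_mod_cast h
        rw [this]
        simp
      · have hN : (1 : ℝ) ≤ (Fintype.card ι : ℝ) + Fintype.card κ := by exact_mod_cast h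
        obtain ⟨N, hNdef⟩ : ∃ N : ℝ, N = (Fintype.card ι : ℝ) + Fintype.card κ := ⟨_, rfl⟩
        rw [← hNdef] at hN ⊢
        refine mul_le_mul_of_nonneg_left (Real.log_le_log (by positivity) ?_) (by positivity)
        rw [div_div_eq_mul_div, div_le_div_iff_of_pos_right hρ]
        nlinarith
    rcases min_choice (11 * c * (Fintype.card ι + Fintype.card κ) / ρ)
      (3000 * c ^ 2 * (Fintype.card ι + Fintype.card κ) *
        Real.log (4 * (Fintype.card ι + Fintype.card κ) / ρ)) with h | h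
    · rw [h]
      exact b1
    · rw [h]
      exact b2

end Model

end Pool.Agent.Lib.MP_c11b14_lc.Sm
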