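import Mathlib

/-!
# Linear forms in independent variables with bounded densities
-/

set_option autoImplicit false

namespace Pool.Agent.Lib.MP_c11b14_lc.Sm

open MeasureTheory Set
open scoped ENNReal

/-- One variable. -/
theorem one_dim {μ : Measure ℝ} {K : ℝ≥0∞} (hμ : μ ≤ K • (volume : Measure ℝ)) (c d : ℝ) {ε : ℝ}
    (hε : 0 ≤ ε) :
    ENNReal.ofReal |c| * μ {x | |c * x + d| < ε} ≤ K * ENNReal.ofReal (2 * ε) := by
  rcases eq_or_ne c 0 with rfl | hc
  · simp
  have hc' : 0 < |c| := abs_pos.2 hc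
  have hset : {x : ℝ | |c * x + d| < ε} = Metric.ball (-d / c) (ε / |c|) := by
    ext x
    rw [Set.mem_ofPred_eq, Metric.mem_ball, Real.dist_eq, lt_div_iff₀ hc', ← abs_mul]
    have h1 : (x - -d / c) * c = c * x + d := by
      field_simp
      ring
    rw [h1]
  calc ENNReal.ofReal |c| * μ {x | |c * x + d| < ε}
      ≤ ENNReal.ofReal |c| * (K • (volume : Measure ℝ)) {x | |c * x + d| < ε} := by
        gcongr
    _ = ENNReal.ofReal |c| * (K * ENNReal.ofReal (2 * (ε / |c|))) := by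
        rw [Measure.smul_apply, smul_eq_mul, hset, Real.volume_ball]
    _ = K * (ENNReal.ofReal |c| * ENNReal.ofReal (2 * (ε / |c|))) := by ring
    _ = K * ENNReal.ofReal (2 * ε) := by
        rw [← ENNReal.ofReal_mul hc'.le]
        congr 2
        field_simp

theorem pi_le_of_update {ι : Type} [Fintype ι] [DecidableEq ι] (μ : ι → Measure ℝ)
    [∀ i, IsProbabilityMeasure (μ i)] {S : Set (ι → ℝ)} (hS : MeasurableSet S) (i : ι) (b : ℝ≥0∞)
    (h : ∀ ξ : ι → ℝ, μ i {x | Function.update ξ i x ∈ S} ≤ b) : Measure.pi μ S ≤ b := by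
  have h1 : ∫⁻ ξ, S.indicator 1 ξ ∂(Measure.pi μ) ≤ ∫⁻ _, b ∂(Measure.pi μ) := by
    refine lintegral_le_of_lmarginal_le {i} (measurable_one.indicator hS) measurable_const ?_
    intro ξ
    rw [lmarginal_singleton, lmarginal_singleton]
    show ∫⁻ x, S.indicator (1 : (ι → ℝ) → ℝ≥0∞) (Function.update ξ i x) ∂μ i ≤ ∫⁻ _, b ∂μ i
    rw [lintegral_const, measure_univ, mul_one]
    refine le_trans (le_of_eq ?_) (h ξ)
    have h2 : (fun x => S.indicator (1 : (ι → ℝ) → ℝ≥0∞) (Function.update ξ i x)) =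
        ((Function.update ξ i) ⁻¹' S).indicator 1 := by
      funext x
      rfl
    rw [h2, lintegral_indicator_one]
    · rfl
    · exact measurable_update ξ hS
  rwa [lintegral_indicator_one hS, lintegral_const, measure_univ, mul_one] at h1

/-- Linear forms. -/
theorem lin_form {ι : Type} [Fintype ι] [DecidableEq ι] (μ : ι → Measure ℝ)
    [∀ i, IsProbabilityMeasure (μ i)] {K : ℝ≥0∞} (hμ : ∀ i, μ i ≤ K • (volume : Measure ℝ))
    (c : ι → ℝ) (d : ℝ) {ε : ℝ} (hε : 0 ≤ ε) (i : ι) :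
    ENNReal.ofReal |c i| * Measure.pi μ {ξ | |∑ k, c k * ξ k + d| < ε} ≤
      K * ENNReal.ofReal (2 * ε) := by
  rcases eq_or_ne (c i) 0 with hc | hc
  · simp [hc]
  have hc' : 0 < |c i| := abs_pos.2 hc
  have hc0 : ENNReal.ofReal |c i| ≠ 0 := by
    rw [Ne, ENNReal.ofReal_eq_zero, not_le]
    exact hc'
  rw [mul_comm, ← ENNReal.le_div_iff_mul_le (Or.inl hc0) (Or.inl ENNReal.ofReal_ne_top)]
  refine pi_le_of_update μ ?_ i _ fun ξ => ?_
  · exact measurableSet_lt (by fun_prop) measurable_const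
  rw [ENNReal.le_div_iff_mul_le (Or.inl hc0) (Or.inl ENNReal.ofReal_ne_top), mul_comm]
  refine le_trans (le_of_eq ?_) (one_dim (hμ i) (c i) (∑ k ∈ Finset.univ.erase i, c k * ξ k + d) hε)
  congr 2
  ext x
  simp only [Set.mem_ofPred_eq]
  rw [← Finset.add_sum_erase Finset.univ _ (Finset.mem_univ i), Function.update_self]
  have h1 : ∑ k ∈ Finset.univ.erase i, c k * Function.update ξ i x k =
      ∑ k ∈ Finset.univ.erase i, c k * ξ k := by
    refine Finset.sum_congr rfl fun k hk => ?_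
    rw [Function.update_of_ne (Finset.ne_of_mem_erase hk)]
  rw [h1, add_assoc]

end Pool.Agent.Lib.MP_c11b14_lc.Sm
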