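import Pool.Agent.Lib.MP_c11b14_lc.Sm.Tot

/-!
# Sparse polynomials
-/

set_option autoImplicit false

namespace Pool.Agent.Lib.MP_c11b14_lc.Sm

open MeasureTheory Set Filter Polynomial
open scoped ENNReal

/-- The number of distinct real roots (it is `0` for the zero polynomial). -/
noncomputable def numRoots (p : ℝ[X]) : ℕ := p.roots.toFinset.card

/-- The polynomial `∑ i, c i * X ^ a i`. -/
noncomputable def sparse {ι : Type} [Fintype ι] (a : ι → ℕ) (c : ι → ℝ) : ℝ[X] :=
  ∑ i, C (c i) * X ^ a i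

theorem numRoots_le {p : ℝ[X]} (hp : p ≠ 0) {F G : ℝ → ℝ} (hF : ∀ u, p.eval (Real.exp u) = F u)
    (hG : ∀ u, p.eval (-Real.exp u) = G u) :
    {u | F u = 0}.Finite ∧ {u | G u = 0}.Finite ∧
      numRoots p ≤ 1 + {u | F u = 0}.ncard + {u | G u = 0}.ncard := by
  classical
  have hroots : (p.roots.toFinset : Set ℝ) = {x | p.eval x = 0} := by
    ext x
    simp [hp]
  have hfinp : {x | p.eval x = 0}.Finite := by
    rw [← hroots]
    exact Finset.finite_toSet _
  have hFfin : {u | F u = 0}.Finite := by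
    have h1 : {u | F u = 0} = Real.exp ⁻¹' {x | p.eval x = 0} := by
      ext u
      simp [hF]
    rw [h1]
    exact hfinp.preimage Real.exp_injective.injOn
  have hGfin : {u | G u = 0}.Finite := by
    have h1 : {u | G u = 0} = (fun u => -Real.exp u) ⁻¹' {x | p.eval x = 0} := by
      ext u
      simp [hG]
    rw [h1]
    exact hfinp.preimage (fun x _ y _ h => Real.exp_injective (neg_injective h))
  refine ⟨hFfin, hGfin, ?_⟩
  have hsub : {x | p.eval x = 0} ⊆
      {0} ∪ Real.exp '' {u | F u = 0} ∪ (fun u => -Real.exp u) '' {u | G u = 0} := by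
    intro x hx
    rcases lt_trichotomy x 0 with h | h | h
    · right
      refine ⟨Real.log (-x), ?_, ?_⟩
      · show G _ = 0
        rw [← hG, Real.exp_log (by linarith), neg_neg]
        exact hx
      · simp only
        rw [Real.exp_log (by linarith), neg_neg]
    · left; left
      exact h
    · left; right
      refine ⟨Real.log x, ?_, ?_⟩
      · show F _ = 0
        rw [← hF, Real.exp_log h]
        exact hx
      · rw [Real.exp_log h]
  have h1 : numRoots p = {x | p.eval x = 0}.ncard := by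
    unfold numRoots
    rw [← hroots, Set.ncard_coe_finset]
  rw [h1]
  refine (Set.ncard_le_ncard hsub ?_).trans ?_
  · exact ((finite_singleton 0).union (hFfin.image _)).union (hGfin.image _)
  · refine (Set.ncard_union_le _ _).trans (add_le_add ((Set.ncard_union_le _ _).trans
      (add_le_add (by simp) (Set.ncard_image_le hFfin))) (Set.ncard_image_le hGfin))

theorem eval_sparse {ι : Type} [Fintype ι] (a : ι → ℕ) {σ : ι → ℝ} (hσ : ∀ i, σ i ≠ 0)
    (ξ : ι → ℝ) (s u : ℝ) :
    (sparse a fun i => σ i * ξ i).eval (s * Real.exp u) =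
      ev (fun i => a i) (fun i => Real.log |σ i|)
        (fun i => s ^ a i * (σ i / |σ i|) * ξ i) u := by
  unfold sparse ev
  rw [eval_finsetSum]
  refine Finset.sum_congr rfl fun i _ => ?_
  have h1 : |σ i| ≠ 0 := abs_ne_zero.2 (hσ i)
  have h2 : 0 < |σ i| := abs_pos.2 (hσ i)
  rw [eval_mul, eval_C, eval_pow, eval_X, mul_pow, Real.exp_add, Real.exp_log h2,
    ← Real.exp_nat_mul]
  field_simp

section Mul

variable {ι : Type} [Fintype ι]

theorem law_prob (μ : Measure ℝ) [IsProbabilityMeasure μ] (c : ℝ) :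
    IsProbabilityMeasure (μ.map (c * ·)) :=
  Measure.isProbabilityMeasure_map (by fun_prop)

theorem law_le {μ : Measure ℝ} {K : ℝ≥0∞} (hμ : μ ≤ K • (volume : Measure ℝ)) {c : ℝ}
    (hc : c ≠ 0) : μ.map (c * ·) ≤ (ENNReal.ofReal |c⁻¹| * K) • (volume : Measure ℝ) := by
  refine Measure.le_iff.2 fun S hS => ?_
  rw [Measure.map_apply (by fun_prop) hS]
  refine (hμ _).trans (le_of_eq ?_)
  rw [Measure.smul_apply, Measure.smul_apply, Real.volume_preimage_mul_left hc]
  simp only [smul_eq_mul]
  ring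

theorem law_ae {μ : Measure ℝ} {R c : ℝ} (hμ : ∀ᵐ x ∂μ, |x| ≤ R) (hc : |c| * R ≤ 1) :
    ∀ᵐ x ∂(μ.map (c * ·)), |x| ≤ 1 := by
  rw [ae_map_iff (by fun_prop) (measurableSet_le (by fun_prop) measurable_const)]
  filter_upwards [hμ] with x hx
  rw [abs_mul]
  exact (mul_le_mul_of_nonneg_left hx (abs_nonneg c)).trans hc

theorem mp_mul (μ : ι → Measure ℝ) [∀ i, IsProbabilityMeasure (μ i)] (c : ι → ℝ) :
    MeasurePreserving (fun ξ : ι → ℝ => fun i => c i * ξ i) (Measure.pi μ)
      (Measure.pi fun i => (μ i).map (c i * ·)) := by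
  have := fun i => law_prob (μ i) (c i)
  exact measurePreserving_pi μ (fun i => (μ i).map (c i * ·)) fun i =>
    Measurable.measurePreserving (by fun_prop) (μ i)

end Mul

end Pool.Agent.Lib.MP_c11b14_lc.Sm
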