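import Pool.Agent.Lib.MP_c11b14_lc.Sm.App

/-!
# The total variation of a quotient in a strip
-/

set_option autoImplicit false

namespace Pool.Agent.Lib.MP_c11b14_lc.Sm

open MeasureTheory Set Polynomial
open scoped ENNReal

/-- The rational function and its derivative. -/
noncomputable def rq (P1 P2 P3 : ℝ[X]) (u : ℝ) : ℝ := P1.eval u + P3.eval u / P2.eval u

noncomputable def rq' (P1 P2 P3 : ℝ[X]) (u : ℝ) : ℝ :=
  (derivative P1).eval u + ((derivative P3).eval u * P2.eval u -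
    P3.eval u * (derivative P2).eval u) / (P2.eval u) ^ 2

theorem hasDerivAt_rq (P1 P2 P3 : ℝ[X]) {u : ℝ} (h : P2.eval u ≠ 0) :
    HasDerivAt (rq P1 P2 P3) (rq' P1 P2 P3 u) u :=
  (P1.hasDerivAt u).add ((P3.hasDerivAt u).div (P2.hasDerivAt u) h)

theorem lintegral_rq (P1 P2 P3 : ℝ[X]) {m : ℕ} (hd1 : P1.natDegree ≤ m) (hd2 : P2.natDegree ≤ m)
    (hd3 : P3.natDegree ≤ m) {E : Set ℝ} (hE : MeasurableSet E) :
    ∫⁻ u in {u | P2.eval u ≠ 0} ∩ rq P1 P2 P3 ⁻¹' E, ENNReal.ofReal |rq' P1 P2 P3 u| ≤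
      ((2 * m : ℕ) : ℝ≥0∞) * volume E := by
  classical
  by_cases hP2 : P2 = 0
  · have : {u : ℝ | P2.eval u ≠ 0} = ∅ := by
      ext u
      simp [hP2]
    rw [this, empty_inter, Measure.restrict_empty, lintegral_zero_measure]
    exact zero_le
  set N : ℝ[X] := derivative P1 * P2 ^ 2 + (derivative P3 * P2 - P3 * derivative P2) with hN
  have hrq' : ∀ u, P2.eval u ≠ 0 → rq' P1 P2 P3 u = N.eval u / (P2.eval u) ^ 2 := by
    intro u hu
    unfold rq'
    rw [hN]
    simp only [eval_add, eval_mul, eval_sub, eval_pow]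
    field_simp
  by_cases hN0 : N = 0
  · have h0 : ∀ u ∈ {u | P2.eval u ≠ 0} ∩ rq P1 P2 P3 ⁻¹' E,
        ENNReal.ofReal |rq' P1 P2 P3 u| ≤ 0 := by
      intro u hu
      rw [hrq' u hu.1, hN0]
      simp
    have hm : MeasurableSet ({u | P2.eval u ≠ 0} ∩ rq P1 P2 P3 ⁻¹' E) := by
      have h1 : MeasurableSet {u : ℝ | P2.eval u ≠ 0} :=
        (measurableSet_eq_fun P2.continuous.measurable measurable_const).compl
      have h2 : Measurable (rq P1 P2 P3) := by
        unfold rq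
        exact P1.continuous.measurable.add (P3.continuous.measurable.div P2.continuous.measurable)
      exact h1.inter (h2 hE)
    refine (setLIntegral_mono' hm h0).trans ?_
    simp
  set S : Set ℝ := {u | P2.eval u = 0} ∪ {u | N.eval u = 0} with hS
  have hfin : ∀ P : ℝ[X], P ≠ 0 → {u : ℝ | P.eval u = 0}.Finite := by
    intro P hP
    have : {u : ℝ | P.eval u = 0} = (P.roots.toFinset : Set ℝ) := by
      ext u
      simp [hP]
    rw [this]
    exact Finset.finite_toSet _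
  have hSfin : S.Finite := (hfin P2 hP2).union (hfin N hN0)
  have hnotS : ∀ u, u ∉ S → P2.eval u ≠ 0 ∧ N.eval u ≠ 0 := by
    intro u hu
    rw [hS, mem_union, not_or] at hu
    exact hu
  have key := area_le (φ := rq P1 P2 P3) (φ' := rq' P1 P2 P3) hSfin
    (fun u hu => hasDerivAt_rq P1 P2 P3 (hnotS u hu).1)
    (fun u hu => by
      rw [hrq' u (hnotS u hu).1]
      exact div_ne_zero (hnotS u hu).2 (pow_ne_zero _ (hnotS u hu).1)) (2 * m) (fun y => by
      set M : ℝ[X] := (P1 - C y) * P2 + P3 with hM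
      have hM0 : M ≠ 0 := by
        intro h0
        apply hN0
        have hder : derivative P1 * P2 + (P1 - C y) * derivative P2 + derivative P3 = 0 := by
          have := congrArg derivative h0
          rw [hM] at this
          simp only [derivative_add, derivative_mul, derivative_sub, derivative_C, sub_zero,
            derivative_zero] at this
          exact this
        have h2 : (P1 - C y) * P2 = -P3 := by
          rw [hM] at h0
          exact eq_neg_of_add_eq_zero_left h0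
        have h3 : N = (derivative P1 * P2 + (P1 - C y) * derivative P2 + derivative P3) * P2 -
            ((P1 - C y) * P2 + P3) * derivative P2 := by
          rw [hN]
          ring
        rw [h3, hder, ← hM, h0]
        ring
      have hsub : {u | u ∉ S ∧ rq P1 P2 P3 u = y} ⊆ (M.roots.toFinset : Set ℝ) := by
        rintro u ⟨hu1, hu2⟩
        have h2 := (hnotS u hu1).1
        rw [Finset.mem_coe, Multiset.mem_toFinset, mem_roots hM0, IsRoot.def, hM]
        simp only [eval_add, eval_mul, eval_sub, eval_C]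
        unfold rq at hu2
        rw [← hu2]
        field_simp
        ring
      refine (Set.encard_le_encard hsub).trans ?_
      rw [Set.encard_coe_eq_coe_finsetCard]
      have h4 : M.roots.toFinset.card ≤ 2 * m := by
        refine (Multiset.toFinset_card_le _).trans ((card_roots' M).trans ?_)
        rw [hM]
        refine (natDegree_add_le _ _).trans (max_le ?_ (by omega))
        refine natDegree_mul_le.trans ?_
        have h5 : (P1 - C y).natDegree ≤ m := (natDegree_sub_le _ _).trans (by simpa using hd1)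
        omega
      exact Nat.cast_le.2 h4) hE
  refine (lintegral_mono_set (t := (Sᶜ ∩ rq P1 P2 P3 ⁻¹' E) ∪ S) ?_).trans ?_
  · intro u hu
    by_cases h : u ∈ S
    · exact Or.inr h
    · exact Or.inl ⟨h, hu.2⟩
  · refine (lintegral_union_le _ _ _).trans ?_
    have hS0 : volume S = 0 := hSfin.measure_zero _
    rw [setLIntegral_measure_zero _ _ hS0, add_zero]
    exact key

/-- The comparison of the derivatives. -/
theorem deriv_bound {φ' γ γ' e e' p1' p2 p2' p3 p3' r B η : ℝ} (hη : 0 < η) (hη1 : η ≤ 1)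
    (hB : 1 ≤ B) (hr0 : 0 ≤ r) (hrη : r ≤ η / 2) (hγ : η ≤ |γ|) (h2 : |γ - p2| ≤ r)
    (h3 : |e - p3| ≤ r) (he : |e| ≤ B) :
    |φ' + (e' * γ - e * γ') / γ ^ 2| ≤ |p1' + (p3' * p2 - p3 * p2') / p2 ^ 2| +
      (|φ' - p1'| + 2 / η * |e' - p3'| + 2 * r / η ^ 2 * |e'| + 10 * B * r / η ^ 3 * |γ'| +
        8 * B / η ^ 2 * |γ' - p2'|) := by
  have hγ0 : γ ≠ 0 := by
    intro h
    rw [h, abs_zero] at hγ
    linarith
  have hp2 : η / 2 ≤ |p2| := by
    have h4 : |γ| - |p2| ≤ |γ - p2| := abs_sub_abs_le_abs_sub γ p2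
    linarith
  have hp20 : p2 ≠ 0 := by
    intro h
    rw [h, abs_zero] at hp2
    linarith
  have hg' : 0 < |γ| := abs_pos.2 hγ0
  have hp2' : 0 < |p2| := abs_pos.2 hp20
  have hp3 : |p3| ≤ 2 * B := by
    have h5 : |p3| - |e| ≤ |p3 - e| := abs_sub_abs_le_abs_sub p3 e
    rw [abs_sub_comm] at h5
    linarith
  -- elementary inverse bounds
  have hi1 : 1 / |γ| ≤ 1 / η := one_div_le_one_div_of_le hη hγ
  have hi2 : 1 / |p2| ≤ 2 / η := by
    rw [div_le_div_iff₀ hp2' hη]
    linarith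
  have hd : |1 / γ - 1 / p2| ≤ 2 * r / η ^ 2 := by
    have h6 : 1 / γ - 1 / p2 = (p2 - γ) * ((1 / γ) * (1 / p2)) := by
      field_simp
    rw [h6, abs_mul, abs_mul, abs_div, abs_div, abs_one, abs_sub_comm]
    calc |γ - p2| * (1 / |γ| * (1 / |p2|)) ≤ r * (1 / η * (2 / η)) := by
          gcongr
      _ = 2 * r / η ^ 2 := by
          field_simp
  have hsum : |1 / p2 + 1 / γ| ≤ 3 / η := by
    refine (abs_add_le _ _).trans ?_
    rw [abs_div, abs_div, abs_one]
    calc 1 / |p2| + 1 / |γ| ≤ 2 / η + 1 / η := add_le_add hi2 hi1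
      _ = 3 / η := by ring
  have hq : |p3 / p2 ^ 2 - e / γ ^ 2| ≤ 10 * B * r / η ^ 3 := by
    have h7 : p3 / p2 ^ 2 - e / γ ^ 2 = (p3 - e) * (1 / p2) ^ 2 +
        e * ((1 / p2 - 1 / γ) * (1 / p2 + 1 / γ)) := by
      field_simp
      ring
    rw [h7]
    refine (abs_add_le _ _).trans ?_
    rw [abs_mul, abs_mul, abs_mul, abs_pow, abs_div, abs_one]
    have h8 : |p3 - e| * (1 / |p2|) ^ 2 ≤ r * (2 / η) ^ 2 := by
      rw [abs_sub_comm]
      gcongr
    have h9 : |e| * (|1 / p2 - 1 / γ| * |1 / p2 + 1 / γ|) ≤ B * (2 * r / η ^ 2 * (3 / η)) := by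
      rw [abs_sub_comm (1 / p2)]
      gcongr
    have h10 : r * (2 / η) ^ 2 ≤ 4 * B * r / η ^ 3 := by
      have h11 : r * (2 / η) ^ 2 = 4 * r * η / η ^ 3 := by
        field_simp
        ring
      rw [h11]
      refine div_le_div_of_nonneg_right ?_ (by positivity)
      nlinarith [mul_nonneg hr0 (by linarith : (0 : ℝ) ≤ B - η)]
    have h12 : B * (2 * r / η ^ 2 * (3 / η)) = 6 * B * r / η ^ 3 := by
      field_simp
      ring
    have h13 : 4 * B * r / η ^ 3 + 6 * B * r / η ^ 3 = 10 * B * r / η ^ 3 := by ring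
    linarith
  have hmain : φ' + (e' * γ - e * γ') / γ ^ 2 = (p1' + (p3' * p2 - p3 * p2') / p2 ^ 2) +
      ((φ' - p1') + (e' - p3') * (1 / p2) + e' * (1 / γ - 1 / p2) +
        γ' * (p3 / p2 ^ 2 - e / γ ^ 2) - p3 * (1 / p2) ^ 2 * (γ' - p2')) := by
    field_simp
    ring
  rw [hmain]
  refine (abs_add_le _ _).trans (add_le_add_right ?_ _)
  have t1 : |(e' - p3') * (1 / p2)| ≤ 2 / η * |e' - p3'| := by
    rw [abs_mul, abs_div, abs_one, mul_comm]
    exact mul_le_mul_of_nonneg_right hi2 (abs_nonneg _)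
  have t2 : |e' * (1 / γ - 1 / p2)| ≤ 2 * r / η ^ 2 * |e'| := by
    rw [abs_mul, mul_comm]
    exact mul_le_mul_of_nonneg_right hd (abs_nonneg _)
  have t3 : |γ' * (p3 / p2 ^ 2 - e / γ ^ 2)| ≤ 10 * B * r / η ^ 3 * |γ'| := by
    rw [abs_mul, mul_comm]
    exact mul_le_mul_of_nonneg_right hq (abs_nonneg _)
  have t4 : |p3 * (1 / p2) ^ 2 * (γ' - p2')| ≤ 8 * B / η ^ 2 * |γ' - p2'| := by
    rw [abs_mul, abs_mul, abs_pow, abs_div, abs_one]
    refine mul_le_mul_of_nonneg_right ?_ (abs_nonneg _)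
    calc |p3| * (1 / |p2|) ^ 2 ≤ 2 * B * (2 / η) ^ 2 := by
          gcongr
      _ = 8 * B / η ^ 2 := by
          field_simp
          ring
  calc |φ' - p1' + (e' - p3') * (1 / p2) + e' * (1 / γ - 1 / p2) +
        γ' * (p3 / p2 ^ 2 - e / γ ^ 2) - p3 * (1 / p2) ^ 2 * (γ' - p2')|
      ≤ |φ' - p1'| + |(e' - p3') * (1 / p2)| + |e' * (1 / γ - 1 / p2)| +
        |γ' * (p3 / p2 ^ 2 - e / γ ^ 2)| + |p3 * (1 / p2) ^ 2 * (γ' - p2')| := by
        refine (abs_sub _ _).trans (add_le_add_left ?_ _)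
        refine (abs_add_le _ _).trans (add_le_add_left ?_ _)
        refine (abs_add_le _ _).trans (add_le_add_left ?_ _)
        exact abs_add_le _ _
    _ ≤ _ := by linarith

/-- The comparison of the values. -/
theorem value_bound {φ γ e p1 p2 p3 r B η : ℝ} (hη : 0 < η) (hη1 : η ≤ 1)
    (hB : 1 ≤ B) (hr0 : 0 ≤ r) (hrη : r ≤ η / 2) (hγ : η ≤ |γ|) (h1 : |φ - p1| ≤ r)
    (h2 : |γ - p2| ≤ r) (h3 : |e - p3| ≤ r) (he : |e| ≤ B) :
    p2 ≠ 0 ∧ |φ + e / γ - (p1 + p3 / p2)| ≤ 5 * B * r / η ^ 2 := by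
  have hγ0 : γ ≠ 0 := by
    intro h
    rw [h, abs_zero] at hγ
    linarith
  have hp2 : η / 2 ≤ |p2| := by
    have h4 : |γ| - |p2| ≤ |γ - p2| := abs_sub_abs_le_abs_sub γ p2
    linarith
  have hp20 : p2 ≠ 0 := by
    intro h
    rw [h, abs_zero] at hp2
    linarith
  have hg' : 0 < |γ| := abs_pos.2 hγ0
  have hp2' : 0 < |p2| := abs_pos.2 hp20
  have hi1 : 1 / |γ| ≤ 1 / η := one_div_le_one_div_of_le hη hγ
  have hi2 : 1 / |p2| ≤ 2 / η := by
    rw [div_le_div_iff₀ hp2' hη]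
    linarith
  have hd : |1 / γ - 1 / p2| ≤ 2 * r / η ^ 2 := by
    have h6 : 1 / γ - 1 / p2 = (p2 - γ) * ((1 / γ) * (1 / p2)) := by
      field_simp
    rw [h6, abs_mul, abs_mul, abs_div, abs_div, abs_one, abs_sub_comm]
    calc |γ - p2| * (1 / |γ| * (1 / |p2|)) ≤ r * (1 / η * (2 / η)) := by
          gcongr
      _ = 2 * r / η ^ 2 := by
          field_simp
  refine ⟨hp20, ?_⟩
  have h5 : φ + e / γ - (p1 + p3 / p2) = (φ - p1) + e * (1 / γ - 1 / p2) +
      (e - p3) * (1 / p2) := by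
    field_simp
    ring
  rw [h5]
  refine (abs_add_le _ _).trans ((add_le_add_left (abs_add_le _ _) _).trans ?_)
  rw [abs_mul, abs_mul, abs_div 1 p2, abs_one]
  have t1 : |e| * |1 / γ - 1 / p2| ≤ B * (2 * r / η ^ 2) := by gcongr
  have t2 : |e - p3| * (1 / |p2|) ≤ r * (2 / η) := by gcongr
  have t3 : r ≤ B * r / η ^ 2 := by
    rw [le_div_iff₀ (by positivity)]
    nlinarith [mul_nonneg hr0 (by linarith : (0 : ℝ) ≤ B - 1), mul_nonneg hr0 hη.le,
      mul_nonneg hr0 (by nlinarith : (0 : ℝ) ≤ 1 - η ^ 2)]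
  have t4 : r * (2 / η) ≤ 2 * B * r / η ^ 2 := by
    have h11 : r * (2 / η) = 2 * r * η / η ^ 2 := by
      field_simp
    rw [h11]
    refine div_le_div_of_nonneg_right ?_ (by positivity)
    nlinarith [mul_nonneg hr0 (by linarith : (0 : ℝ) ≤ B - η)]
  have t5 : B * (2 * r / η ^ 2) + B * r / η ^ 2 + 2 * B * r / η ^ 2 = 5 * B * r / η ^ 2 := by ring
  linarith

end Pool.Agent.Lib.MP_c11b14_lc.Sm
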