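import Pool.Agent.Lib.MP_c11b14_lc.Sm.Quot

/-!
# The total variation in a strip, assembled
-/

set_option autoImplicit false

namespace Pool.Agent.Lib.MP_c11b14_lc.Sm

open MeasureTheory Set Polynomial
open scoped ENNReal

theorem strip {T : Set ℝ} (hT : MeasurableSet T) {φ φ' γ γ' e e' : ℝ → ℝ}
    (mφ : Measurable φ) (mγ : Measurable γ) (me : Measurable e)
    (mφ' : Measurable φ') (mγ' : Measurable γ') (me' : Measurable e')
    {P1 P2 P3 : ℝ[X]} {r B Bg η w c : ℝ} {m : ℕ}
    (hη : 0 < η) (hη1 : η ≤ 1) (hB : 1 ≤ B) (hBg : 1 ≤ Bg) (hr0 : 0 ≤ r) (hw : 0 ≤ w)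
    (hrη : r ≤ η / 2)
    (hd1 : P1.natDegree ≤ m) (hd2 : P2.natDegree ≤ m) (hd3 : P3.natDegree ≤ m)
    (h1 : ∀ u ∈ T, |φ u - P1.eval u| ≤ r)
    (h1' : ∫⁻ u in T, ENNReal.ofReal |φ' u - (derivative P1).eval u| ≤ ENNReal.ofReal r)
    (h2 : ∀ u ∈ T, |γ u - P2.eval u| ≤ r)
    (h2' : ∫⁻ u in T, ENNReal.ofReal |γ' u - (derivative P2).eval u| ≤ ENNReal.ofReal r)
    (h3 : ∀ u ∈ T, |e u - P3.eval u| ≤ r)
    (h3' : ∫⁻ u in T, ENNReal.ofReal |e' u - (derivative P3).eval u| ≤ ENNReal.ofReal r)
    (he : ∀ u ∈ T, |e u| ≤ B) (he' : ∫⁻ u in T, ENNReal.ofReal |e' u| ≤ ENNReal.ofReal B)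
    (hγ' : ∫⁻ u in T, ENNReal.ofReal |γ' u| ≤ ENNReal.ofReal Bg)
    (hs : 23 * B * Bg * r / η ^ 3 ≤ w / 2) :
    ∫⁻ u in T ∩ {u | η ≤ |γ u| ∧ |φ u + e u / γ u + c| ≤ 5 / 4 * w},
      ENNReal.ofReal |φ' u + (e' u * γ u - e u * γ' u) / (γ u) ^ 2| ≤
      ENNReal.ofReal ((6 * m + 1 / 2) * w) := by
  set U : Set ℝ := T ∩ {u | η ≤ |γ u| ∧ |φ u + e u / γ u + c| ≤ 5 / 4 * w} with hU
  have hUm : MeasurableSet U := by
    refine hT.inter (MeasurableSet.inter ?_ ?_)
    · exact measurableSet_le measurable_const mγ.abs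
    · exact measurableSet_le ((mφ.add (me.div mγ)).add_const c).abs measurable_const
  have mD1 : Measurable fun u => ENNReal.ofReal |φ' u - (derivative P1).eval u| :=
    (mφ'.sub (derivative P1).continuous.measurable).abs.ennreal_ofReal
  have mD2 : Measurable fun u => ENNReal.ofReal |γ' u - (derivative P2).eval u| :=
    (mγ'.sub (derivative P2).continuous.measurable).abs.ennreal_ofReal
  have mD3 : Measurable fun u => ENNReal.ofReal |e' u - (derivative P3).eval u| :=
    (me'.sub (derivative P3).continuous.measurable).abs.ennreal_ofReal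
  have mE : Measurable fun u => ENNReal.ofReal |e' u| := me'.abs.ennreal_ofReal
  have mG : Measurable fun u => ENNReal.ofReal |γ' u| := mγ'.abs.ennreal_ofReal
  have hpt : ∀ u ∈ U, ENNReal.ofReal |φ' u + (e' u * γ u - e u * γ' u) / (γ u) ^ 2| ≤
      ENNReal.ofReal |rq' P1 P2 P3 u| +
      (ENNReal.ofReal |φ' u - (derivative P1).eval u| +
        ENNReal.ofReal (2 / η) * ENNReal.ofReal |e' u - (derivative P3).eval u| +
        ENNReal.ofReal (2 * r / η ^ 2) * ENNReal.ofReal |e' u| +
        ENNReal.ofReal (10 * B * r / η ^ 3) * ENNReal.ofReal |γ' u| +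
        ENNReal.ofReal (8 * B / η ^ 2) * ENNReal.ofReal |γ' u - (derivative P2).eval u|) := by
    intro u hu
    have h4 := deriv_bound (φ' := φ' u) (γ' := γ' u) (e' := e' u)
      (p1' := (derivative P1).eval u) (p2' := (derivative P2).eval u)
      (p3' := (derivative P3).eval u) hη hη1 hB hr0 hrη hu.2.1 (h2 u hu.1) (h3 u hu.1) (he u hu.1)
    refine (ENNReal.ofReal_le_ofReal h4).trans (le_of_eq ?_)
    have b0 : 0 < η ^ 2 := by positivity
    have b1 : 0 < η ^ 3 := by positivity
    rw [ENNReal.ofReal_add (abs_nonneg _) (by positivity), ENNReal.ofReal_add (by positivity)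
      (by positivity), ENNReal.ofReal_add (by positivity) (by positivity),
      ENNReal.ofReal_add (by positivity) (by positivity),
      ENNReal.ofReal_add (by positivity) (by positivity),
      ENNReal.ofReal_mul (by positivity), ENNReal.ofReal_mul (by positivity),
      ENNReal.ofReal_mul (by positivity), ENNReal.ofReal_mul (by positivity)]
    rfl
  have hmain : ∫⁻ u in U, ENNReal.ofReal |rq' P1 P2 P3 u| ≤ ENNReal.ofReal (6 * m * w) := by
    have hsub : U ⊆ {u | P2.eval u ≠ 0} ∩
        rq P1 P2 P3 ⁻¹' Icc (-c - 3 / 2 * w) (-c + 3 / 2 * w) := by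
      intro u hu
      obtain ⟨h5, h6⟩ := value_bound hη hη1 hB hr0 hrη hu.2.1 (h1 u hu.1) (h2 u hu.1)
        (h3 u hu.1) (he u hu.1)
      refine ⟨h5, ?_⟩
      have h7 : 5 * B * r / η ^ 2 ≤ w / 4 := by
        have h8 : 5 * B * r / η ^ 2 ≤ 1 / 2 * (23 * B * Bg * r / η ^ 3) := by
          have h9 : 5 * B * r / η ^ 2 = 5 * B * r * η / η ^ 3 := by
            field_simp
          rw [h9, ← mul_div_assoc]
          refine div_le_div_of_nonneg_right ?_ (by positivity)
          have h10 : B * r * η ≤ B * r * Bg := by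
            refine mul_le_mul_of_nonneg_left (by linarith) (by positivity)
          nlinarith [mul_nonneg (mul_nonneg (by linarith : (0 : ℝ) ≤ B) hr0)
            (by linarith : (0 : ℝ) ≤ Bg)]
        linarith
      have h8 := hu.2.2
      have h11 : |φ u + e u / γ u - rq P1 P2 P3 u| ≤ w / 4 := h6.trans h7
      rw [mem_preimage, mem_Icc]
      rw [abs_le] at h8 h11
      constructor <;> linarith [h8.1, h8.2, h11.1, h11.2]
    refine (lintegral_mono_set hsub).trans ((lintegral_rq P1 P2 P3 hd1 hd2 hd3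
      measurableSet_Icc).trans (le_of_eq ?_))
    rw [Real.volume_Icc, ← ENNReal.ofReal_natCast, ← ENNReal.ofReal_mul (Nat.cast_nonneg _)]
    congr 1
    push_cast
    ring
  have hUT : ∀ f : ℝ → ℝ≥0∞, ∫⁻ u in U, f u ≤ ∫⁻ u in T, f u := fun f =>
    lintegral_mono_set inter_subset_left
  calc ∫⁻ u in U, ENNReal.ofReal |φ' u + (e' u * γ u - e u * γ' u) / (γ u) ^ 2|
      ≤ ∫⁻ u in U, (ENNReal.ofReal |rq' P1 P2 P3 u| +
      (ENNReal.ofReal |φ' u - (derivative P1).eval u| +
        ENNReal.ofReal (2 / η) * ENNReal.ofReal |e' u - (derivative P3).eval u| +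
        ENNReal.ofReal (2 * r / η ^ 2) * ENNReal.ofReal |e' u| +
        ENNReal.ofReal (10 * B * r / η ^ 3) * ENNReal.ofReal |γ' u| +
        ENNReal.ofReal (8 * B / η ^ 2) * ENNReal.ofReal |γ' u - (derivative P2).eval u|)) :=
        setLIntegral_mono' hUm hpt
    _ = (∫⁻ u in U, ENNReal.ofReal |rq' P1 P2 P3 u|) +
      ((∫⁻ u in U, ENNReal.ofReal |φ' u - (derivative P1).eval u|) +
        ENNReal.ofReal (2 / η) * (∫⁻ u in U, ENNReal.ofReal |e' u - (derivative P3).eval u|) +
        ENNReal.ofReal (2 * r / η ^ 2) * (∫⁻ u in U, ENNReal.ofReal |e' u|) +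
        ENNReal.ofReal (10 * B * r / η ^ 3) * (∫⁻ u in U, ENNReal.ofReal |γ' u|) +
        ENNReal.ofReal (8 * B / η ^ 2) *
          (∫⁻ u in U, ENNReal.ofReal |γ' u - (derivative P2).eval u|)) := by
        rw [lintegral_add_right _ (((((mD1.fun_add (mD3.const_mul _)).fun_add
          (mE.const_mul _)).fun_add (mG.const_mul _)).fun_add (mD2.const_mul _))),
          lintegral_add_right _ (mD2.const_mul _), lintegral_add_right _ (mG.const_mul _),
          lintegral_add_right _ (mE.const_mul _), lintegral_add_right _ (mD3.const_mul _),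
          lintegral_const_mul _ mD2, lintegral_const_mul _ mG, lintegral_const_mul _ mE,
          lintegral_const_mul _ mD3]
    _ ≤ ENNReal.ofReal (6 * m * w) + (ENNReal.ofReal r + ENNReal.ofReal (2 / η) *
          ENNReal.ofReal r + ENNReal.ofReal (2 * r / η ^ 2) * ENNReal.ofReal B +
          ENNReal.ofReal (10 * B * r / η ^ 3) * ENNReal.ofReal Bg +
          ENNReal.ofReal (8 * B / η ^ 2) * ENNReal.ofReal r) :=
        add_le_add hmain (add_le_add (add_le_add (add_le_add (add_le_add ((hUT _).trans h1')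
          (mul_le_mul_right ((hUT _).trans h3') _)) (mul_le_mul_right ((hUT _).trans he') _))
          (mul_le_mul_right ((hUT _).trans hγ') _)) (mul_le_mul_right ((hUT _).trans h2') _))
    _ ≤ ENNReal.ofReal ((6 * m + 1 / 2) * w) := by
        have b0 : 0 < η ^ 2 := by positivity
        have b1 : 0 < η ^ 3 := by positivity
        rw [← ENNReal.ofReal_mul (by positivity), ← ENNReal.ofReal_mul (by positivity),
          ← ENNReal.ofReal_mul (by positivity), ← ENNReal.ofReal_mul (by positivity),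
          ← ENNReal.ofReal_add (by positivity) (by positivity),
          ← ENNReal.ofReal_add (by positivity) (by positivity),
          ← ENNReal.ofReal_add (by positivity) (by positivity),
          ← ENNReal.ofReal_add (by positivity) (by positivity),
          ← ENNReal.ofReal_add (by positivity) (by positivity)]
        refine ENNReal.ofReal_le_ofReal ?_
        have h12 : r + 2 / η * r + 2 * r / η ^ 2 * B + 10 * B * r / η ^ 3 * Bg +
            8 * B / η ^ 2 * r ≤ 23 * B * Bg * r / η ^ 3 := by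
          have h13 : r + 2 / η * r + 2 * r / η ^ 2 * B + 10 * B * r / η ^ 3 * Bg +
            8 * B / η ^ 2 * r = (r * η ^ 3 + 2 * r * η ^ 2 + 2 * r * B * η + 10 * B * r * Bg +
              8 * B * r * η) / η ^ 3 := by
            field_simp
          rw [h13]
          refine div_le_div_of_nonneg_right ?_ (by positivity)
          have e1 : η ^ 2 ≤ 1 := pow_le_one₀ hη.le hη1
          have e2 : η ^ 3 ≤ 1 := pow_le_one₀ hη.le hη1
          have e3 : r ≤ B * Bg * r := by
            have : 1 ≤ B * Bg := one_le_mul_of_one_le_of_one_le hB hBg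
            nlinarith
          have e4 : B * r ≤ B * Bg * r := by
            nlinarith [mul_nonneg (mul_nonneg (by linarith : (0 : ℝ) ≤ B) hr0)
              (by linarith : (0 : ℝ) ≤ Bg - 1)]
          have e5 : r * η ^ 3 ≤ r := by nlinarith
          have e6 : r * η ^ 2 ≤ r := by nlinarith
          have e7 : B * r * η ≤ B * r := by
            nlinarith [mul_nonneg (by linarith : (0 : ℝ) ≤ B) hr0]
          nlinarith
        nlinarith

end Pool.Agent.Lib.MP_c11b14_lc.Sm
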