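import Pool.Agent.Lib.MP_c11b14_lc.Sm.Fix

/-!
# The expected number of positive zeros
-/

set_option autoImplicit false

namespace Pool.Agent.Lib.MP_c11b14_lc.Sm

open MeasureTheory Set Filter
open scoped ENNReal

variable {ι κ : Type} [Fintype ι] [Fintype κ]

theorem measurable_comp_sel {α : Type*} [MeasurableSpace α] (sel : ℝ → ι)
    (hsel : ∀ i, MeasurableSet (sel ⁻¹' {i})) (c : ι → α) :
    Measurable fun u => c (sel u) := by
  classical
  intro s hs
  have h2 : (fun u => c (sel u)) ⁻¹' s = ⋃ i, (if c i ∈ s then sel ⁻¹' {i} else ∅) := by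
    ext u
    simp only [mem_preimage, mem_iUnion]
    constructor
    · intro hu
      exact ⟨sel u, by simp [hu]⟩
    · rintro ⟨i, hi⟩
      split_ifs at hi with hc
      · rw [mem_preimage, mem_singleton_iff] at hi
        rwa [hi]
      · exact absurd hi (notMem_empty _)
  rw [h2]
  refine MeasurableSet.iUnion fun i => ?_
  split_ifs
  · exact hsel i
  · exact MeasurableSet.empty

theorem measurable_phiV : Measurable phiV := by
  unfold phiV
  exact Measurable.indicator (by fun_prop) measurableSet_Ici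

theorem measurable_phiT (L : ℝ) : Measurable (phiT L) := by
  unfold phiT
  exact Measurable.indicator (by fun_prop) measurableSet_Ici

theorem measurable_vr_term (a α : ι → ℝ) (sel : ℝ → ι) (hsel : ∀ i, MeasurableSet (sel ⁻¹' {i}))
    (k : ι) : Measurable fun u => ENNReal.ofReal |a (sel u) - a k| *
      phiV ((a (sel u) - a k) * u + (α (sel u) - α k)) := by
  have h3 := measurable_comp_sel sel hsel a
  have h4 := measurable_comp_sel sel hsel α
  refine Measurable.mul ?_ (measurable_phiV.comp ?_)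
  · exact ((h3.sub_const _).abs).ennreal_ofReal
  · exact ((h3.sub_const _).mul measurable_id).add (h4.sub_const _)

theorem ofReal_vr (a α : ι → ℝ) (sel : ℝ → ι)
    (hmax : ∀ u i, a i * u + α i ≤ a (sel u) * u + α (sel u)) (u : ℝ) :
    ENNReal.ofReal (vr a α (sel u) u) =
      ∑ k, ENNReal.ofReal |a (sel u) - a k| *
        phiV ((a (sel u) - a k) * u + (α (sel u) - α k)) := by
  unfold vr
  rw [ENNReal.ofReal_sum_of_nonneg fun k _ => mul_nonneg (abs_nonneg _) (Real.exp_pos _).le]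
  refine Finset.sum_congr rfl fun k _ => ?_
  rw [ENNReal.ofReal_mul (abs_nonneg _), abs_sub_comm]
  congr 1
  unfold phiV
  rw [indicator_of_mem]
  rw [mem_Ici]
  have := hmax u k
  linarith

theorem measurable_vr (a α : ι → ℝ) (sel : ℝ → ι) (hsel : ∀ i, MeasurableSet (sel ⁻¹' {i}))
    (hmax : ∀ u i, a i * u + α i ≤ a (sel u) * u + α (sel u)) :
    Measurable fun u => ENNReal.ofReal (vr a α (sel u) u) := by
  simp only [ofReal_vr a α sel hmax]
  exact Finset.measurable_sum _ fun k _ => measurable_vr_term a α sel hsel k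

theorem lintegral_vr (a α : ι → ℝ) (sel : ℝ → ι) (hsel : ∀ i, MeasurableSet (sel ⁻¹' {i}))
    (hmax : ∀ u i, a i * u + α i ≤ a (sel u) * u + α (sel u)) :
    ∫⁻ u, ENNReal.ofReal (vr a α (sel u) u) ≤ 2 * Fintype.card ι := by
  calc ∫⁻ u, ENNReal.ofReal (vr a α (sel u) u)
      = ∫⁻ u, ∑ k, ENNReal.ofReal |a (sel u) - a k| *
        phiV ((a (sel u) - a k) * u + (α (sel u) - α k)) :=
        lintegral_congr (ofReal_vr a α sel hmax)
    _ = ∑ k, ∫⁻ u, ENNReal.ofReal |a (sel u) - a k| *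
        phiV ((a (sel u) - a k) * u + (α (sel u) - α k)) :=
        lintegral_finsetSum _ fun k _ => measurable_vr_term a α sel hsel k
    _ ≤ ∑ _k : ι, 2 := by
        refine Finset.sum_le_sum fun k _ => ?_
        have h5 := sel_integral (fun i => a i - a k) (fun i => α i - α k) sel hsel (by
          intro u i
          have := hmax u i
          nlinarith) phiV
        rwa [integral_phiV, mul_one] at h5
    _ = 2 * Fintype.card ι := by simp [mul_comm]

theorem lintegral_tail (a α : ι → ℝ) (b β : κ → ℝ) (ha : ∀ k, 0 ≤ a k) (hb : ∀ k, 0 ≤ b k)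
    (s1 : ℝ → ι) (h1 : ∀ i, MeasurableSet (s1 ⁻¹' {i}))
    (m1 : ∀ u i, a i * u + α i ≤ a (s1 u) * u + α (s1 u))
    (s2 : ℝ → κ) (h2 : ∀ i, MeasurableSet (s2 ⁻¹' {i}))
    (m2 : ∀ u i, b i * u + β i ≤ b (s2 u) * u + β (s2 u)) (φ : ℝ → ℝ≥0∞) :
    ∫⁻ u, ENNReal.ofReal (a (s1 u) + b (s2 u)) *
      φ ((a (s1 u) + b (s2 u)) * u + (α (s1 u) + β (s2 u))) ≤ ∫⁻ v, φ v := by
  refine sel_integral_nonneg (I := ι × κ) (fun z => a z.1 + b z.2) (fun z => α z.1 + β z.2)
    (fun u => (s1 u, s2 u)) ?_ ?_ (fun z => add_nonneg (ha _) (hb _)) φ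
  · rintro ⟨i, j⟩
    have : (fun u => (s1 u, s2 u)) ⁻¹' {(i, j)} = s1 ⁻¹' {i} ∩ s2 ⁻¹' {j} := by
      ext u
      simp
    rw [this]
    exact (h1 i).inter (h2 j)
  · rintro u ⟨i, j⟩
    have := m1 u i
    have := m2 u j
    simp only
    nlinarith

theorem measurable_tail (a α : ι → ℝ) (b β : κ → ℝ)
    (s1 : ℝ → ι) (h1 : ∀ i, MeasurableSet (s1 ⁻¹' {i}))
    (s2 : ℝ → κ) (h2 : ∀ i, MeasurableSet (s2 ⁻¹' {i})) (L : ℝ) :
    Measurable fun u => ENNReal.ofReal (a (s1 u) + b (s2 u)) *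
      phiT L ((a (s1 u) + b (s2 u)) * u + (α (s1 u) + β (s2 u))) := by
  have h3 := measurable_comp_sel s1 h1 a
  have h4 := measurable_comp_sel s1 h1 α
  have h5 := measurable_comp_sel s2 h2 b
  have h6 := measurable_comp_sel s2 h2 β
  refine Measurable.mul ?_ ((measurable_phiT L).comp ?_)
  · exact (h3.add h5).ennreal_ofReal
  · exact ((h3.add h5).mul measurable_id).add (h4.add h6)

section Exp

variable (μ : ι → Measure ℝ) (ν : κ → Measure ℝ) [∀ i, IsProbabilityMeasure (μ i)]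
  [∀ j, IsProbabilityMeasure (ν j)] {K : ℝ≥0∞}

theorem const_le (s t : ℝ) (hs : 0 < s) (ht : 0 < t) :
    3 / √2 * (2 * Real.exp (Real.log (2 * s * t) / 2)) ≤ 3 * (s + t) := by
  have h1 : Real.exp (Real.log (2 * s * t) / 2) = √(2 * s * t) := by
    rw [Real.sqrt_eq_rpow, Real.rpow_def_of_pos (by positivity)]
    congr 1
    ring
  have h2 : √(2 * s * t) = √2 * √(s * t) := by
    rw [mul_assoc, Real.sqrt_mul (by norm_num)]
  have h3 : √(s * t) ≤ (s + t) / 2 := by
    rw [Real.sqrt_le_left (by positivity)]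
    nlinarith [sq_nonneg (s - t)]
  have h4 : (0 : ℝ) < √2 := by positivity
  rw [h1, h2]
  have h5 : 3 / √2 * (2 * (√2 * √(s * t))) = 6 * √(s * t) := by
    field_simp
    ring
  rw [h5]
  linarith

/-- The bound for the integral with a fixed window. -/
theorem window
    (hμ : ∀ i, μ i ≤ K • (volume : Measure ℝ)) (hν : ∀ j, ν j ≤ K • (volume : Measure ℝ))
    (hμ1 : ∀ i, ∀ᵐ x ∂(μ i), |x| ≤ 1) (hν1 : ∀ j, ∀ᵐ x ∂(ν j), |x| ≤ 1)
    {a α : ι → ℝ} {b β : κ → ℝ} (ha : ∀ k, 0 ≤ a k) (hb : ∀ k, 0 ≤ b k) [Nonempty ι] [Nonempty κ]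
    {ε : ℝ} (hε0 : 0 ≤ ε) (hε : ε ≤ 1 / 2) :
    ∫⁻ ω, (∫⁻ u, kac (FF a α b β ω) (FD a α b β ω) ε u) ∂((Measure.pi μ).prod (Measure.pi ν)) ≤
      5 * (Fintype.card ι + Fintype.card κ) * (K * ENNReal.ofReal (2 * ε)) := by
  classical
  obtain ⟨s1, h1, m1⟩ := exists_sel a α
  obtain ⟨s2, h2, m2⟩ := exists_sel b β
  have hmk := measurable_kac a α b β ε
  rw [lintegral_lintegral_swap hmk.aemeasurable]
  set L := Real.log (2 * Fintype.card ι * Fintype.card κ) with hL
  set T : ℝ → ℝ≥0∞ := fun u => ENNReal.ofReal (a (s1 u) + b (s2 u)) *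
      phiT L ((a (s1 u) + b (s2 u)) * u + (α (s1 u) + β (s2 u))) with hT
  have mT : Measurable T := measurable_tail a α b β s1 h1 s2 h2 L
  have mV := measurable_vr a α s1 h1 m1
  have mW := measurable_vr b β s2 h2 m2
  have hs : 0 < (Fintype.card ι : ℝ) := by exact_mod_cast Fintype.card_pos
  have ht : 0 < (Fintype.card κ : ℝ) := by exact_mod_cast Fintype.card_pos
  calc ∫⁻ u, ∫⁻ ω, kac (FF a α b β ω) (FD a α b β ω) ε u ∂((Measure.pi μ).prod (Measure.pi ν))
      ≤ ∫⁻ u, (ENNReal.ofReal (vr a α (s1 u) u) + ENNReal.ofReal (vr b β (s2 u) u) +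
          ENNReal.ofReal (3 / √2) * T u) * (K * ENNReal.ofReal (2 * ε)) := by
        refine lintegral_mono fun u => ?_
        exact fixed μ ν hμ hν hμ1 hν1 ha hb (m1 u) (m2 u) hε0 hε
    _ = ((∫⁻ u, ENNReal.ofReal (vr a α (s1 u) u)) + (∫⁻ u, ENNReal.ofReal (vr b β (s2 u) u)) +
          ENNReal.ofReal (3 / √2) * (∫⁻ u, T u)) * (K * ENNReal.ofReal (2 * ε)) := by
        have e1 : ∫⁻ u, (ENNReal.ofReal (vr a α (s1 u) u) + ENNReal.ofReal (vr b β (s2 u) u) +
            ENNReal.ofReal (3 / √2) * T u) =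
            (∫⁻ u, ENNReal.ofReal (vr a α (s1 u) u)) + (∫⁻ u, ENNReal.ofReal (vr b β (s2 u) u)) +
            ENNReal.ofReal (3 / √2) * (∫⁻ u, T u) := by
          rw [lintegral_add_left (mV.fun_add mW), lintegral_add_left mV, lintegral_const_mul _ mT]
        rw [← e1]
        exact lintegral_mul_const _ ((mV.fun_add mW).fun_add (mT.const_mul _))
    _ ≤ (2 * Fintype.card ι + 2 * Fintype.card κ +
          ENNReal.ofReal (3 / √2) * ENNReal.ofReal (2 * Real.exp (L / 2))) *
            (K * ENNReal.ofReal (2 * ε)) := by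
        gcongr
        · exact lintegral_vr a α s1 h1 m1
        · exact lintegral_vr b β s2 h2 m2
        · rw [← integral_phiT]
          exact lintegral_tail a α b β ha hb s1 h1 m1 s2 h2 m2 (phiT L)
    _ ≤ (2 * Fintype.card ι + 2 * Fintype.card κ +
          3 * (Fintype.card ι + Fintype.card κ)) * (K * ENNReal.ofReal (2 * ε)) := by
        have e2 : ENNReal.ofReal (3 / √2) * ENNReal.ofReal (2 * Real.exp (L / 2)) ≤
            3 * (Fintype.card ι + Fintype.card κ) := by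
          rw [← ENNReal.ofReal_mul (by positivity)]
          refine (ENNReal.ofReal_le_ofReal (const_le _ _ hs ht)).trans (le_of_eq ?_)
          rw [ENNReal.ofReal_mul (by norm_num), ENNReal.ofReal_add hs.le ht.le,
            ENNReal.ofReal_natCast, ENNReal.ofReal_natCast]
          norm_num
        exact mul_le_mul_left (add_le_add_right e2 _) _
    _ = _ := by ring

/-- The expectation of the majorant. -/
theorem measurable_kacLim (a α : ι → ℝ) (b β : κ → ℝ) :
    Measurable fun ω : (ι → ℝ) × (κ → ℝ) => kacLim (FF a α b β ω) (FD a α b β ω) := by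
  unfold kacLim
  refine Measurable.liminf fun n => ?_
  refine Measurable.div_const ?_ _
  exact (measurable_kac a α b β (1 / (n + 2 : ℝ))).lintegral_prod_right'

theorem lintegral_kacLim
    (hμ : ∀ i, μ i ≤ K • (volume : Measure ℝ)) (hν : ∀ j, ν j ≤ K • (volume : Measure ℝ))
    (hμ1 : ∀ i, ∀ᵐ x ∂(μ i), |x| ≤ 1) (hν1 : ∀ j, ∀ᵐ x ∂(ν j), |x| ≤ 1)
    {a α : ι → ℝ} {b β : κ → ℝ} (ha : ∀ k, 0 ≤ a k) (hb : ∀ k, 0 ≤ b k) [Nonempty ι] [Nonempty κ] :
    ∫⁻ ω, kacLim (FF a α b β ω) (FD a α b β ω) ∂((Measure.pi μ).prod (Measure.pi ν)) ≤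
      5 * (Fintype.card ι + Fintype.card κ) * K := by
  unfold kacLim
  refine (lintegral_liminf_le fun n => ?_).trans ?_
  · refine Measurable.div_const ?_ _
    exact (measurable_kac a α b β (1 / (n + 2 : ℝ))).lintegral_prod_right'
  · refine (liminf_le_liminf (v := fun _ : ℕ => 5 * (Fintype.card ι + Fintype.card κ) * K)
      (Eventually.of_forall fun n => ?_) (by isBoundedDefault) (by isBoundedDefault)).trans
      (le_of_eq (liminf_const _))
    have hε : (0 : ℝ) < 1 / (n + 2 : ℝ) := by positivity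
    have hε2 : 1 / (n + 2 : ℝ) ≤ 1 / 2 := by
      refine one_div_le_one_div_of_le (by norm_num) ?_
      have : (0 : ℝ) ≤ n := Nat.cast_nonneg n
      linarith
    have hne : ENNReal.ofReal (2 * (1 / (n + 2 : ℝ))) ≠ 0 := by
      rw [Ne, ENNReal.ofReal_eq_zero, not_le]
      positivity
    have hm : Measurable fun ω : (ι → ℝ) × (κ → ℝ) =>
        ∫⁻ u, kac (FF a α b β ω) (FD a α b β ω) (1 / (n + 2 : ℝ)) u :=
      (measurable_kac a α b β (1 / (n + 2 : ℝ))).lintegral_prod_right'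
    calc ∫⁻ ω, (∫⁻ u, kac (FF a α b β ω) (FD a α b β ω) (1 / (n + 2 : ℝ)) u) /
          ENNReal.ofReal (2 * (1 / (n + 2 : ℝ))) ∂((Measure.pi μ).prod (Measure.pi ν))
        = (∫⁻ ω, (∫⁻ u, kac (FF a α b β ω) (FD a α b β ω) (1 / (n + 2 : ℝ)) u)
            ∂((Measure.pi μ).prod (Measure.pi ν))) / ENNReal.ofReal (2 * (1 / (n + 2 : ℝ))) := by
          simp only [div_eq_mul_inv (_ : ℝ≥0∞)]
          exact lintegral_mul_const _ hm
      _ ≤ 5 * (Fintype.card ι + Fintype.card κ) * K := by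
          rw [ENNReal.div_le_iff hne ENNReal.ofReal_ne_top]
          refine (window μ ν hμ hν hμ1 hν1 ha hb hε.le hε2).trans (le_of_eq ?_)
          ring

end Exp

end Pool.Agent.Lib.MP_c11b14_lc.Sm
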