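import Pool.Agent.Lib.MP_c11b14_lc.Sm.TyB

/-!
# Zeros at which both factors are small
-/

set_option autoImplicit false

namespace Pool.Agent.Lib.MP_c11b14_lc.Sm

open MeasureTheory Set Filter
open scoped ENNReal

variable {ι κ : Type} [Fintype ι] [Fintype κ] [DecidableEq ι] [DecidableEq κ]

section Exp

variable (μ : ι → Measure ℝ) (ν : κ → Measure ℝ) [∀ i, IsProbabilityMeasure (μ i)]
  [∀ j, IsProbabilityMeasure (ν j)] {K : ℝ≥0∞} (a α : ι → ℝ) (b β : κ → ℝ)

/-- A normalised value is small with small probability. -/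
theorem small_prob (hν : ∀ j, ν j ≤ K • (volume : Measure ℝ)) {th : ℝ} (hth : 0 ≤ th) (j : κ)
    (u : ℝ) :
    Measure.pi ν {η | |es (fun k => b k - b j) (fun k => β k - β j) η u| < th} ≤
      K * ENNReal.ofReal (2 * th) := by
  have h1 := lin_form ν hν (fun k => Real.exp ((b k - b j) * u + (β k - β j))) 0 hth j
  have h2 : |Real.exp ((b j - b j) * u + (β j - β j))| = 1 := by
    rw [sub_self, sub_self, zero_mul, add_zero, Real.exp_zero, abs_one]
  rw [h2, ENNReal.ofReal_one, one_mul] at h1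
  refine le_trans (le_of_eq ?_) h1
  congr 1
  ext η
  simp only [Set.mem_ofPred_eq, add_zero]
  unfold es
  have h3 : ∑ k, η k * Real.exp ((b k - b j) * u + (β k - β j)) =
      ∑ k, Real.exp ((b k - b j) * u + (β k - β j)) * η k :=
    Finset.sum_congr rfl fun k _ => mul_comm _ _
  rw [h3]

omit [DecidableEq κ] in
theorem inner_A (hμ : ∀ i, μ i ≤ K • (volume : Measure ℝ)) (u : ℝ) {ε : ℝ} (hε : 0 ≤ ε) (i : ι)
    (η : κ → ℝ) :
    ∫⁻ ξ, {ω | |FF a α b β ω u| < ε}.indicator (fun ω : (ι → ℝ) × (κ → ℝ) =>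
      ENNReal.ofReal |Real.exp (a i * u + α i) * ev b β ω.2 u|) (ξ, η) ∂(Measure.pi μ) ≤
      K * ENNReal.ofReal (2 * ε) := by
  have h1 := lin_form μ hμ (fun k => Real.exp (a k * u + α k) * ev b β η u) 1 hε i
  refine le_trans (le_of_eq ?_) h1
  have hset : {ξ : ι → ℝ | |∑ k, Real.exp (a k * u + α k) * ev b β η u * ξ k + 1| < ε} =
      {ξ : ι → ℝ | |FF a α b β (ξ, η) u| < ε} := by
    ext ξ
    simp only [Set.mem_ofPred_eq]
    have h2 : ∑ k, Real.exp (a k * u + α k) * ev b β η u * ξ k =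
        ev a α ξ u * ev b β η u := by
      conv_rhs => rw [ev, Finset.sum_mul]
      exact Finset.sum_congr rfl fun k _ => by ring
    rw [h2]
    rfl
  have hms : MeasurableSet {ξ : ι → ℝ | |FF a α b β (ξ, η) u| < ε} := by
    rw [← hset]
    exact measurableSet_lt (by fun_prop) measurable_const
  simp only [hset]
  rw [← lintegral_indicator_const hms]
  refine lintegral_congr fun ξ => ?_
  simp only [indicator_apply, Set.mem_ofPred_eq]

theorem small_A (hμ : ∀ i, μ i ≤ K • (volume : Measure ℝ))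
    (hν : ∀ j, ν j ≤ K • (volume : Measure ℝ)) (u : ℝ) {ε th : ℝ} (hε : 0 ≤ ε) (hth : 0 ≤ th)
    (i : ι) (j : κ) :
    ∫⁻ ω, {ω | |FF a α b β ω u| < ε}.indicator (fun ω : (ι → ℝ) × (κ → ℝ) =>
      ENNReal.ofReal |Real.exp (a i * u + α i) * ev b β ω.2 u|) ω *
      {ω : (ι → ℝ) × (κ → ℝ) | |gh b β j ω u| < th}.indicator 1 ω
      ∂((Measure.pi μ).prod (Measure.pi ν)) ≤
        K * ENNReal.ofReal (2 * ε) * (K * ENNReal.ofReal (2 * th)) := by
  have mg : MeasurableSet {ω : (ι → ℝ) × (κ → ℝ) | |gh b β j ω u| < th} := by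
    unfold gh es
    exact measurableSet_lt (by fun_prop) measurable_const
  have hmeas : Measurable fun ω => ({ω | |FF a α b β ω u| < ε}.indicator
      (fun ω : (ι → ℝ) × (κ → ℝ) =>
      ENNReal.ofReal |Real.exp (a i * u + α i) * ev b β ω.2 u|) ω) *
      {ω : (ι → ℝ) × (κ → ℝ) | |gh b β j ω u| < th}.indicator
        (1 : (ι → ℝ) × (κ → ℝ) → ℝ≥0∞) ω := by
    refine Measurable.mul (Measurable.indicator ?_ (measurableSet_lt_FF a α b β u ε))
      (measurable_one.indicator mg)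
    unfold ev
    fun_prop
  have mge : MeasurableSet {η : κ → ℝ | |es (fun k => b k - b j) (fun k => β k - β j) η u| < th} := by
    unfold es
    exact measurableSet_lt (by fun_prop) measurable_const
  rw [lintegral_prod_symm _ hmeas.aemeasurable]
  calc _ ≤ ∫⁻ η, K * ENNReal.ofReal (2 * ε) *
          {η : κ → ℝ | |es (fun k => b k - b j) (fun k => β k - β j) η u| < th}.indicator 1 η
          ∂(Measure.pi ν) := by
        refine lintegral_mono fun η => ?_
        have h1 : ∀ ξ : ι → ℝ, ({ω : (ι → ℝ) × (κ → ℝ) | |gh b β j ω u| < th}.indicator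
            (1 : (ι → ℝ) × (κ → ℝ) → ℝ≥0∞) (ξ, η)) =
            {η : κ → ℝ | |es (fun k => b k - b j) (fun k => β k - β j) η u| < th}.indicator
              (1 : (κ → ℝ) → ℝ≥0∞) η := by
          intro ξ
          simp only [indicator_apply, Set.mem_ofPred_eq, gh, Pi.one_apply]
        simp only [h1]
        rw [lintegral_mul_const']
        · exact mul_le_mul_left (inner_A μ a α b β hμ u hε i η) _
        · rw [indicator_apply]
          split_ifs <;> simp
    _ ≤ K * ENNReal.ofReal (2 * ε) * (K * ENNReal.ofReal (2 * th)) := by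
        rw [lintegral_const_mul _ (measurable_one.indicator mge), lintegral_indicator_one mge]
        exact mul_le_mul_right (small_prob ν b β hν hth j u) _

omit [DecidableEq ι] [DecidableEq κ] in
theorem FF_swap (ω : (ι → ℝ) × (κ → ℝ)) (u : ℝ) :
    FF b β a α ω.swap u = FF a α b β ω u := by
  unfold FF
  rw [Prod.fst_swap, Prod.snd_swap, mul_comm]

omit [DecidableEq ι] [DecidableEq κ] in
theorem FD_swap (ω : (ι → ℝ) × (κ → ℝ)) (u : ℝ) :
    FD b β a α ω.swap u = FD a α b β ω u := by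
  unfold FD
  rw [Prod.fst_swap, Prod.snd_swap]
  ring

theorem small_B (hμ : ∀ i, μ i ≤ K • (volume : Measure ℝ))
    (hν : ∀ j, ν j ≤ K • (volume : Measure ℝ)) (u : ℝ) {ε th : ℝ} (hε : 0 ≤ ε) (hth : 0 ≤ th)
    (i : ι) (j : κ) :
    ∫⁻ ω, {ω | |FF a α b β ω u| < ε}.indicator (fun ω : (ι → ℝ) × (κ → ℝ) =>
      ENNReal.ofReal |Real.exp (b j * u + β j) * ev a α ω.1 u|) ω *
      {ω : (ι → ℝ) × (κ → ℝ) | |gh a α i ω.swap u| < th}.indicator 1 ω
      ∂((Measure.pi μ).prod (Measure.pi ν)) ≤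
        K * ENNReal.ofReal (2 * ε) * (K * ENNReal.ofReal (2 * th)) := by
  have h1 := small_A ν μ b β a α hν hμ u hε hth j i
  refine le_trans (le_of_eq ?_) h1
  rw [← lintegral_prod_swap]
  refine lintegral_congr fun ω => ?_
  simp only [indicator_apply, Set.mem_ofPred_eq, FF_swap, Prod.fst_swap, Prod.swap_swap,
    Pi.one_apply]

/-- The integrand restricted to the points at which both factors are small. -/
noncomputable def kc (i : ι) (j : κ) (th ε : ℝ) (ω : (ι → ℝ) × (κ → ℝ)) (u : ℝ) : ℝ≥0∞ :=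
  {ω : (ι → ℝ) × (κ → ℝ) | |gh b β j ω u| < th ∧ |gh a α i ω.swap u| < th}.indicator
    (fun ω => kac (FF a α b β ω) (FD a α b β ω) ε u) ω

theorem fixed_three (hμ : ∀ i, μ i ≤ K • (volume : Measure ℝ))
    (hν : ∀ j, ν j ≤ K • (volume : Measure ℝ))
    (hμ1 : ∀ i, ∀ᵐ x ∂(μ i), |x| ≤ 1) (hν1 : ∀ j, ∀ᵐ x ∂(ν j), |x| ≤ 1)
    {a α : ι → ℝ} {b β : κ → ℝ} (ha : ∀ k, 0 ≤ a k) (hb : ∀ k, 0 ≤ b k)
    {u : ℝ} {i : ι} {j : κ} (hi : ∀ k, a k * u + α k ≤ a i * u + α i)
    (hj : ∀ k, b k * u + β k ≤ b j * u + β j) {ε th : ℝ} (hε0 : 0 ≤ ε) (hε : ε ≤ 1 / 2)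
    (hth : 0 ≤ th) :
    ∫⁻ ω, kc a α b β i j th ε ω u ∂((Measure.pi μ).prod (Measure.pi ν)) ≤
      (ENNReal.ofReal (vr a α i u) + ENNReal.ofReal (vr b β j u) +
        ENNReal.ofReal (3 / √2) * (ENNReal.ofReal (a i + b j) *
          phiT (Real.log (2 * Fintype.card ι * Fintype.card κ))
            ((a i + b j) * u + (α i + β j)))) *
        (K * ENNReal.ofReal (2 * ε) * (K * ENNReal.ofReal (2 * th))) := by
  set P := (Measure.pi μ).prod (Measure.pi ν) with hP
  set L := Real.log (2 * Fintype.card ι * Fintype.card κ) with hL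
  set h := (a i + b j) * u + (α i + β j) with hh
  set D : ℝ≥0∞ := ENNReal.ofReal (3 / (2 * √2)) * (ENNReal.ofReal (a i + b j) * phiT L h) with hD
  have hab : 0 ≤ a i + b j := add_nonneg (ha i) (hb j)
  have hs2 : (0 : ℝ) < √2 := by positivity
  have hD2 : D + D = ENNReal.ofReal (3 / √2) * (ENNReal.ofReal (a i + b j) * phiT L h) := by
    rw [hD, ← add_mul, ← ENNReal.ofReal_add (by positivity) (by positivity)]
    congr 2
    field_simp
    ring
  have hae : ∀ᵐ ω ∂P, (∀ k, |ω.1 k| ≤ 1) ∧ ∀ k, |ω.2 k| ≤ 1 := by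
    have h1 := Measure.quasiMeasurePreserving_fst (μ := Measure.pi μ) (ν := Measure.pi ν) |>.ae
      (ae_abs_le μ hμ1)
    have h2 := Measure.quasiMeasurePreserving_snd (μ := Measure.pi μ) (ν := Measure.pi ν) |>.ae
      (ae_abs_le ν hν1)
    filter_upwards [h1, h2] with ω h3 h4
    exact ⟨h3, h4⟩
  set IA : (ι → ℝ) × (κ → ℝ) → ℝ≥0∞ := fun ω => {ω | |FF a α b β ω u| < ε}.indicator
    (fun ω : (ι → ℝ) × (κ → ℝ) =>
      ENNReal.ofReal |Real.exp (a i * u + α i) * ev b β ω.2 u|) ω *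
      {ω : (ι → ℝ) × (κ → ℝ) | |gh b β j ω u| < th}.indicator 1 ω with hIA
  set IB : (ι → ℝ) × (κ → ℝ) → ℝ≥0∞ := fun ω => {ω | |FF a α b β ω u| < ε}.indicator
    (fun ω : (ι → ℝ) × (κ → ℝ) =>
      ENNReal.ofReal |Real.exp (b j * u + β j) * ev a α ω.1 u|) ω *
      {ω : (ι → ℝ) × (κ → ℝ) | |gh a α i ω.swap u| < th}.indicator 1 ω with hIB
  have mg : MeasurableSet {ω : (ι → ℝ) × (κ → ℝ) | |gh b β j ω u| < th} := by
    unfold gh es
    exact measurableSet_lt (by fun_prop) measurable_const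
  have mf : MeasurableSet {ω : (ι → ℝ) × (κ → ℝ) | |gh a α i ω.swap u| < th} := by
    unfold gh es
    simp only [Prod.snd_swap]
    exact measurableSet_lt (by fun_prop) measurable_const
  have mA : Measurable IA := by
    refine Measurable.mul (Measurable.indicator ?_ (measurableSet_lt_FF a α b β u ε))
      (measurable_one.indicator mg)
    unfold ev
    fun_prop
  have mB : Measurable IB := by
    refine Measurable.mul (Measurable.indicator ?_ (measurableSet_lt_FF a α b β u ε))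
      (measurable_one.indicator mf)
    unfold ev
    fun_prop
  have hpt : ∀ᵐ ω ∂P, kc a α b β i j th ε ω u ≤
      (ENNReal.ofReal (vr a α i u) + D) * IA ω + (ENNReal.ofReal (vr b β j u) + D) * IB ω := by
    filter_upwards [hae] with ω hω
    by_cases hlt : |FF a α b β ω u| < ε ∧ |gh b β j ω u| < th ∧ |gh a α i ω.swap u| < th
    · obtain ⟨hlt, hg1, hg2⟩ := hlt
      have hmem : ω ∈ {ω | |FF a α b β ω u| < ε} := hlt
      obtain ⟨hp1, hp2⟩ := pointwise ha hb hi hj hω.1 hω.2 hε hlt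
      have hk : kc a α b β i j th ε ω u = ENNReal.ofReal |FD a α b β ω u| := by
        simp only [kc]
        rw [indicator_of_mem (show ω ∈ {ω : (ι → ℝ) × (κ → ℝ) | |gh b β j ω u| < th ∧
          |gh a α i ω.swap u| < th} from ⟨hg1, hg2⟩)]
        simp only [kac]
        rw [indicator_of_mem (show u ∈ {u | |FF a α b β ω u| < ε} from hlt)]
      have hphi : phiT L h = ENNReal.ofReal (Real.exp (-h / 2)) := by
        simp only [phiT]
        rw [indicator_of_mem (show h ∈ Ici (-L) from hp2)]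
      have hDr : D = ENNReal.ofReal (3 / (2 * √2) * (a i + b j) * Real.exp (-h / 2)) := by
        rw [hD, hphi, ← ENNReal.ofReal_mul hab, ← ENNReal.ofReal_mul (by positivity), mul_assoc]
      have hIAr : IA ω = ENNReal.ofReal |Real.exp (a i * u + α i) * ev b β ω.2 u| := by
        rw [hIA]
        simp only
        rw [indicator_of_mem hmem, indicator_of_mem
          (show ω ∈ {ω : (ι → ℝ) × (κ → ℝ) | |gh b β j ω u| < th} from hg1), Pi.one_apply, mul_one]
      have hIBr : IB ω = ENNReal.ofReal |Real.exp (b j * u + β j) * ev a α ω.1 u| := by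
        rw [hIB]
        simp only
        rw [indicator_of_mem hmem, indicator_of_mem
          (show ω ∈ {ω : (ι → ℝ) × (κ → ℝ) | |gh a α i ω.swap u| < th} from hg2), Pi.one_apply,
          mul_one]
      have hc0 : 0 ≤ 3 / (2 * √2) * (a i + b j) * Real.exp (-h / 2) := by positivity
      rw [hk, hIAr, hIBr, hDr, ← ENNReal.ofReal_add (vr_nonneg _ _ _ _) hc0,
        ← ENNReal.ofReal_add (vr_nonneg _ _ _ _) hc0,
        ← ENNReal.ofReal_mul (add_nonneg (vr_nonneg _ _ _ _) hc0),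
        ← ENNReal.ofReal_mul (add_nonneg (vr_nonneg _ _ _ _) hc0),
        ← ENNReal.ofReal_add (mul_nonneg (add_nonneg (vr_nonneg _ _ _ _) hc0) (abs_nonneg _))
          (mul_nonneg (add_nonneg (vr_nonneg _ _ _ _) hc0) (abs_nonneg _))]
      exact ENNReal.ofReal_le_ofReal hp1
    · have hk : kc a α b β i j th ε ω u = 0 := by
        simp only [kc, kac, indicator_apply, Set.mem_ofPred_eq]
        by_cases h1 : |gh b β j ω u| < th ∧ |gh a α i ω.swap u| < th
        · rw [if_pos h1, if_neg]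
          intro h2
          exact hlt ⟨h2, h1⟩
        · rw [if_neg h1]
      rw [hk]
      exact zero_le
  calc ∫⁻ ω, kc a α b β i j th ε ω u ∂P
      ≤ ∫⁻ ω, ((ENNReal.ofReal (vr a α i u) + D) * IA ω +
          (ENNReal.ofReal (vr b β j u) + D) * IB ω) ∂P := lintegral_mono_ae hpt
    _ = (ENNReal.ofReal (vr a α i u) + D) * ∫⁻ ω, IA ω ∂P +
          (ENNReal.ofReal (vr b β j u) + D) * ∫⁻ ω, IB ω ∂P := by
        rw [lintegral_add_left (mA.const_mul _), lintegral_const_mul _ mA,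
          lintegral_const_mul _ mB]
    _ ≤ (ENNReal.ofReal (vr a α i u) + D) *
          (K * ENNReal.ofReal (2 * ε) * (K * ENNReal.ofReal (2 * th))) +
          (ENNReal.ofReal (vr b β j u) + D) *
          (K * ENNReal.ofReal (2 * ε) * (K * ENNReal.ofReal (2 * th))) := by
        gcongr
        · exact small_A μ ν a α b β hμ hν u hε0 hth i j
        · exact small_B μ ν a α b β hμ hν u hε0 hth i j
    _ = _ := by
        rw [← hD2]
        ring

end Exp

end Pool.Agent.Lib.MP_c11b14_lc.Sm
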