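import Pool.Agent.Lib.MP_c11b14_lc.Sm.Tot
import Pool.Agent.Lib.MP_c11b14_lc.Sm.Strip

/-!
# Zeros at which the second factor is not small, at a fixed point
-/

set_option autoImplicit false

namespace Pool.Agent.Lib.MP_c11b14_lc.Sm

open MeasureTheory Set Filter
open scoped ENNReal

variable {ι κ : Type} [Fintype ι] [Fintype κ] [DecidableEq ι]

section Defs

variable (a α : ι → ℝ) (b β : κ → ℝ) (i : ι) (j : κ)

noncomputable def fh (ω : (ι → ℝ) × (κ → ℝ)) (u : ℝ) : ℝ :=
  es (fun k => a k - a i) (fun k => α k - α i) (fun k => if k = i then 0 else ω.1 k) u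

noncomputable def fh' (ω : (ι → ℝ) × (κ → ℝ)) (u : ℝ) : ℝ :=
  es' (fun k => a k - a i) (fun k => α k - α i) (fun k => if k = i then 0 else ω.1 k) u

noncomputable def gh (ω : (ι → ℝ) × (κ → ℝ)) (u : ℝ) : ℝ :=
  es (fun k => b k - b j) (fun k => β k - β j) ω.2 u

noncomputable def gh' (ω : (ι → ℝ) × (κ → ℝ)) (u : ℝ) : ℝ :=
  es' (fun k => b k - b j) (fun k => β k - β j) ω.2 u

noncomputable def eh (u : ℝ) : ℝ := Real.exp (-(a i + b j) * u + -(α i + β j))

noncomputable def eh' (u : ℝ) : ℝ := -(a i + b j) * Real.exp (-(a i + b j) * u + -(α i + β j))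

noncomputable def GG (ω : (ι → ℝ) × (κ → ℝ)) (u : ℝ) : ℝ :=
  fh a α i ω u + eh a α b β i j u / gh b β j ω u

noncomputable def GG' (ω : (ι → ℝ) × (κ → ℝ)) (u : ℝ) : ℝ :=
  fh' a α i ω u + (eh' a α b β i j u * gh b β j ω u - eh a α b β i j u * gh' b β j ω u) /
    (gh b β j ω u) ^ 2

omit [Fintype κ] in
theorem ev_eq (ξ : ι → ℝ) (η : κ → ℝ) (u : ℝ) :
    ev a α ξ u = Real.exp (a i * u + α i) * (ξ i + fh a α i (ξ, η) u) := by
  unfold ev fh es
  have h1 : ∑ k, (if k = i then 0 else ξ k) * Real.exp ((a k - a i) * u + (α k - α i)) =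
      ∑ k ∈ Finset.univ.erase i, ξ k * Real.exp ((a k - a i) * u + (α k - α i)) := by
    rw [← Finset.add_sum_erase _ _ (Finset.mem_univ i)]
    simp only [if_true, zero_mul, zero_add]
    refine Finset.sum_congr rfl fun k hk => ?_
    rw [if_neg (Finset.ne_of_mem_erase hk)]
  simp only at h1 ⊢
  rw [h1, ← Finset.add_sum_erase _ _ (Finset.mem_univ i), mul_add, Finset.mul_sum]
  refine congrArg₂ (· + ·) (mul_comm _ _) (Finset.sum_congr rfl fun k _ => ?_)
  have h2 : a k * u + α k = (a i * u + α i) + ((a k - a i) * u + (α k - α i)) := by ring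
  rw [h2, Real.exp_add]
  ring

omit [Fintype κ] in
theorem dv_eq (ξ : ι → ℝ) (η : κ → ℝ) (u : ℝ) :
    dv a α ξ u = Real.exp (a i * u + α i) *
      (a i * (ξ i + fh a α i (ξ, η) u) + fh' a α i (ξ, η) u) := by
  have h0 : dv a α ξ u = a i * ev a α ξ u + ∑ k ∈ Finset.univ.erase i,
      ξ k * ((a k - a i) * Real.exp (a k * u + α k)) := by
    unfold dv ev
    have h1 : ∑ k ∈ Finset.univ.erase i, ξ k * ((a k - a i) * Real.exp (a k * u + α k)) =
        ∑ k, ξ k * ((a k - a i) * Real.exp (a k * u + α k)) := by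
      rw [← Finset.add_sum_erase _ _ (Finset.mem_univ i)]
      simp
    rw [h1, Finset.mul_sum, ← Finset.sum_add_distrib]
    exact Finset.sum_congr rfl fun k _ => by ring
  rw [h0, ev_eq a α i ξ η u]
  have h1 : fh' a α i (ξ, η) u = ∑ k ∈ Finset.univ.erase i,
      ξ k * ((a k - a i) * Real.exp ((a k - a i) * u + (α k - α i))) := by
    unfold fh' es'
    rw [← Finset.add_sum_erase _ _ (Finset.mem_univ i)]
    simp only [if_true, zero_mul, zero_add]
    refine Finset.sum_congr rfl fun k hk => ?_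
    rw [if_neg (Finset.ne_of_mem_erase hk)]
  rw [h1]
  conv_rhs => rw [mul_add, Finset.mul_sum]
  refine congrArg₂ (· + ·) (by ring) (Finset.sum_congr rfl fun k _ => ?_)
  have h2 : a k * u + α k = (a i * u + α i) + ((a k - a i) * u + (α k - α i)) := by ring
  rw [h2, Real.exp_add]
  ring

omit [Fintype ι] [DecidableEq ι] in
theorem ev_eq' (ξ : ι → ℝ) (η : κ → ℝ) (u : ℝ) :
    ev b β η u = Real.exp (b j * u + β j) * gh b β j (ξ, η) u := by
  unfold ev gh es
  rw [Finset.mul_sum]
  refine Finset.sum_congr rfl fun k _ => ?_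
  have h2 : b k * u + β k = (b j * u + β j) + ((b k - b j) * u + (β k - β j)) := by ring
  rw [h2, Real.exp_add]
  ring

omit [Fintype ι] [DecidableEq ι] in
theorem dv_eq' (ξ : ι → ℝ) (η : κ → ℝ) (u : ℝ) :
    dv b β η u = Real.exp (b j * u + β j) *
      (b j * gh b β j (ξ, η) u + gh' b β j (ξ, η) u) := by
  have h0 : dv b β η u = b j * ev b β η u + ∑ k, η k * ((b k - b j) * Real.exp (b k * u + β k)) := by
    unfold dv ev
    rw [Finset.mul_sum, ← Finset.sum_add_distrib]
    exact Finset.sum_congr rfl fun k _ => by ring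
  rw [h0, ev_eq' b β j ξ η u]
  unfold gh' es'
  rw [mul_add, Finset.mul_sum]
  refine congrArg₂ (· + ·) (by ring) (Finset.sum_congr rfl fun k _ => ?_)
  have h2 : b k * u + β k = (b j * u + β j) + ((b k - b j) * u + (β k - β j)) := by ring
  rw [h2, Real.exp_add]
  ring

theorem FF_eq (ω : (ι → ℝ) × (κ → ℝ)) (u : ℝ) (h : gh b β j ω u ≠ 0) :
    FF a α b β ω u = Real.exp ((a i + b j) * u + (α i + β j)) * gh b β j ω u *
      (ω.1 i + GG a α b β i j ω u) := by
  unfold FF GG
  rw [ev_eq a α i ω.1 ω.2 u, ev_eq' b β j ω.1 ω.2 u]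
  have h1 : Real.exp ((a i + b j) * u + (α i + β j)) * eh a α b β i j u = 1 := by
    unfold eh
    rw [← Real.exp_add]
    ring_nf
    exact Real.exp_zero
  have h2 : Real.exp ((a i + b j) * u + (α i + β j)) =
      Real.exp (a i * u + α i) * Real.exp (b j * u + β j) := by
    rw [← Real.exp_add]
    ring_nf
  have h3 : Real.exp ((a i + b j) * u + (α i + β j)) * gh b β j ω u *
      (eh a α b β i j u / gh b β j ω u) = 1 := by
    rw [← h1]
    field_simp
  calc Real.exp (a i * u + α i) * (ω.1 i + fh a α i (ω.1, ω.2) u) *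
        (Real.exp (b j * u + β j) * gh b β j (ω.1, ω.2) u) + 1
      = (Real.exp (a i * u + α i) * Real.exp (b j * u + β j)) * gh b β j ω u *
          (ω.1 i + fh a α i ω u) + 1 := by ring
    _ = Real.exp ((a i + b j) * u + (α i + β j)) * gh b β j ω u *
          (ω.1 i + fh a α i ω u) + Real.exp ((a i + b j) * u + (α i + β j)) * gh b β j ω u *
      (eh a α b β i j u / gh b β j ω u) := by rw [h3, h2]
    _ = _ := by ring

theorem FD_eq (ω : (ι → ℝ) × (κ → ℝ)) (u : ℝ) (h : gh b β j ω u ≠ 0) :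
    FD a α b β ω u = Real.exp ((a i + b j) * u + (α i + β j)) * gh b β j ω u *
      GG' a α b β i j ω u + ((a i + b j) + gh' b β j ω u / gh b β j ω u) * FF a α b β ω u := by
  have h1 : Real.exp ((a i + b j) * u + (α i + β j)) * eh a α b β i j u = 1 := by
    unfold eh
    rw [← Real.exp_add]
    ring_nf
    exact Real.exp_zero
  have h2 : Real.exp ((a i + b j) * u + (α i + β j)) =
      Real.exp (a i * u + α i) * Real.exp (b j * u + β j) := by
    rw [← Real.exp_add]
    ring_nf
  have h4 : eh' a α b β i j u = -(a i + b j) * eh a α b β i j u := rfl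
  unfold FD FF GG'
  rw [dv_eq a α i ω.1 ω.2 u, dv_eq' b β j ω.1 ω.2 u, ev_eq a α i ω.1 ω.2 u,
    ev_eq' b β j ω.1 ω.2 u, h4]
  show Real.exp (a i * u + α i) * (a i * (ω.1 i + fh a α i ω u) + fh' a α i ω u) *
      (Real.exp (b j * u + β j) * gh b β j ω u) + Real.exp (a i * u + α i) *
      (ω.1 i + fh a α i ω u) * (Real.exp (b j * u + β j) *
      (b j * gh b β j ω u + gh' b β j ω u)) =
    Real.exp ((a i + b j) * u + (α i + β j)) * gh b β j ω u * (fh' a α i ω u +
      (-(a i + b j) * eh a α b β i j u * gh b β j ω u - eh a α b β i j u * gh' b β j ω u) /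
      gh b β j ω u ^ 2) + (a i + b j + gh' b β j ω u / gh b β j ω u) *
      (Real.exp (a i * u + α i) * (ω.1 i + fh a α i ω u) *
      (Real.exp (b j * u + β j) * gh b β j ω u) + 1)
  generalize Real.exp (a i * u + α i) = X at *
  generalize Real.exp (b j * u + β j) = Y at *
  generalize Real.exp ((a i + b j) * u + (α i + β j)) = Z at *
  generalize eh a α b β i j u = e0 at *
  generalize gh b β j ω u = g at *
  generalize gh' b β j ω u = g' at *
  generalize fh a α i ω u = f at *
  generalize fh' a α i ω u = f' at *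
  subst h2
  have h5 : X * Y * g * (f' + (-(a i + b j) * e0 * g - e0 * g') / g ^ 2) =
      X * Y * g * f' - (X * Y * e0) * ((a i + b j) + g' / g) := by
    field_simp
    ring
  rw [h5, h1]
  field_simp
  ring

end Defs

end Pool.Agent.Lib.MP_c11b14_lc.Sm
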