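import Pool.Agent.Lib.MP_c11b14_lc.Sm.TyA

/-!
# Zeros at which the second factor is not small, the expectation at a fixed point
-/

set_option autoImplicit false

namespace Pool.Agent.Lib.MP_c11b14_lc.Sm

open MeasureTheory Set Filter
open scoped ENNReal

theorem pi_lintegral_le {ι : Type} [Fintype ι] [DecidableEq ι] (μ : ι → Measure ℝ)
    [∀ i, IsProbabilityMeasure (μ i)] {Φ Ψ : (ι → ℝ) → ℝ≥0∞} (hΦ : Measurable Φ)
    (hΨ : Measurable Ψ) (i : ι)
    (h : ∀ ξ, ∫⁻ x, Φ (Function.update ξ i x) ∂μ i ≤ ∫⁻ x, Ψ (Function.update ξ i x) ∂μ i) :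
    ∫⁻ ξ, Φ ξ ∂(Measure.pi μ) ≤ ∫⁻ ξ, Ψ ξ ∂(Measure.pi μ) := by
  refine lintegral_le_of_lmarginal_le {i} hΦ hΨ ?_
  intro ξ
  rw [lmarginal_singleton, lmarginal_singleton]
  exact h ξ

variable {ι κ : Type} [Fintype ι] [Fintype κ] [DecidableEq ι]

section Meas

variable (a α : ι → ℝ) (b β : κ → ℝ) (i : ι) (j : κ)

theorem measurable_es {I : Type} [Fintype I] {X : Type*} [MeasurableSpace X] (p q : I → ℝ)
    {c : X → I → ℝ} (hc : ∀ k, Measurable fun x => c x k) {v : X → ℝ} (hv : Measurable v) :
    Measurable fun x => es p q (c x) (v x) := by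
  unfold es
  refine Finset.measurable_sum _ fun k _ => (hc k).mul ?_
  exact ((measurable_const.mul hv).add measurable_const).exp

theorem measurable_es' {I : Type} [Fintype I] {X : Type*} [MeasurableSpace X] (p q : I → ℝ)
    {c : X → I → ℝ} (hc : ∀ k, Measurable fun x => c x k) {v : X → ℝ} (hv : Measurable v) :
    Measurable fun x => es' p q (c x) (v x) := by
  unfold es'
  refine Finset.measurable_sum _ fun k _ => (hc k).mul ?_
  exact measurable_const.mul ((measurable_const.mul hv).add measurable_const).exp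

omit [Fintype κ] in
theorem measurable_fh : Measurable fun z : ((ι → ℝ) × (κ → ℝ)) × ℝ => fh a α i z.1 z.2 := by
  unfold fh
  refine measurable_es _ _ (fun k => ?_) measurable_snd
  by_cases h : k = i
  · simp only [h, if_true]
    exact measurable_const
  · simp only [h, if_false]
    fun_prop

omit [Fintype κ] in
theorem measurable_fh' : Measurable fun z : ((ι → ℝ) × (κ → ℝ)) × ℝ => fh' a α i z.1 z.2 := by
  unfold fh'
  refine measurable_es' _ _ (fun k => ?_) measurable_snd
  by_cases h : k = i
  · simp only [h, if_true]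
    exact measurable_const
  · simp only [h, if_false]
    fun_prop

omit [Fintype ι] [DecidableEq ι] in
theorem measurable_gh : Measurable fun z : ((ι → ℝ) × (κ → ℝ)) × ℝ => gh b β j z.1 z.2 := by
  unfold gh
  exact measurable_es _ _ (fun k => by fun_prop) measurable_snd

omit [Fintype ι] [DecidableEq ι] in
theorem measurable_gh' : Measurable fun z : ((ι → ℝ) × (κ → ℝ)) × ℝ => gh' b β j z.1 z.2 := by
  unfold gh'
  exact measurable_es' _ _ (fun k => by fun_prop) measurable_snd

omit [Fintype ι] [DecidableEq ι] [Fintype κ] in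
theorem measurable_eh : Measurable (eh a α b β i j) := by
  unfold eh
  fun_prop

omit [Fintype ι] [DecidableEq ι] [Fintype κ] in
theorem measurable_eh' : Measurable (eh' a α b β i j) := by
  unfold eh'
  fun_prop

theorem measurable_GG :
    Measurable fun z : ((ι → ℝ) × (κ → ℝ)) × ℝ => GG a α b β i j z.1 z.2 := by
  unfold GG
  exact (measurable_fh a α i).add (((measurable_eh a α b β i j).comp measurable_snd).div
    (measurable_gh b β j))

theorem measurable_GG' :
    Measurable fun z : ((ι → ℝ) × (κ → ℝ)) × ℝ => GG' a α b β i j z.1 z.2 := by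
  unfold GG'
  exact (measurable_fh' a α i).add (((((measurable_eh' a α b β i j).comp measurable_snd).mul
    (measurable_gh b β j)).sub (((measurable_eh a α b β i j).comp measurable_snd).mul
    (measurable_gh' b β j))).div ((measurable_gh b β j).pow_const 2))

/-- The main term. -/
noncomputable def mt (th w c : ℝ) (ω : (ι → ℝ) × (κ → ℝ)) (u : ℝ) : ℝ≥0∞ :=
  {ω : (ι → ℝ) × (κ → ℝ) | th ≤ |gh b β j ω u| ∧ |GG a α b β i j ω u + c| ≤ 5 / 4 * w}.indicator
    (fun ω => ENNReal.ofReal |GG' a α b β i j ω u|) ω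

/-- The error term. -/
noncomputable def et (th B ε : ℝ) (ω : (ι → ℝ) × (κ → ℝ)) (u : ℝ) : ℝ≥0∞ :=
  ENNReal.ofReal (ε * ((a i + b j) * eh a α b β i j u / th + B * |gh' b β j ω u| / th ^ 2))

theorem measurable_mt (th w c : ℝ) :
    Measurable fun z : ((ι → ℝ) × (κ → ℝ)) × ℝ => mt a α b β i j th w c z.1 z.2 := by
  have h1 : (fun z : ((ι → ℝ) × (κ → ℝ)) × ℝ => mt a α b β i j th w c z.1 z.2) =
      {z : ((ι → ℝ) × (κ → ℝ)) × ℝ | th ≤ |gh b β j z.1 z.2| ∧
        |GG a α b β i j z.1 z.2 + c| ≤ 5 / 4 * w}.indicator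
        (fun z => ENNReal.ofReal |GG' a α b β i j z.1 z.2|) := by
    funext z
    simp only [mt, indicator_apply, Set.mem_ofPred_eq]
  rw [h1]
  refine Measurable.indicator (measurable_GG' a α b β i j).abs.ennreal_ofReal ?_
  exact (measurableSet_le measurable_const (measurable_gh b β j).abs).inter
    (measurableSet_le ((measurable_GG a α b β i j).add_const c).abs measurable_const)

omit [Fintype ι] [DecidableEq ι] in
theorem measurable_et (th B ε : ℝ) :
    Measurable fun z : ((ι → ℝ) × (κ → ℝ)) × ℝ => et a α b β i j th B ε z.1 z.2 := by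
  unfold et
  refine Measurable.ennreal_ofReal (measurable_const.mul ?_)
  exact ((measurable_const.mul ((measurable_eh a α b β i j).comp measurable_snd)).div_const
    _).add ((measurable_const.mul (measurable_gh' b β j).abs).div_const _)

/-- The integrand restricted to the points at which the second factor is not small. -/
noncomputable def kb (th ε : ℝ) (ω : (ι → ℝ) × (κ → ℝ)) (u : ℝ) : ℝ≥0∞ :=
  {ω : (ι → ℝ) × (κ → ℝ) | th ≤ |gh b β j ω u|}.indicator
    (fun ω => kac (FF a α b β ω) (FD a α b β ω) ε u) ω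

omit [DecidableEq ι] in
theorem measurable_kb (th ε : ℝ) :
    Measurable fun z : ((ι → ℝ) × (κ → ℝ)) × ℝ => kb a α b β j th ε z.1 z.2 := by
  have h1 : (fun z : ((ι → ℝ) × (κ → ℝ)) × ℝ => kb a α b β j th ε z.1 z.2) =
      {z : ((ι → ℝ) × (κ → ℝ)) × ℝ | th ≤ |gh b β j z.1 z.2|}.indicator
        (fun z => kac (FF a α b β z.1) (FD a α b β z.1) ε z.2) := by
    funext z
    simp only [kb, indicator_apply, Set.mem_ofPred_eq]
  rw [h1]
  exact Measurable.indicator (measurable_kac a α b β ε)
    (measurableSet_le measurable_const (measurable_gh b β j).abs)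

end Meas

section Fixed

variable (μ : ι → Measure ℝ) (ν : κ → Measure ℝ) [∀ i, IsProbabilityMeasure (μ i)]
  [∀ j, IsProbabilityMeasure (ν j)] {K : ℝ≥0∞}

theorem fixed_one (hμ : ∀ i, μ i ≤ K • (volume : Measure ℝ)) {a α : ι → ℝ} {b β : κ → ℝ}
    (ha : ∀ k, 0 ≤ a k) (hb : ∀ k, 0 ≤ b k) {i : ι} {j : κ} {c w th B ε u : ℝ}
    (hc : ∀ᵐ x ∂(μ i), |x - c| ≤ w) (hw : 0 < w) (hth : 0 < th) (hB : 0 < B)
    (hu : eh a α b β i j u ≤ B) (hε : 0 < ε) (hε1 : ε ≤ w * th / (4 * B)) :
    ∫⁻ ω, kb a α b β j th ε ω u ∂((Measure.pi μ).prod (Measure.pi ν)) ≤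
      K * ENNReal.ofReal (2 * ε) * ∫⁻ ω, (mt a α b β i j th w c ω u +
        et a α b β i j th B ε ω u) ∂((Measure.pi μ).prod (Measure.pi ν)) := by
  have m1 : Measurable fun ω : (ι → ℝ) × (κ → ℝ) => kb a α b β j th ε ω u :=
    (measurable_kb a α b β j th ε).comp
      (g := fun z : ((ι → ℝ) × (κ → ℝ)) × ℝ => kb a α b β j th ε z.1 z.2)
      (f := fun ω : (ι → ℝ) × (κ → ℝ) => (ω, u)) (by fun_prop)
  have m2 : Measurable fun ω : (ι → ℝ) × (κ → ℝ) => (mt a α b β i j th w c ω u +
      et a α b β i j th B ε ω u) :=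
    ((measurable_mt a α b β i j th w c).fun_add (measurable_et a α b β i j th B ε)).comp
      (g := fun z : ((ι → ℝ) × (κ → ℝ)) × ℝ => mt a α b β i j th w c z.1 z.2 +
        et a α b β i j th B ε z.1 z.2)
      (f := fun ω : (ι → ℝ) × (κ → ℝ) => (ω, u)) (by fun_prop)
  have m3 := m2.const_mul (K * ENNReal.ofReal (2 * ε))
  have hmk : ∀ η : κ → ℝ, Measurable fun ξ : ι → ℝ => ((ξ, η) : (ι → ℝ) × (κ → ℝ)) :=
    fun η => measurable_id.prodMk measurable_const
  rw [← lintegral_const_mul _ m2, lintegral_prod_symm _ m1.aemeasurable,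
    lintegral_prod_symm _ m3.aemeasurable]
  refine lintegral_mono fun η => ?_
  have m1' : Measurable fun ξ : ι → ℝ => kb a α b β j th ε (ξ, η) u := m1.comp (hmk η)
  have m3' : Measurable fun ξ : ι → ℝ => K * ENNReal.ofReal (2 * ε) *
      (mt a α b β i j th w c (ξ, η) u + et a α b β i j th B ε (ξ, η) u) := m3.comp (hmk η)
  refine pi_lintegral_le μ (Φ := fun ξ : ι → ℝ => kb a α b β j th ε (ξ, η) u)
    (Ψ := fun ξ : ι → ℝ => K * ENNReal.ofReal (2 * ε) *
      (mt a α b β i j th w c (ξ, η) u + et a α b β i j th B ε (ξ, η) u)) m1' m3' i fun ξ => ?_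
  -- independence of the coordinate `i`
  have u1 : ∀ x, gh b β j (Function.update ξ i x, η) u = gh b β j (ξ, η) u := fun x => rfl
  have u2 : ∀ x, gh' b β j (Function.update ξ i x, η) u = gh' b β j (ξ, η) u := fun x => rfl
  have hupd : ∀ x, (fun k => if k = i then (0 : ℝ) else Function.update ξ i x k) =
      fun k => if k = i then 0 else ξ k := by
    intro x
    funext k
    split_ifs with h
    · rfl
    · rw [Function.update_of_ne h]
  have u3 : ∀ x, fh a α i (Function.update ξ i x, η) u = fh a α i (ξ, η) u := by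
    intro x
    unfold fh
    simp only
    rw [hupd x]
  have u4 : ∀ x, fh' a α i (Function.update ξ i x, η) u = fh' a α i (ξ, η) u := by
    intro x
    unfold fh'
    simp only
    rw [hupd x]
  have u5 : ∀ x, GG a α b β i j (Function.update ξ i x, η) u = GG a α b β i j (ξ, η) u := by
    intro x
    unfold GG
    rw [u3, u1]
  have u6 : ∀ x, GG' a α b β i j (Function.update ξ i x, η) u = GG' a α b β i j (ξ, η) u := by
    intro x
    unfold GG'
    rw [u4, u1, u2]
  have u7 : ∀ x, mt a α b β i j th w c (Function.update ξ i x, η) u =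
      mt a α b β i j th w c (ξ, η) u := by
    intro x
    simp only [mt, indicator_apply, Set.mem_ofPred_eq, u1, u5, u6]
  have u8 : ∀ x, et a α b β i j th B ε (Function.update ξ i x, η) u =
      et a α b β i j th B ε (ξ, η) u := by
    intro x
    unfold et
    rw [u2]
  simp only [u7, u8]
  rw [lintegral_const, measure_univ, mul_one]
  by_cases hg : th ≤ |gh b β j (ξ, η) u|
  swap
  · have h0 : ∀ x, kb a α b β j th ε (Function.update ξ i x, η) u = 0 := by
      intro x
      simp only [kb]
      rw [indicator_of_notMem]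
      rw [Set.mem_ofPred_eq, u1]
      exact hg
    simp only [h0, lintegral_zero]
    exact zero_le
  have hg0 : gh b β j (ξ, η) u ≠ 0 := by
    intro h
    rw [h, abs_zero] at hg
    linarith
  set g := gh b β j (ξ, η) u with hgdef
  set G := GG a α b β i j (ξ, η) u with hG
  set G' := GG' a α b β i j (ξ, η) u with hG'
  set H := Real.exp ((a i + b j) * u + (α i + β j)) with hH
  have hH0 : 0 < H := Real.exp_pos _
  have hHe : H * eh a α b β i j u = 1 := by
    rw [hH]
    unfold eh
    rw [← Real.exp_add]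
    ring_nf
    exact Real.exp_zero
  have he0 : 0 < eh a α b β i j u := Real.exp_pos _
  have hA : th / B ≤ |H * g| := by
    rw [abs_mul, abs_of_pos hH0, div_le_iff₀ hB]
    have h1 : 1 ≤ H * B := by
      rw [← hHe]
      exact mul_le_mul_of_nonneg_left hu hH0.le
    nlinarith [mul_le_mul_of_nonneg_right h1 (abs_nonneg g)]
  have hA0 : 0 < |H * g| := lt_of_lt_of_le (by positivity) hA
  have hεA : ε / |H * g| ≤ w / 4 := by
    rw [div_le_iff₀ hA0]
    refine hε1.trans ?_
    have h2 : w * th / (4 * B) = w / 4 * (th / B) := by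
      field_simp
    rw [h2]
    exact mul_le_mul_of_nonneg_left hA (by positivity)
  set E0 : ℝ := (a i + b j) + |gh' b β j (ξ, η) u| / |g| with hE0
  have hE00 : 0 ≤ E0 := add_nonneg (add_nonneg (ha i) (hb j)) (by positivity)
  -- the pointwise bound
  have hpt : ∀ x, kb a α b β j th ε (Function.update ξ i x, η) u ≤
      {x | |H * g * x + H * g * G| < ε}.indicator
        (fun _ => ENNReal.ofReal (|H * g| * |G'| + E0 * ε)) x := by
    intro x
    simp only [kb]
    rw [indicator_of_mem (by rw [Set.mem_ofPred_eq, u1]; exact hg)]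
    have hgx : gh b β j (Function.update ξ i x, η) u ≠ 0 := by rw [u1]; exact hg0
    have h3 : FF a α b β (Function.update ξ i x, η) u = H * g * x + H * g * G := by
      have hfst : (Function.update ξ i x, η).1 i = x := Function.update_self i x ξ
      rw [FF_eq a α b β i j _ u hgx, u1, u5, hfst]
      ring
    have h4 : FD a α b β (Function.update ξ i x, η) u = H * g * G' +
        ((a i + b j) + gh' b β j (ξ, η) u / g) * (H * g * x + H * g * G) := by
      rw [FD_eq a α b β i j _ u hgx, u1, u2, u6, h3]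
    by_cases hlt : |H * g * x + H * g * G| < ε
    · rw [indicator_of_mem (show x ∈ {x | |H * g * x + H * g * G| < ε} from hlt)]
      simp only [kac]
      rw [indicator_of_mem (by rw [Set.mem_ofPred_eq, h3]; exact hlt)]
      refine ENNReal.ofReal_le_ofReal ?_
      rw [h4]
      refine (abs_add_le _ _).trans ?_
      rw [abs_mul (H * g), abs_mul _ (H * g * x + H * g * G)]
      refine add_le_add le_rfl (mul_le_mul ?_ hlt.le (abs_nonneg _) hE00)
      refine (abs_add_le _ _).trans ?_
      rw [abs_of_nonneg (add_nonneg (ha i) (hb j)), abs_div]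
    · simp only [kac]
      rw [indicator_of_notMem (by rw [Set.mem_ofPred_eq, h3]; exact hlt)]
      exact zero_le
  have hms : MeasurableSet {x : ℝ | |H * g * x + H * g * G| < ε} :=
    measurableSet_lt (by fun_prop) measurable_const
  refine (lintegral_mono hpt).trans ?_
  rw [lintegral_indicator_const hms]
  by_cases hcase : |G + c| ≤ 5 / 4 * w
  · -- the strip
    have h5 := one_dim (hμ i) (H * g) (H * g * G) hε.le
    have h6 : |H * g| * |G'| + E0 * ε = |H * g| * (|G'| + E0 * ε / |H * g|) := by
      field_simp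
    have h7 : mt a α b β i j th w c (ξ, η) u = ENNReal.ofReal |G'| := by
      simp only [mt]
      rw [indicator_of_mem]
      exact ⟨hg, hcase⟩
    have h8 : ENNReal.ofReal (E0 * ε / |H * g|) ≤ et a α b β i j th B ε (ξ, η) u := by
      unfold et
      refine ENNReal.ofReal_le_ofReal ?_
      have h9 : E0 * ε / |H * g| = ε * (E0 / |H * g|) := by ring
      rw [h9]
      refine mul_le_mul_of_nonneg_left ?_ hε.le
      have h10 : 1 / |H * g| ≤ eh a α b β i j u / th := by
        rw [abs_mul, abs_of_pos hH0, div_le_div_iff₀ (by positivity) hth]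
        have : eh a α b β i j u * (H * |g|) = |g| := by
          rw [← mul_assoc, mul_comm (eh a α b β i j u) H, hHe, one_mul]
        rw [this]
        linarith
      have h11 : E0 / |H * g| ≤ E0 * (eh a α b β i j u / th) := by
        have : E0 / |H * g| = E0 * (1 / |H * g|) := by ring
        rw [this]
        exact mul_le_mul_of_nonneg_left h10 hE00
      refine h11.trans ?_
      rw [hE0, add_mul]
      refine add_le_add (le_of_eq (by ring)) ?_
      have h12 : |gh' b β j (ξ, η) u| / |g| ≤ |gh' b β j (ξ, η) u| / th :=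
        div_le_div_of_nonneg_left (abs_nonneg _) hth hg
      calc |gh' b β j (ξ, η) u| / |g| * (eh a α b β i j u / th)
          ≤ |gh' b β j (ξ, η) u| / th * (B / th) :=
            mul_le_mul h12 (div_le_div_of_nonneg_right hu hth.le) (by positivity) (by positivity)
        _ = B * |gh' b β j (ξ, η) u| / th ^ 2 := by
            field_simp
    calc ENNReal.ofReal (|H * g| * |G'| + E0 * ε) * μ i {x | |H * g * x + H * g * G| < ε}
        = (ENNReal.ofReal |G'| + ENNReal.ofReal (E0 * ε / |H * g|)) *
            (ENNReal.ofReal |H * g| * μ i {x | |H * g * x + H * g * G| < ε}) := by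
          rw [h6, ENNReal.ofReal_mul hA0.le, ENNReal.ofReal_add (abs_nonneg _) (by positivity)]
          ring
      _ ≤ (mt a α b β i j th w c (ξ, η) u + et a α b β i j th B ε (ξ, η) u) *
            (K * ENNReal.ofReal (2 * ε)) := by
          rw [h7]
          exact mul_le_mul' (add_le_add le_rfl h8) h5
      _ = _ := mul_comm _ _
  · -- outside the strip
    have h5 : μ i {x | |H * g * x + H * g * G| < ε} = 0 := by
      refine measure_mono_null ?_ (ae_iff.1 hc)
      intro x hx
      rw [Set.mem_ofPred_eq] at hx ⊢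
      rw [not_le] at hcase ⊢
      have h6 : |x + G| < w / 4 := by
        have h7 : H * g * x + H * g * G = H * g * (x + G) := by ring
        rw [h7, abs_mul] at hx
        have h8 : |x + G| < ε / |H * g| := by
          rw [lt_div_iff₀ hA0, mul_comm]
          exact hx
        exact h8.trans_le hεA
      have h9 : |G + c| ≤ |x + G| + |x - c| := by
        have : G + c = (x + G) - (x - c) := by ring
        rw [this]
        exact abs_sub _ _
      linarith
    rw [h5, mul_zero]
    exact zero_le

end Fixed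

end Pool.Agent.Lib.MP_c11b14_lc.Sm
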