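import Pool.Agent.Lib.MP_c11b14_lc.Sm.TyB

/-!
# Zeros at which the second factor is not small, on a cell
-/

set_option autoImplicit false

namespace Pool.Agent.Lib.MP_c11b14_lc.Sm

open MeasureTheory Set Filter Polynomial
open scoped ENNReal

variable {ι κ : Type} [Fintype ι] [Fintype κ] [DecidableEq ι] [DecidableEq κ]

theorem es_unit (p q u : ℝ) :
    es (fun _ : Unit => p) (fun _ => q) (fun _ => 1) u = Real.exp (p * u + q) := by
  unfold es
  simp

theorem es'_unit (p q u : ℝ) :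
    es' (fun _ : Unit => p) (fun _ => q) (fun _ => 1) u = p * Real.exp (p * u + q) := by
  unfold es'
  simp

/-- The deterministic estimate on a cell. -/
theorem cell_mt {a α : ι → ℝ} {b β : κ → ℝ} {i : ι} {j : κ} {T : Set ℝ}
    (hT : MeasurableSet T) (K : Finset ι) (K' : Finset κ) {L B w th c N : ℝ} (hL : 0 ≤ L)
    (hK1 : ∀ k ∈ K, ∀ u ∈ T, |(a k - a i) * u + (α k - α i)| ≤ L)
    (hK2 : ∀ k, k ∉ K → ∀ u ∈ T, (a k - a i) * u + (α k - α i) ≤ -L)
    (hK1' : ∀ k ∈ K', ∀ u ∈ T, |(b k - b j) * u + (β k - β j)| ≤ L)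
    (hK2' : ∀ k, k ∉ K' → ∀ u ∈ T, (b k - b j) * u + (β k - β j) ≤ -L)
    (hj : ∀ k, ∀ u ∈ T, (b k - b j) * u + (β k - β j) ≤ 0)
    (hB : 1 ≤ B) (hBL : B ≤ Real.exp L) (hBe : ∀ u ∈ T, eh a α b β i j u ≤ B)
    (hcase : (∀ u ∈ T, (a i + b j) * u + (α i + β j) ≤ L) ∨
      ∀ u ∈ T, L ≤ (a i + b j) * u + (α i + β j))
    (D : ℕ) (hD : 6 * L ≤ D) (hw : 0 ≤ w) (hth : 0 < th) (hth1 : th ≤ 1)
    (hN1 : 1 ≤ N) (hNs : Fintype.card ι ≤ N) (hNt : Fintype.card κ ≤ N)
    (hr : N * Real.exp (-L) ≤ th / 2)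
    (hs : 23 * B * N * (N * Real.exp (-L)) / th ^ 3 ≤ w / 2)
    {ω : (ι → ℝ) × (κ → ℝ)} (hω1 : ∀ k, |ω.1 k| ≤ 1) (hω2 : ∀ k, |ω.2 k| ≤ 1) :
    ∫⁻ u in T, mt a α b β i j th w c ω u ≤
      ENNReal.ofReal ((6 * ((D + 1 : ℕ) : ℝ) + 1 / 2) * w) := by
  have hexp : 0 < Real.exp (-L) := Real.exp_pos _
  have hr0 : 0 ≤ N * Real.exp (-L) := by positivity
  -- the three approximations
  obtain ⟨P1, hd1, h1, h1'⟩ := approx (fun k => a k - a i) (fun k => α k - α i)
    (fun k => if k = i then 0 else ω.1 k) (fun k => by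
      split_ifs
      · simp
      · exact hω1 k) hT K hL hK1 hK2 D hD
  obtain ⟨P2, hd2, h2, h2'⟩ := approx (fun k => b k - b j) (fun k => β k - β j)
    (fun k => ω.2 k) hω2 hT K' hL hK1' hK2' D hD
  have h3all : ∃ P3 : ℝ[X], P3.natDegree ≤ D + 1 ∧
      (∀ u ∈ T, |eh a α b β i j u - P3.eval u| ≤ Real.exp (-L)) ∧
      ∫⁻ u in T, ENNReal.ofReal |eh' a α b β i j u - (derivative P3).eval u| ≤
        ENNReal.ofReal (Real.exp (-L)) := by
    have hgen : ∀ KU : Finset Unit,
        (∀ k ∈ KU, ∀ u ∈ T, |-(a i + b j) * u + -(α i + β j)| ≤ L) →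
        (∀ k, k ∉ KU → ∀ u ∈ T, -(a i + b j) * u + -(α i + β j) ≤ -L) →
        ∃ P3 : ℝ[X], P3.natDegree ≤ D + 1 ∧
      (∀ u ∈ T, |eh a α b β i j u - P3.eval u| ≤ Real.exp (-L)) ∧
      ∫⁻ u in T, ENNReal.ofReal |eh' a α b β i j u - (derivative P3).eval u| ≤
        ENNReal.ofReal (Real.exp (-L)) := by
      intro KU q1 q2
      obtain ⟨P3, hd3, h3, h3'⟩ := approx (fun _ : Unit => -(a i + b j))
        (fun _ => -(α i + β j)) (fun _ => 1) (fun _ => by simp) hT KU hL q1 q2 D hD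
      simp only [es_unit, es'_unit, Fintype.card_unit, Nat.cast_one, one_mul] at h3 h3'
      exact ⟨P3, hd3, h3, h3'⟩
    rcases hcase with hc1 | hc1
    · refine hgen {()} (fun _ _ u hu => ?_) (fun k hk => absurd (Finset.mem_singleton.2 rfl) hk)
      rw [abs_le]
      have h4 := hc1 u hu
      have h5 : -(a i + b j) * u + -(α i + β j) ≤ L := by
        have := (hBe u hu).trans hBL
        unfold eh at this
        exact Real.exp_le_exp.1 this
      constructor
      · linarith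
      · exact h5
    · refine hgen ∅ (fun k hk => absurd hk (Finset.notMem_empty _)) (fun _ _ u hu => ?_)
      have h4 := hc1 u hu
      linarith
  obtain ⟨P3, hd3, h3, h3'⟩ := h3all
  have hBpos : 0 < B := by linarith
  have he' : ∫⁻ u in T, ENNReal.ofReal |eh' a α b β i j u| ≤ ENNReal.ofReal B := by
    have h4 := lintegral_exp_le (p := -(a i + b j)) (q := -(α i + β j)) (L := Real.log B) hT (by
      intro u hu
      rw [← Real.exp_le_exp, Real.exp_log hBpos]
      exact hBe u hu)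
    rw [Real.exp_log hBpos] at h4
    refine le_trans (le_of_eq (lintegral_congr fun u => ?_)) h4
    unfold eh'
    rw [abs_mul, Real.abs_exp, ENNReal.ofReal_mul (abs_nonneg _)]
  have hγ' : ∫⁻ u in T, ENNReal.ofReal |gh' b β j ω u| ≤ ENNReal.ofReal N := by
    have hpt : ∀ u, ENNReal.ofReal |gh' b β j ω u| ≤
        ∑ k, ENNReal.ofReal |b k - b j| *
          ENNReal.ofReal (Real.exp ((b k - b j) * u + (β k - β j))) := by
      intro u
      unfold gh' es'
      refine (ENNReal.ofReal_le_ofReal (Finset.abs_sum_le_sum_abs _ _)).trans ?_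
      rw [ENNReal.ofReal_sum_of_nonneg fun k _ => abs_nonneg _]
      refine Finset.sum_le_sum fun k _ => ?_
      rw [← ENNReal.ofReal_mul (abs_nonneg _)]
      refine ENNReal.ofReal_le_ofReal ?_
      rw [abs_mul, abs_mul, Real.abs_exp]
      exact mul_le_of_le_one_left (by positivity) (hω2 k)
    refine (lintegral_mono hpt).trans ?_
    rw [lintegral_finsetSum _ fun k _ => by fun_prop]
    calc ∑ k, ∫⁻ u in T, ENNReal.ofReal |b k - b j| *
          ENNReal.ofReal (Real.exp ((b k - b j) * u + (β k - β j)))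
        ≤ ∑ _k : κ, ENNReal.ofReal (Real.exp 0) :=
          Finset.sum_le_sum fun k _ => lintegral_exp_le hT (hj k)
      _ ≤ ENNReal.ofReal N := by
          rw [Real.exp_zero, Finset.sum_const, Finset.card_univ, nsmul_eq_mul,
            ENNReal.ofReal_one, mul_one, ← ENNReal.ofReal_natCast]
          exact ENNReal.ofReal_le_ofReal hNt
  have mfix : Measurable fun u : ℝ => ((ω, u) : ((ι → ℝ) × (κ → ℝ)) × ℝ) :=
    measurable_const.prodMk measurable_id
  have mφ : Measurable fun u => fh a α i ω u := (measurable_fh (κ := κ) a α i).comp mfix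
  have mφ' : Measurable fun u => fh' a α i ω u := (measurable_fh' (κ := κ) a α i).comp mfix
  have mγ : Measurable fun u => gh b β j ω u := (measurable_gh (ι := ι) b β j).comp mfix
  have mγ' : Measurable fun u => gh' b β j ω u := (measurable_gh' (ι := ι) b β j).comp mfix
  have cI : (Fintype.card ι : ℝ) * Real.exp (-L) ≤ N * Real.exp (-L) :=
    mul_le_mul_of_nonneg_right hNs hexp.le
  have cK : (Fintype.card κ : ℝ) * Real.exp (-L) ≤ N * Real.exp (-L) :=
    mul_le_mul_of_nonneg_right hNt hexp.le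
  have cU : Real.exp (-L) ≤ N * Real.exp (-L) := by nlinarith
  have key := strip hT mφ mγ (measurable_eh a α b β i j) mφ' mγ' (measurable_eh' a α b β i j)
    (c := c) hth hth1 hB hN1 hr0 hw hr hd1 hd2 hd3
    (fun u hu => (h1 u hu).trans cI) (h1'.trans (ENNReal.ofReal_le_ofReal cI))
    (fun u hu => (h2 u hu).trans cK) (h2'.trans (ENNReal.ofReal_le_ofReal cK))
    (fun u hu => (h3 u hu).trans cU) (h3'.trans (ENNReal.ofReal_le_ofReal cU))
    (fun u hu => by
      rw [abs_of_pos (show 0 < eh a α b β i j u from Real.exp_pos _)]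
      exact hBe u hu) he' hγ' hs
  refine le_trans (le_of_eq ?_) key
  have hset : MeasurableSet {u : ℝ | th ≤ |gh b β j ω u| ∧
      |fh a α i ω u + eh a α b β i j u / gh b β j ω u + c| ≤ 5 / 4 * w} :=
    (measurableSet_le measurable_const mγ.abs).inter (measurableSet_le
      ((mφ.add ((measurable_eh a α b β i j).div mγ)).add_const c).abs measurable_const)
  rw [inter_comm, ← setLIntegral_indicator hset]
  refine lintegral_congr fun u => ?_
  simp only [mt, indicator_apply, Set.mem_ofPred_eq]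
  rfl

end Pool.Agent.Lib.MP_c11b14_lc.Sm
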