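import Pool.Agent.Lib.MP_c11b14_lc.Sm.TyC

/-!
# Zeros at which the second factor is not small, the expectation on a cell
-/

set_option autoImplicit false

namespace Pool.Agent.Lib.MP_c11b14_lc.Sm

open MeasureTheory Set Filter Polynomial
open scoped ENNReal

variable {ι κ : Type} [Fintype ι] [Fintype κ] [DecidableEq ι] [DecidableEq κ]

omit [Fintype ι] [DecidableEq ι] [DecidableEq κ] in
theorem lintegral_gh' {b β : κ → ℝ} {j : κ} {T : Set ℝ} (hT : MeasurableSet T) {N : ℝ}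
    (hj : ∀ k, ∀ u ∈ T, (b k - b j) * u + (β k - β j) ≤ 0) (hNt : Fintype.card κ ≤ N)
    {ω : (ι → ℝ) × (κ → ℝ)} (hω2 : ∀ k, |ω.2 k| ≤ 1) :
    ∫⁻ u in T, ENNReal.ofReal |gh' b β j ω u| ≤ ENNReal.ofReal N := by
  have hpt : ∀ u, ENNReal.ofReal |gh' b β j ω u| ≤
      ∑ k, ENNReal.ofReal |b k - b j| *
        ENNReal.ofReal (Real.exp ((b k - b j) * u + (β k - β j))) := by
    intro u
    unfold gh' es'
    refine (ENNReal.ofReal_le_ofReal (Finset.abs_sum_le_sum_abs _ _)).trans ?_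
    rw [ENNReal.ofReal_sum_of_nonneg fun k _ => abs_nonneg _]
    refine Finset.sum_le_sum fun k _ => ?_
    rw [← ENNReal.ofReal_mul (abs_nonneg _)]
    refine ENNReal.ofReal_le_ofReal ?_
    rw [abs_mul, abs_mul, Real.abs_exp]
    exact mul_le_of_le_one_left (by positivity) (hω2 k)
  refine (lintegral_mono hpt).trans ?_
  rw [lintegral_finsetSum _ fun k _ => by fun_prop]
  calc ∑ k, ∫⁻ u in T, ENNReal.ofReal |b k - b j| *
        ENNReal.ofReal (Real.exp ((b k - b j) * u + (β k - β j)))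
      ≤ ∑ _k : κ, ENNReal.ofReal (Real.exp 0) :=
        Finset.sum_le_sum fun k _ => lintegral_exp_le hT (hj k)
    _ ≤ ENNReal.ofReal N := by
        rw [Real.exp_zero, Finset.sum_const, Finset.card_univ, nsmul_eq_mul,
          ENNReal.ofReal_one, mul_one, ← ENNReal.ofReal_natCast]
        exact ENNReal.ofReal_le_ofReal hNt

omit [Fintype ι] [DecidableEq ι] [DecidableEq κ] in
theorem cell_et {a α : ι → ℝ} {b β : κ → ℝ} (ha : ∀ k, 0 ≤ a k) (hb : ∀ k, 0 ≤ b k)
    {i : ι} {j : κ} {T : Set ℝ} (hT : MeasurableSet T) {B th N ε : ℝ}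
    (hj : ∀ k, ∀ u ∈ T, (b k - b j) * u + (β k - β j) ≤ 0)
    (hB : 1 ≤ B) (hBe : ∀ u ∈ T, eh a α b β i j u ≤ B) (hth : 0 < th) (hε : 0 ≤ ε)
    (hN1 : 1 ≤ N) (hNt : Fintype.card κ ≤ N)
    {ω : (ι → ℝ) × (κ → ℝ)} (hω2 : ∀ k, |ω.2 k| ≤ 1) :
    ∫⁻ u in T, et a α b β i j th B ε ω u ≤
      ENNReal.ofReal (ε * (B / th + B * N / th ^ 2)) := by
  have hBpos : 0 < B := by linarith
  have hab : 0 ≤ a i + b j := add_nonneg (ha i) (hb j)
  have h1 : ∀ u, et a α b β i j th B ε ω u = ENNReal.ofReal (ε / th) *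
      (ENNReal.ofReal |-(a i + b j)| * ENNReal.ofReal
        (Real.exp (-(a i + b j) * u + -(α i + β j)))) +
      ENNReal.ofReal (ε * B / th ^ 2) * ENNReal.ofReal |gh' b β j ω u| := by
    intro u
    unfold et
    have e0 : 0 ≤ Real.exp (-(a i + b j) * u + -(α i + β j)) := (Real.exp_pos _).le
    rw [← ENNReal.ofReal_mul (abs_nonneg _), ← ENNReal.ofReal_mul (by positivity),
      ← ENNReal.ofReal_mul (by positivity), ← ENNReal.ofReal_add (by positivity) (by positivity)]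
    congr 1
    rw [abs_neg, abs_of_nonneg hab]
    unfold eh
    field_simp
  have mfix : Measurable fun u : ℝ => ((ω, u) : ((ι → ℝ) × (κ → ℝ)) × ℝ) :=
    measurable_const.prodMk measurable_id
  have mγ' : Measurable fun u => gh' b β j ω u := (measurable_gh' (ι := ι) b β j).comp mfix
  have h2 : ∫⁻ u in T, ENNReal.ofReal |-(a i + b j)| * ENNReal.ofReal
      (Real.exp (-(a i + b j) * u + -(α i + β j))) ≤ ENNReal.ofReal B := by
    have h4 := lintegral_exp_le (p := -(a i + b j)) (q := -(α i + β j)) (L := Real.log B) hT (by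
      intro u hu
      rw [← Real.exp_le_exp, Real.exp_log hBpos]
      exact hBe u hu)
    rwa [Real.exp_log hBpos] at h4
  simp only [h1]
  rw [lintegral_add_right _ (mγ'.abs.ennreal_ofReal.const_mul _),
    lintegral_const_mul _ (by fun_prop), lintegral_const_mul _ mγ'.abs.ennreal_ofReal]
  refine (add_le_add (mul_le_mul_right h2 _) (mul_le_mul_right
    (lintegral_gh' hT hj hNt hω2) _)).trans ?_
  rw [← ENNReal.ofReal_mul (by positivity), ← ENNReal.ofReal_mul (by positivity),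
    ← ENNReal.ofReal_add (by positivity) (by positivity)]
  refine ENNReal.ofReal_le_ofReal (le_of_eq ?_)
  ring

/-- The data of a cell. -/
structure CellData (a α : ι → ℝ) (b β : κ → ℝ) (L B : ℝ) (T : Set ℝ) (i : ι) (j : κ)
    (K : Finset ι) (K' : Finset κ) : Prop where
  meas : MeasurableSet T
  hi : ∀ k, ∀ u ∈ T, (a k - a i) * u + (α k - α i) ≤ 0
  hj : ∀ k, ∀ u ∈ T, (b k - b j) * u + (β k - β j) ≤ 0
  hK1 : ∀ k ∈ K, ∀ u ∈ T, |(a k - a i) * u + (α k - α i)| ≤ L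
  hK2 : ∀ k, k ∉ K → ∀ u ∈ T, (a k - a i) * u + (α k - α i) ≤ -L
  hK1' : ∀ k ∈ K', ∀ u ∈ T, |(b k - b j) * u + (β k - β j)| ≤ L
  hK2' : ∀ k, k ∉ K' → ∀ u ∈ T, (b k - b j) * u + (β k - β j) ≤ -L
  hBe : ∀ u ∈ T, Real.exp (-(a i + b j) * u + -(α i + β j)) ≤ B
  hcase : (∀ u ∈ T, (a i + b j) * u + (α i + β j) ≤ L) ∨
      ∀ u ∈ T, L ≤ (a i + b j) * u + (α i + β j)

variable (μ : ι → Measure ℝ) (ν : κ → Measure ℝ) [∀ i, IsProbabilityMeasure (μ i)]
  [∀ j, IsProbabilityMeasure (ν j)] {K : ℝ≥0∞}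

theorem type_one (hμ : ∀ i, μ i ≤ K • (volume : Measure ℝ))
    (hμ1 : ∀ i, ∀ᵐ x ∂(μ i), |x| ≤ 1) (hν1 : ∀ j, ∀ᵐ x ∂(ν j), |x| ≤ 1)
    {a α : ι → ℝ} {b β : κ → ℝ}
    (ha : ∀ k, 0 ≤ a k) (hb : ∀ k, 0 ≤ b k) {i : ι} {j : κ} {T : Set ℝ} {KI : Finset ι}
    {KJ : Finset κ} {L B w th c N ε : ℝ} (hc : ∀ᵐ x ∂(μ i), |x - c| ≤ w)
    (hdat : CellData a α b β L B T i j KI KJ) (hL : 0 ≤ L)
    (hB : 1 ≤ B) (hBL : B ≤ Real.exp L)
    (D : ℕ) (hD : 6 * L ≤ D) (hw : 0 < w) (hth : 0 < th) (hth1 : th ≤ 1)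
    (hN1 : 1 ≤ N) (hNs : Fintype.card ι ≤ N) (hNt : Fintype.card κ ≤ N)
    (hr : N * Real.exp (-L) ≤ th / 2)
    (hs : 23 * B * N * (N * Real.exp (-L)) / th ^ 3 ≤ w / 2)
    (hε : 0 < ε) (hε1 : ε ≤ w * th / (4 * B)) :
    ∫⁻ ω, (∫⁻ u in T, kb a α b β j th ε ω u) ∂((Measure.pi μ).prod (Measure.pi ν)) ≤
      K * ENNReal.ofReal (2 * ε) * (ENNReal.ofReal ((6 * ((D + 1 : ℕ) : ℝ) + 1 / 2) * w) +
        ENNReal.ofReal (ε * (B / th + B * N / th ^ 2))) := by
  have hT := hdat.meas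
  have m1 := measurable_kb a α b β j th ε
  have m2 : Measurable fun z : ((ι → ℝ) × (κ → ℝ)) × ℝ => mt a α b β i j th w c z.1 z.2 +
      et a α b β i j th B ε z.1 z.2 :=
    (measurable_mt a α b β i j th w c).fun_add (measurable_et a α b β i j th B ε)
  rw [lintegral_lintegral_swap (μ := (Measure.pi μ).prod (Measure.pi ν))
    (ν := volume.restrict T) (f := fun ω u => kb a α b β j th ε ω u) m1.aemeasurable]
  calc ∫⁻ u in T, ∫⁻ ω, kb a α b β j th ε ω u ∂((Measure.pi μ).prod (Measure.pi ν))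
      ≤ ∫⁻ u in T, K * ENNReal.ofReal (2 * ε) * ∫⁻ ω, (mt a α b β i j th w c ω u +
        et a α b β i j th B ε ω u) ∂((Measure.pi μ).prod (Measure.pi ν)) := by
        refine setLIntegral_mono' hT fun u hu => ?_
        exact fixed_one μ ν hμ ha hb hc hw hth (by linarith) (hdat.hBe u hu) hε hε1
    _ = K * ENNReal.ofReal (2 * ε) * ∫⁻ u in T, ∫⁻ ω, (mt a α b β i j th w c ω u +
        et a α b β i j th B ε ω u) ∂((Measure.pi μ).prod (Measure.pi ν)) := by
        exact lintegral_const_mul _ m2.lintegral_prod_left'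
    _ = K * ENNReal.ofReal (2 * ε) * ∫⁻ ω, (∫⁻ u in T, (mt a α b β i j th w c ω u +
        et a α b β i j th B ε ω u)) ∂((Measure.pi μ).prod (Measure.pi ν)) := by
        congr 1
        exact (lintegral_lintegral_swap (μ := (Measure.pi μ).prod (Measure.pi ν))
          (ν := volume.restrict T)
          (f := fun ω u => mt a α b β i j th w c ω u + et a α b β i j th B ε ω u)
          m2.aemeasurable).symm
    _ ≤ K * ENNReal.ofReal (2 * ε) * ∫⁻ _ω, (ENNReal.ofReal ((6 * ((D + 1 : ℕ) : ℝ) + 1 / 2) * w) +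
        ENNReal.ofReal (ε * (B / th + B * N / th ^ 2)))
          ∂((Measure.pi μ).prod (Measure.pi ν)) := by
        refine mul_le_mul_right (lintegral_mono_ae ?_) _
        have h1 := Measure.quasiMeasurePreserving_fst (μ := Measure.pi μ) (ν := Measure.pi ν) |>.ae
          (ae_abs_le μ hμ1)
        have h2 := Measure.quasiMeasurePreserving_snd (μ := Measure.pi μ) (ν := Measure.pi ν) |>.ae
          (ae_abs_le ν hν1)
        filter_upwards [h1, h2] with ω h3 h4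
        have mfix : Measurable fun u : ℝ => ((ω, u) : ((ι → ℝ) × (κ → ℝ)) × ℝ) :=
          measurable_const.prodMk measurable_id
        have me : Measurable fun u => et a α b β i j th B ε ω u :=
          (measurable_et (ι := ι) a α b β i j th B ε).comp mfix
        rw [lintegral_add_right _ me]
        refine add_le_add ?_ ?_
        · exact cell_mt hT KI KJ hL hdat.hK1 hdat.hK2 hdat.hK1' hdat.hK2' hdat.hj hB hBL hdat.hBe
            hdat.hcase D hD hw.le hth hth1 hN1 hNs hNt hr hs h3 h4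
        · exact cell_et ha hb hT hdat.hj hB hdat.hBe hth hε.le hN1 hNt h4
    _ = _ := by rw [lintegral_const, measure_univ, mul_one]

end Pool.Agent.Lib.MP_c11b14_lc.Sm
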