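import Pool.Agent.Lib.MP_c11b14_lc.Sm.Bits
import Pool.Agent.Lib.MP_c11b14_lc.Sm.Ty3

/-!
# The expectation over all cells
-/

set_option autoImplicit false

namespace Pool.Agent.Lib.MP_c11b14_lc.Sm

open MeasureTheory Set Filter
open scoped ENNReal

variable {ι κ : Type} [Fintype ι] [Fintype κ]

/-- The envelope integral. -/
theorem env_integral {a α : ι → ℝ} {b β : κ → ℝ} (ha : ∀ k, 0 ≤ a k) (hb : ∀ k, 0 ≤ b k)
    [Nonempty ι] [Nonempty κ]
    (s1 : ℝ → ι) (h1 : ∀ i, MeasurableSet (s1 ⁻¹' {i}))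
    (m1 : ∀ u i, a i * u + α i ≤ a (s1 u) * u + α (s1 u))
    (s2 : ℝ → κ) (h2 : ∀ i, MeasurableSet (s2 ⁻¹' {i}))
    (m2 : ∀ u i, b i * u + β i ≤ b (s2 u) * u + β (s2 u)) :
    ∫⁻ u, (ENNReal.ofReal (vr a α (s1 u) u) + ENNReal.ofReal (vr b β (s2 u) u) +
      ENNReal.ofReal (3 / √2) * (ENNReal.ofReal (a (s1 u) + b (s2 u)) *
        phiT (Real.log (2 * Fintype.card ι * Fintype.card κ))
          ((a (s1 u) + b (s2 u)) * u + (α (s1 u) + β (s2 u))))) ≤
      5 * (Fintype.card ι + Fintype.card κ) := by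
  set L := Real.log (2 * Fintype.card ι * Fintype.card κ) with hL
  set T : ℝ → ℝ≥0∞ := fun u => ENNReal.ofReal (a (s1 u) + b (s2 u)) *
      phiT L ((a (s1 u) + b (s2 u)) * u + (α (s1 u) + β (s2 u))) with hT
  have mT : Measurable T := measurable_tail a α b β s1 h1 s2 h2 L
  have mV := measurable_vr a α s1 h1 m1
  have mW := measurable_vr b β s2 h2 m2
  have hs : 0 < (Fintype.card ι : ℝ) := by exact_mod_cast Fintype.card_pos
  have ht : 0 < (Fintype.card κ : ℝ) := by exact_mod_cast Fintype.card_pos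
  calc ∫⁻ u, (ENNReal.ofReal (vr a α (s1 u) u) + ENNReal.ofReal (vr b β (s2 u) u) +
            ENNReal.ofReal (3 / √2) * T u)
      = (∫⁻ u, ENNReal.ofReal (vr a α (s1 u) u)) + (∫⁻ u, ENNReal.ofReal (vr b β (s2 u) u)) +
            ENNReal.ofReal (3 / √2) * (∫⁻ u, T u) := by
        rw [lintegral_add_left (mV.fun_add mW), lintegral_add_left mV, lintegral_const_mul _ mT]
    _ ≤ 2 * Fintype.card ι + 2 * Fintype.card κ +
          ENNReal.ofReal (3 / √2) * ENNReal.ofReal (2 * Real.exp (L / 2)) := by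
        gcongr
        · exact lintegral_vr a α s1 h1 m1
        · exact lintegral_vr b β s2 h2 m2
        · rw [← integral_phiT]
          exact lintegral_tail a α b β ha hb s1 h1 m1 s2 h2 m2 (phiT L)
    _ ≤ 2 * Fintype.card ι + 2 * Fintype.card κ +
          3 * (Fintype.card ι + Fintype.card κ) := by
        have e2 : ENNReal.ofReal (3 / √2) * ENNReal.ofReal (2 * Real.exp (L / 2)) ≤
            3 * (Fintype.card ι + Fintype.card κ) := by
          rw [← ENNReal.ofReal_mul (by positivity)]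
          refine (ENNReal.ofReal_le_ofReal (const_le _ _ hs ht)).trans (le_of_eq ?_)
          rw [ENNReal.ofReal_mul (by norm_num), ENNReal.ofReal_add hs.le ht.le,
            ENNReal.ofReal_natCast, ENNReal.ofReal_natCast]
          norm_num
        exact add_le_add_right e2 _
    _ = _ := by ring

variable [DecidableEq ι] [DecidableEq κ]

omit [Fintype ι] [Fintype κ] [DecidableEq ι] [DecidableEq κ] in
theorem CellData.swap {a α : ι → ℝ} {b β : κ → ℝ} {L B : ℝ} {T : Set ℝ} {i : ι} {j : κ}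
    {K : Finset ι} {K' : Finset κ} (h : CellData a α b β L B T i j K K') :
    CellData b β a α L B T j i K' K where
  meas := h.meas
  hi := h.hj
  hj := h.hi
  hK1 := h.hK1'
  hK2 := h.hK2'
  hK1' := h.hK1
  hK2' := h.hK2
  hBe := fun u hu => by
    rw [add_comm (b j), add_comm (β j)]
    exact h.hBe u hu
  hcase := by
    rcases h.hcase with h1 | h1
    · left
      intro u hu
      rw [add_comm (b j), add_comm (β j)]
      exact h1 u hu
    · right
      intro u hu
      rw [add_comm (b j), add_comm (β j)]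
      exact h1 u hu

omit [DecidableEq ι] [DecidableEq κ] in
theorem kac_le (a α : ι → ℝ) (b β : κ → ℝ) (i : ι) (j : κ) (th ε : ℝ)
    (ω : (ι → ℝ) × (κ → ℝ)) (u : ℝ) :
    kac (FF a α b β ω) (FD a α b β ω) ε u ≤ kb a α b β j th ε ω u +
      kb b β a α i th ε ω.swap u + kc a α b β i j th ε ω u := by
  have hFF : FF b β a α ω.swap = FF a α b β ω := by
    funext u
    exact FF_swap a α b β ω u
  have hFD : FD b β a α ω.swap = FD a α b β ω := by
    funext u
    exact FD_swap a α b β ω u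
  by_cases h1 : th ≤ |gh b β j ω u|
  · have : kb a α b β j th ε ω u = kac (FF a α b β ω) (FD a α b β ω) ε u := by
      simp only [kb]
      rw [indicator_of_mem (show ω ∈ {ω : (ι → ℝ) × (κ → ℝ) | th ≤ |gh b β j ω u|} from h1)]
    rw [this, add_assoc]
    exact le_self_add
  by_cases h2 : th ≤ |gh a α i ω.swap u|
  · have : kb b β a α i th ε ω.swap u = kac (FF a α b β ω) (FD a α b β ω) ε u := by
      simp only [kb]
      rw [indicator_of_mem (show ω.swap ∈ {ω : (κ → ℝ) × (ι → ℝ) | th ≤ |gh a α i ω u|} from h2),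
        hFF, hFD]
    rw [this, add_comm (kb a α b β j th ε ω u), add_assoc]
    exact le_self_add
  · have : kc a α b β i j th ε ω u = kac (FF a α b β ω) (FD a α b β ω) ε u := by
      simp only [kc]
      rw [indicator_of_mem (show ω ∈ {ω : (ι → ℝ) × (κ → ℝ) | |gh b β j ω u| < th ∧
        |gh a α i ω.swap u| < th} from ⟨not_le.1 h1, not_le.1 h2⟩)]
    rw [this]
    exact le_add_self

omit [DecidableEq ι] [DecidableEq κ] in
theorem measurable_kc (a α : ι → ℝ) (b β : κ → ℝ) (i : ι) (j : κ) (th ε : ℝ) :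
    Measurable fun z : ((ι → ℝ) × (κ → ℝ)) × ℝ => kc a α b β i j th ε z.1 z.2 := by
  have h1 : (fun z : ((ι → ℝ) × (κ → ℝ)) × ℝ => kc a α b β i j th ε z.1 z.2) =
      {z : ((ι → ℝ) × (κ → ℝ)) × ℝ | |gh b β j z.1 z.2| < th ∧
        |gh a α i z.1.swap z.2| < th}.indicator
        (fun z => kac (FF a α b β z.1) (FD a α b β z.1) ε z.2) := by
    funext z
    simp only [kc, indicator_apply, Set.mem_ofPred_eq]
  rw [h1]
  refine Measurable.indicator (measurable_kac a α b β ε) ?_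
  refine (measurableSet_lt (measurable_gh b β j).abs measurable_const).inter ?_
  have h2 : Measurable fun z : ((ι → ℝ) × (κ → ℝ)) × ℝ => gh a α i z.1.swap z.2 :=
    (measurable_gh (ι := κ) a α i).comp
      (f := fun z : ((ι → ℝ) × (κ → ℝ)) × ℝ => (z.1.swap, z.2))
      ((measurable_fst.snd.prodMk measurable_fst.fst).prodMk measurable_snd)
  exact measurableSet_lt h2.abs measurable_const

variable (μ : ι → Measure ℝ) (ν : κ → Measure ℝ) [∀ i, IsProbabilityMeasure (μ i)]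
  [∀ j, IsProbabilityMeasure (ν j)] {K : ℝ≥0∞}

omit [DecidableEq ι] [DecidableEq κ] in
/-- Low cells do not contribute. -/
theorem low_zero (hμ1 : ∀ i, ∀ᵐ x ∂(μ i), |x| ≤ 1) (hν1 : ∀ j, ∀ᵐ x ∂(ν j), |x| ≤ 1)
    {a α : ι → ℝ} {b β : κ → ℝ} (ha : ∀ k, 0 ≤ a k) (hb : ∀ k, 0 ≤ b k) {i : ι} {j : κ}
    {T : Set ℝ} (hT : MeasurableSet T) {B ε : ℝ}
    (hij : ∀ u ∈ T, (∀ k, a k * u + α k ≤ a i * u + α i) ∧ ∀ k, b k * u + β k ≤ b j * u + β j)
    (hlow : ∀ u ∈ T, (a i + b j) * u + (α i + β j) ≤ -Real.log B)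
    (hB2 : 2 * Fintype.card ι * Fintype.card κ < B) (hε : ε ≤ 1 / 2) :
    ∫⁻ ω, (∫⁻ u in T, kac (FF a α b β ω) (FD a α b β ω) ε u)
      ∂((Measure.pi μ).prod (Measure.pi ν)) = 0 := by
  have hs : 0 < (Fintype.card ι : ℝ) := by exact_mod_cast Fintype.card_pos_iff.2 ⟨i⟩
  have ht : 0 < (Fintype.card κ : ℝ) := by exact_mod_cast Fintype.card_pos_iff.2 ⟨j⟩
  have h1 := Measure.quasiMeasurePreserving_fst (μ := Measure.pi μ) (ν := Measure.pi ν) |>.ae
    (ae_abs_le μ hμ1)
  have h2 := Measure.quasiMeasurePreserving_snd (μ := Measure.pi μ) (ν := Measure.pi ν) |>.ae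
    (ae_abs_le ν hν1)
  rw [lintegral_eq_zero_iff' ((measurable_kac a α b β ε).lintegral_prod_right').aemeasurable]
  filter_upwards [h1, h2] with ω h3 h4
  have h5 : ∀ u ∈ T, kac (FF a α b β ω) (FD a α b β ω) ε u ≤ 0 := by
    intro u hu
    simp only [kac]
    rw [indicator_of_notMem]
    intro hlt
    have h6 := (pointwise ha hb (hij u hu).1 (hij u hu).2 h3 h4 hε hlt).2
    have h7 := hlow u hu
    have h8 : Real.log (2 * Fintype.card ι * Fintype.card κ) < Real.log B :=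
      Real.log_lt_log (by positivity) hB2
    linarith
  have h9 := (setLIntegral_mono' (μ := volume) hT h5)
  rw [lintegral_zero] at h9
  exact le_antisymm h9 zero_le

attribute [local irreducible] kb kc kac FF FD

omit [DecidableEq ι] [DecidableEq κ] in
theorem cell_sum {a α : ι → ℝ} {b β : κ → ℝ} {i : ι} {j : κ} {T : Set ℝ} {th ε : ℝ}
    {X Z : ℝ≥0∞}
    (t1 : ∫⁻ ω, (∫⁻ u in T, kb a α b β j th ε ω u)
      ∂((Measure.pi μ).prod (Measure.pi ν)) ≤ X)
    (t2 : ∫⁻ ω, (∫⁻ u in T, kb b β a α i th ε ω u)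
      ∂((Measure.pi ν).prod (Measure.pi μ)) ≤ X)
    (t3 : ∫⁻ ω, (∫⁻ u in T, kc a α b β i j th ε ω u)
      ∂((Measure.pi μ).prod (Measure.pi ν)) ≤ Z) :
    ∫⁻ ω, (∫⁻ u in T, kac (FF a α b β ω) (FD a α b β ω) ε u)
      ∂((Measure.pi μ).prod (Measure.pi ν)) ≤ 2 * X + Z := by
  have mfix : ∀ ω : (ι → ℝ) × (κ → ℝ),
      Measurable fun u : ℝ => ((ω, u) : ((ι → ℝ) × (κ → ℝ)) × ℝ) := fun ω =>
    measurable_const.prodMk measurable_id
  have m2 : Measurable fun z : ((ι → ℝ) × (κ → ℝ)) × ℝ =>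
      kb b β a α i th ε z.1.swap z.2 :=
    (measurable_kb b β a α i th ε).comp
      (f := fun z : ((ι → ℝ) × (κ → ℝ)) × ℝ => (z.1.swap, z.2))
      ((measurable_fst.snd.prodMk measurable_fst.fst).prodMk measurable_snd)
  have m3 := measurable_kc a α b β i j th ε
  have t2' : ∫⁻ ω, (∫⁻ u in T, kb b β a α i th ε ω.swap u)
      ∂((Measure.pi μ).prod (Measure.pi ν)) ≤ X := by
    refine le_trans (le_of_eq ?_) t2
    exact lintegral_prod_swap (μ := Measure.pi ν) (ν := Measure.pi μ)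
      (fun z => ∫⁻ u in T, kb b β a α i th ε z u)
  have s1 : ∫⁻ ω, (∫⁻ u in T, kac (FF a α b β ω) (FD a α b β ω) ε u)
      ∂((Measure.pi μ).prod (Measure.pi ν)) ≤
      ∫⁻ ω, ((∫⁻ u in T, kb a α b β j th ε ω u) +
          (∫⁻ u in T, kb b β a α i th ε ω.swap u) +
          (∫⁻ u in T, kc a α b β i j th ε ω u)) ∂((Measure.pi μ).prod (Measure.pi ν)) := by
    refine lintegral_mono fun ω => ?_
    have m3' : Measurable fun u => kc a α b β i j th ε ω u := m3.comp (mfix ω)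
    have m2' : Measurable fun u => kb b β a α i th ε ω.swap u := m2.comp (mfix ω)
    refine (lintegral_mono fun u => kac_le a α b β i j th ε ω u).trans (le_of_eq ?_)
    rw [lintegral_add_right _ m3', lintegral_add_right _ m2']
  have s2 : ∫⁻ ω, ((∫⁻ u in T, kb a α b β j th ε ω u) +
          (∫⁻ u in T, kb b β a α i th ε ω.swap u) +
          (∫⁻ u in T, kc a α b β i j th ε ω u)) ∂((Measure.pi μ).prod (Measure.pi ν)) =
      (∫⁻ ω, (∫⁻ u in T, kb a α b β j th ε ω u) ∂((Measure.pi μ).prod (Measure.pi ν))) +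
      (∫⁻ ω, (∫⁻ u in T, kb b β a α i th ε ω.swap u) ∂((Measure.pi μ).prod (Measure.pi ν))) +
      (∫⁻ ω, (∫⁻ u in T, kc a α b β i j th ε ω u) ∂((Measure.pi μ).prod (Measure.pi ν))) := by
    rw [lintegral_add_right _ m3.lintegral_prod_right',
      lintegral_add_right _ m2.lintegral_prod_right']
  rw [s2] at s1
  refine s1.trans ?_
  rw [two_mul]
  exact add_le_add (add_le_add t1 t2') t3

theorem window_log (hμ : ∀ i, μ i ≤ K • (volume : Measure ℝ))
    (hν : ∀ j, ν j ≤ K • (volume : Measure ℝ))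
    (hμ1 : ∀ i, ∀ᵐ x ∂(μ i), |x| ≤ 1) (hν1 : ∀ j, ∀ᵐ x ∂(ν j), |x| ≤ 1)
    {c : ι → ℝ} {d : κ → ℝ} {w : ℝ}
    (hc : ∀ i, ∀ᵐ x ∂(μ i), |x - c i| ≤ w) (hd : ∀ j, ∀ᵐ x ∂(ν j), |x - d j| ≤ w)
    [Nonempty ι] [Nonempty κ] {a α : ι → ℝ} {b β : κ → ℝ}
    (ha : ∀ k, 0 ≤ a k) (hb : ∀ k, 0 ≤ b k) {L B th N ε : ℝ} (hL : 0 ≤ L)
    (hB : 1 ≤ B) (hB2 : 2 * Fintype.card ι * Fintype.card κ < B) (hBL : B ≤ Real.exp L)
    (D : ℕ) (hD : 6 * L ≤ D) (hw : 0 < w) (hth : 0 < th) (hth1 : th ≤ 1)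
    (hN1 : 1 ≤ N) (hNs : Fintype.card ι ≤ N) (hNt : Fintype.card κ ≤ N)
    (hr : N * Real.exp (-L) ≤ th / 2)
    (hs : 23 * B * N * (N * Real.exp (-L)) / th ^ 3 ≤ w / 2)
    (hε : 0 < ε) (hε1 : ε ≤ w * th / (4 * B)) (hε2 : ε ≤ 1 / 2) :
    ∫⁻ ω, (∫⁻ u, kac (FF a α b β ω) (FD a α b β ω) ε u)
      ∂((Measure.pi μ).prod (Measure.pi ν)) ≤
      ((4 * (Fintype.card ι + Fintype.card κ) + 3 : ℕ) : ℝ≥0∞) *
        (2 * (K * ENNReal.ofReal (2 * ε) * (ENNReal.ofReal ((6 * ((D + 1 : ℕ) : ℝ) + 1 / 2) * w) +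
          ENNReal.ofReal (ε * (B / th + B * N / th ^ 2))))) +
      5 * (Fintype.card ι + Fintype.card κ) *
        (K * ENNReal.ofReal (2 * ε) * (K * ENNReal.ofReal (2 * th))) := by
  classical
  set P := (Measure.pi μ).prod (Measure.pi ν) with hP
  set X : ℝ≥0∞ := K * ENNReal.ofReal (2 * ε) *
    (ENNReal.ofReal ((6 * ((D + 1 : ℕ) : ℝ) + 1 / 2) * w) +
          ENNReal.ofReal (ε * (B / th + B * N / th ^ 2))) with hX
  set Y : ℝ≥0∞ := K * ENNReal.ofReal (2 * ε) * (K * ENNReal.ofReal (2 * th)) with hY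
  have hup := bits_up (α := α) (β := β) ha hb L B
  choose iT jT KT KT' hmax hdata using
    fun r => exists_cellData (α := α) (β := β) (L := L) (B := B) ha hb hL (by linarith) r
  set T : ℕ → Set ℝ := fun r => cell (bits a α b β L B) r with hT
  have hTm : ∀ r, MeasurableSet (T r) := fun r => (cell_ord hup r).measurableSet
  have hTm' : ∀ u, u ∈ T (rk (bits a α b β L B) u) := fun u => rfl
  let s1 : ℝ → ι := fun u => iT (rk (bits a α b β L B) u)
  let s2 : ℝ → κ := fun u => jT (rk (bits a α b β L B) u)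
  have hpre : ∀ {X : Type} (f : ℕ → X) (x : X),
      MeasurableSet ((fun u => f (rk (bits a α b β L B) u)) ⁻¹' {x}) := by
    intro X f x
    have : (fun u => f (rk (bits a α b β L B) u)) ⁻¹' {x} =
        ⋃ r ∈ {r | f r = x}, T r := by
      ext u
      simp only [mem_preimage, mem_singleton_iff, Set.mem_ofPred_eq, mem_iUnion, exists_prop]
      constructor
      · intro h
        exact ⟨_, h, hTm' u⟩
      · rintro ⟨r, h1, h2⟩
        have h3 : rk (bits a α b β L B) u = r := h2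
        rw [h3]
        exact h1
    rw [this]
    exact MeasurableSet.biUnion (to_countable _) fun r _ => hTm r
  set Ψ : ι → κ → ℝ → ℝ≥0∞ := fun i j u =>
    (ENNReal.ofReal (vr a α i u) + ENNReal.ofReal (vr b β j u) +
      ENNReal.ofReal (3 / √2) * (ENNReal.ofReal (a i + b j) *
        phiT (Real.log (2 * Fintype.card ι * Fintype.card κ))
          ((a i + b j) * u + (α i + β j)))) with hΨ
  have hΨm : ∀ i j, Measurable (Ψ i j) := by
    intro i j
    have q1 : Measurable fun u : ℝ => ENNReal.ofReal (vr a α i u) := by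
      unfold vr
      fun_prop
    have q2 : Measurable fun u : ℝ => ENNReal.ofReal (vr b β j u) := by
      unfold vr
      fun_prop
    have q3 : Measurable fun u : ℝ => ENNReal.ofReal (3 / √2) * (ENNReal.ofReal (a i + b j) *
        phiT (Real.log (2 * Fintype.card ι * Fintype.card κ))
          ((a i + b j) * u + (α i + β j))) := by
      refine measurable_const.mul (measurable_const.mul ?_)
      exact (measurable_phiT _).comp (g := phiT _)
        (f := fun u : ℝ => (a i + b j) * u + (α i + β j)) (by fun_prop)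
    exact (q1.fun_add q2).fun_add q3
  have henv := env_integral (α := α) (β := β) ha hb s1 (hpre iT) (fun u k => (hmax _ u (hTm' u)).1 k)
    s2 (hpre jT) (fun u k => (hmax _ u (hTm' u)).2 k)
  have hcell : ∀ r, ∫⁻ ω, (∫⁻ u in T r, kac (FF a α b β ω) (FD a α b β ω) ε u) ∂P ≤
      2 * X + (∫⁻ u in T r, Ψ (iT r) (jT r) u) * Y := by
    intro r
    rcases hdata r with hdat | hlow
    · have m3 := measurable_kc a α b β (iT r) (jT r) th ε
      have t3 : ∫⁻ ω, (∫⁻ u in T r, kc a α b β (iT r) (jT r) th ε ω u) ∂P ≤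
          (∫⁻ u in T r, Ψ (iT r) (jT r) u) * Y := by
        rw [lintegral_lintegral_swap (μ := P) (ν := volume.restrict (T r))
          (f := fun ω u => kc a α b β (iT r) (jT r) th ε ω u) m3.aemeasurable,
          ← lintegral_mul_const _ (hΨm _ _)]
        refine setLIntegral_mono' (hTm r) fun u hu => ?_
        exact fixed_three μ ν hμ hν hμ1 hν1 ha hb (hmax r u hu).1 (hmax r u hu).2 hε.le hε2 hth.le
      exact cell_sum μ ν (type_one μ ν hμ hμ1 hν1 ha hb (hc (iT r)) hdat hL hB hBL D hD hw hth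
        hth1 hN1 hNs hNt hr hs hε hε1) (type_one ν μ hν hν1 hμ1 hb ha (hd (jT r)) hdat.swap hL hB
        hBL D hD hw hth hth1 hN1 hNt hNs hr hs hε hε1) t3
    · rw [low_zero μ ν hμ1 hν1 ha hb (hTm r) (hmax r) hlow hB2 hε2]
      exact zero_le
  have hsplit : ∀ ω, ∫⁻ u, kac (FF a α b β ω) (FD a α b β ω) ε u =
      ∑ r ∈ Finset.range (Fintype.card (BI ι κ) + 1),
        ∫⁻ u in T r, kac (FF a α b β ω) (FD a α b β ω) ε u := fun ω => lintegral_cells hup _
  simp only [hsplit]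
  rw [lintegral_finsetSum _ fun r _ => (measurable_kac a α b β ε).lintegral_prod_right']
  calc ∑ r ∈ Finset.range (Fintype.card (BI ι κ) + 1),
        ∫⁻ ω, (∫⁻ u in T r, kac (FF a α b β ω) (FD a α b β ω) ε u) ∂P
      ≤ ∑ r ∈ Finset.range (Fintype.card (BI ι κ) + 1),
        (2 * X + (∫⁻ u in T r, Ψ (iT r) (jT r) u) * Y) := Finset.sum_le_sum fun r _ => hcell r
    _ = ((Fintype.card (BI ι κ) + 1 : ℕ) : ℝ≥0∞) * (2 * X) +
        (∑ r ∈ Finset.range (Fintype.card (BI ι κ) + 1), ∫⁻ u in T r, Ψ (iT r) (jT r) u) * Y := by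
        rw [Finset.sum_add_distrib, Finset.sum_const, Finset.card_range, nsmul_eq_mul,
          Finset.sum_mul]
    _ = ((4 * (Fintype.card ι + Fintype.card κ) + 3 : ℕ) : ℝ≥0∞) * (2 * X) +
        (∫⁻ u, Ψ (s1 u) (s2 u) u) * Y := by
        rw [card_BI]
        congr 2
        rw [lintegral_cells hup, card_BI]
        refine Finset.sum_congr rfl fun r _ => ?_
        refine setLIntegral_congr_fun (hTm r) fun u hu => ?_
        have h3 : rk (bits a α b β L B) u = r := hu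
        show Ψ (iT r) (jT r) u = Ψ (iT (rk (bits a α b β L B) u)) (jT (rk (bits a α b β L B) u)) u
        rw [h3]
    _ ≤ _ := add_le_add le_rfl (mul_le_mul_left henv Y)

end Pool.Agent.Lib.MP_c11b14_lc.Sm
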